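import Pool.Agent.HDW.W4
import Pool.Agent.HDG.H4

/-!
# HDW/W8: global mixed densities

`B.mden w j a` is the density `coefficient of s ^ j in (a + s w) ^ n`, divided by `w ^ n`; `B.wt θ w` the tensor `θ w`.

`mden_eq`: the value is `mj` of the tensors at the chosen coordinates, divided by `dt`; `mden_box`, `mden_cont` by linearity from `den`; the integral over a
ball from `box_int`.
-/

set_option autoImplicit false

noncomputable section

open scoped ContDiff Topology

open MeasureTheory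

namespace HDG

open Pool.Agent.FBR

/-- the coefficient of `s ^ j` in `den (a + s w)` -/
def BM.mden {H : Type*} [NormedAddCommGroup H] [NormedSpace ℂ H] {n : ℕ} {e : Module.Basis (Fin n) ℂ H}
    {Y : Type*} [TopologicalSpace Y] (B : BM e Y) (w : B.I → H → Bil H) (j : ℕ) (a : B.I → H → Bil H) (y : Y) : ℝ :=
  lj n j fun s => B.den w (a + s • w) y

/-- the tensor `θ a` -/
def BM.wt {H : Type*} [NormedAddCommGroup H] [NormedSpace ℂ H] {n : ℕ} {e : Module.Basis (Fin n) ℂ H}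
    {Y : Type*} [TopologicalSpace Y] (B : BM e Y) (θ : Y → ℝ) (a : B.I → H → Bil H) (i : B.I) (z : H) : Bil H :=
  θ (B.ψ i z) • a i z

variable {H : Type*} [NormedAddCommGroup H] [NormedSpace ℂ H] {n : ℕ} {e : Module.Basis (Fin n) ℂ H}
  [FiniteDimensional ℂ H] [MeasurableSpace H] [BorelSpace H] {μ : Measure H} [μ.IsAddHaarMeasure]
  {Y : Type*} [TopologicalSpace Y] [CompactSpace Y] [T2Space Y] [MeasurableSpace Y] [BorelSpace Y]
  (B : BM e Y) {w a : B.I → H → Bil H} {ν : Measure Y}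

namespace BM

private theorem W8_smul {V W : Type*} [NormedAddCommGroup V] [NormedSpace ℝ V] [NormedAddCommGroup W] [NormedSpace ℝ W]
    {θ : V → ℝ} {f : V → W} {s : Set V} (h : ContDiffOn ℝ ∞ θ s) (h' : ContDiffOn ℝ ∞ f s) :
    ContDiffOn ℝ ∞ (fun z => θ z • f z) s := h.smul h'

omit [MeasurableSpace H] [BorelSpace H] [CompactSpace Y] [T2Space Y] [MeasurableSpace Y] [BorelSpace Y] in
theorem IsT_wt {θ : Y → ℝ} (hθ : B.Sm θ) (ha : B.IsT a) : B.IsT (B.wt θ a) where
  sm i := W8_smul (V := H) (W := Bil H) (f := a i) (hθ i) (ha.sm i)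
  oo i z hz := O11_smul _ (ha.oo i z hz)
  co i j z hz := by
    have h1 := ha.co i j z hz
    show θ (B.ψ i z) • a i z = (θ (B.ψ j (B.T i j z)) • a j (B.T i j z)).bilinearComp (fderiv ℝ (B.T i j) z)
      (fderiv ℝ (B.T i j) z)
    rw [h1, B.ψ_T hz]
    rfl

omit [MeasurableSpace H] [BorelSpace H] [CompactSpace Y] [T2Space Y] [MeasurableSpace Y] [BorelSpace Y] in
private theorem W8_lj (j : ℕ) (x y : Bil H) (c : ℝ) :
    (lj n j fun s => dt e (x + s • y) / c) = mj e j x y / c := by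
  have h := lj_smul n j c⁻¹ (fun s => dt e (x + s • y))
  unfold mj
  rw [div_eq_inv_mul, ← h]
  refine congrArg (lj n j) ?_
  funext s
  rw [div_eq_inv_mul]

omit [MeasurableSpace H] [BorelSpace H] [CompactSpace Y] [T2Space Y] [MeasurableSpace Y] [BorelSpace Y] in
private theorem mden_eq (j : ℕ) (y : Y) :
    B.mden w j a y = mj e j (a (B.ix y) (B.cd y)) (w (B.ix y) (B.cd y)) / dt e (w (B.ix y) (B.cd y)) :=
  W8_lj j (a (B.ix y) (B.cd y)) (w (B.ix y) (B.cd y)) (dt e (w (B.ix y) (B.cd y)))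

omit [MeasurableSpace H] [BorelSpace H] [CompactSpace Y] [T2Space Y] [MeasurableSpace Y] [BorelSpace Y] in
theorem mden_box (hw : B.Met w) (ha : B.IsT a) (j : ℕ) {i : B.I} {z : H} (hz : z ∈ qb e 4) :
    B.mden w j a (B.ψ i z) = mj e j (a i z) (w i z) / dt e (w i z) := by
  rw [← W8_lj]
  unfold mden
  refine congrArg (lj n j) ?_
  funext s
  exact B.den_box hw (B.IsT_add ha (B.IsT_smul hw.t s)) hz

omit [MeasurableSpace H] [BorelSpace H] [CompactSpace Y] [T2Space Y] [MeasurableSpace Y] [BorelSpace Y] in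
theorem mden_cont (hw : B.Met w) (ha : B.IsT a) (j : ℕ) : Continuous (B.mden w j a) := by
  have h1 : B.mden w j a = fun y => ∑ k ∈ Finset.range (n + 1),
      (Lagrange.basis (Finset.range (n + 1)) (fun k : ℕ => (k : ℝ)) k).coeff j * B.den w (a + (k : ℝ) • w) y := rfl
  rw [h1]
  exact continuous_finsetSum _ fun k _ => continuous_const.mul (B.den_cont hw (B.IsT_add ha (B.IsT_smul hw.t (k : ℝ))))

omit [CompactSpace Y] [T2Space Y] in
theorem mden_int (hw : B.Met w) (hν : B.IsVol μ w ν) (ha : B.IsT a) (j : ℕ) (i : B.I) {f : Y → ℝ} (hf : Measurable f) {C : ℝ}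
    (hC : ∀ y, |f y| ≤ C) {r : ℝ} (hr : 0 < r) (hr4 : r < 4) (h0 : ∀ y, (∀ z ∈ qb e r, B.ψ i z ≠ y) → f y = 0) :
    ∫ y, f y * B.mden w j a y ∂ν = ∫ z in qb e r, f (B.ψ i z) * mj e j (a i z) (w i z) ∂μ := by
  have hsub : (qb e r : Set H) ⊆ qb e 4 := qb_mono hr.le hr4.le
  have hm : MeasurableSet (qb e 4 : Set H) := (isOpen_qb e 4).measurableSet
  rw [B.box_int hw hν i (f := fun y => f y * B.mden w j a y) (hf.mul (B.mden_cont hw ha j).measurable)
    fun y hy => by rw [h0 y fun z hz => hy z (hsub hz), zero_mul]]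
  have h1 : ∫ z in qb e 4, f (B.ψ i z) * B.mden w j a (B.ψ i z) * dt e (w i z) ∂μ =
      ∫ z in qb e 4, f (B.ψ i z) * mj e j (a i z) (w i z) ∂μ := by
    refine setIntegral_congr_fun hm fun z hz => ?_
    show f (B.ψ i z) * B.mden w j a (B.ψ i z) * dt e (w i z) = f (B.ψ i z) * mj e j (a i z) (w i z)
    rw [B.mden_box hw ha j hz, mul_assoc, div_mul_cancel₀ _ (B.dt_w_pos hw hz).ne']
  refine h1.trans (setIntegral_eq_of_subset_of_forall_sdiff_eq_zero hm hsub fun z hz => ?_)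
  have h2 : f (B.ψ i z) = 0 := h0 _ fun z' hz' he => hz.2 (by rwa [← B.inj i (hsub hz') hz.1 he])
  rw [h2, zero_mul]

omit [MeasurableSpace H] [BorelSpace H] [CompactSpace Y] [T2Space Y] [MeasurableSpace Y] [BorelSpace Y] in
theorem mden_nonneg (hw : B.Met w) (ha : B.IsT a) (hn : B.NnT a) (j : ℕ) (y : Y) : 0 ≤ B.mden w j a y := by
  have hz : B.cd y ∈ qb e 4 := qb_mono (by norm_num) (by norm_num) (B.cd_mem y)
  have hnw : Nn (w (B.ix y) (B.cd y)) := by
    intro v
    by_cases hv : v = 0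
    · rw [hv, smul_zero, map_zero]
    · exact (hw.pos _ _ hz v hv).le
  rw [B.mden_eq]
  exact div_nonneg (mj_nonneg e (ha.oo _ _ hz) (hw.t.oo _ _ hz) (hn _ _ hz) hnw j) (B.dt_w_pos hw hz).le

omit [MeasurableSpace H] [BorelSpace H] [CompactSpace Y] [T2Space Y] [MeasurableSpace Y] [BorelSpace Y] in
theorem mden_one (hw : B.Met w) (ha : B.IsT a) (y : Y) : B.mden w 1 a y = B.dcf w a w y := by
  rw [B.mden_eq, mj_one]
  rfl

end BM

end HDG
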