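import Pool.Agent.HDW.W6
import Pool.Agent.HDW.W8

/-!
# HDW/W9: the global recursion

`c0 w0 ≤ w i ≤ C0 w0` on the balls of radius `3`, `K = max 1 (C0 / c0)`. With a partition of unity the integral over `Y` is a sum of integrals
over the balls; there it is compared (`w9_up`) with the integral for the closed field `b i + ε C0 w0` and the constant form `w0`, to which the
local recursion applies, and back (`w9_dn`) with the integral for `b + dd F + K ε w` over the image of the ball of radius `2`.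
-/

set_option autoImplicit false

noncomputable section

open scoped ContDiff Topology

open MeasureTheory

namespace HDG

open Pool.Agent.FBR

variable {H : Type*} [NormedAddCommGroup H] [NormedSpace ℂ H] {n : ℕ} {e : Module.Basis (Fin n) ℂ H}
  [FiniteDimensional ℂ H] [MeasurableSpace H] [BorelSpace H] {μ : Measure H} [μ.IsAddHaarMeasure]
  {Y : Type*} [TopologicalSpace Y] [CompactSpace Y] [T2Space Y] [MeasurableSpace Y] [BorelSpace Y]
  (B : BM e Y) {w b : B.I → H → Bil H} {ν : Measure Y}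

namespace BM

omit [T2Space Y] in
private theorem w9_int (hν : B.IsVol μ w ν) {f : Y → ℝ} (hf : Continuous f) : Integrable f ν := by
  have := hν.fin
  exact hf.integrable_of_hasCompactSupport (HasCompactSupport.of_compactSpace f)

omit [MeasurableSpace H] [BorelSpace H] [CompactSpace Y] [T2Space Y] [MeasurableSpace Y] [BorelSpace Y] in
private theorem w9_out {χ : B.I → Y → ℝ} {c : B.I → H → ℝ} (hχ : B.Pou χ c) (i : B.I) {z : H} (hz : z ∉ (qb e 3 : Set H)) :
    c i z = 0 := by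
  refine image_eq_zero_of_notMem_tsupport fun h => hz ?_
  have h1 : qf e z ≤ (3 / 2) ^ 2 := hχ.cs i h
  show qf e z < 3 ^ 2
  norm_num at h1 ⊢
  linarith

omit [MeasurableSpace H] [BorelSpace H] [CompactSpace Y] [T2Space Y] [MeasurableSpace Y] [BorelSpace Y] in
private theorem w9_nn {χ : B.I → Y → ℝ} {c : B.I → H → ℝ} (hχ : B.Pou χ c) (i : B.I) (z : H) : 0 ≤ c i z := by
  by_cases hz : z ∈ (qb e 3 : Set H)
  · have hz4 : z ∈ (qb e 4 : Set H) := qb_mono (by norm_num) (by norm_num) hz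
    rw [← hχ.eq i z hz4]
    exact hχ.nn i _
  · exact (B.w9_out hχ i hz).ge

omit [MeasurableSpace H] [BorelSpace H] [CompactSpace Y] [T2Space Y] [MeasurableSpace Y] [BorelSpace Y] in
private theorem w9_chi {χ : B.I → Y → ℝ} {c : B.I → H → ℝ} (hχ : B.Pou χ c) (i : B.I) {y : Y}
    (hy : ∀ z ∈ qb e 3, B.ψ i z ≠ y) : χ i y = 0 := by
  by_cases h : ∀ z ∈ qb e 4, B.ψ i z ≠ y
  · exact hχ.out i y h
  · push Not at h
    obtain ⟨z, hz, rfl⟩ := h
    rw [hχ.eq i z hz]
    exact B.w9_out hχ i fun hz3 => hy z hz3 rfl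

private theorem w9_pou (hν : B.IsVol μ w ν) {χ : B.I → Y → ℝ} {c : B.I → H → ℝ} (hχ : B.Pou χ c) {h : Y → ℝ}
    (hh : Continuous h) : ∫ y, h y ∂ν = ∑ i, ∫ y, χ i y * h y ∂ν := by
  have h1 := integral_finsetSum (μ := ν) Finset.univ (f := fun i y => χ i y * h y)
    fun i _ => B.w9_int hν ((B.Sm_cont (hχ.sm i)).mul hh)
  rw [← h1]
  refine integral_congr_ae (Filter.Eventually.of_forall fun y => ?_)
  show h y = ∑ i, χ i y * h y
  rw [← Finset.sum_mul, hχ.sum y, one_mul]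

omit [MeasurableSpace H] [BorelSpace H] [CompactSpace Y] [T2Space Y] [MeasurableSpace Y] [BorelSpace Y] [FiniteDimensional ℂ H] in
private theorem w9_nnw (hw : B.Met w) {i : B.I} {z : H} (hz : z ∈ qb e 4) : Nn (w i z) := by
  intro v
  by_cases hv : v = 0
  · rw [hv, smul_zero, map_zero]
  · exact (hw.pos _ _ hz v hv).le

omit [MeasurableSpace H] [BorelSpace H] in
private theorem w9_w0 : Nn (w0 e : Bil H) := by
  intro v
  rw [w0_self]
  exact qf_nonneg e v

omit [MeasurableSpace H] [BorelSpace H] in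
private theorem w9_mj (j : ℕ) {x y : H → Bil H} (hx : Continuous x) (hy : Continuous y) :
    Continuous fun z => mj e j (x z) (y z) := by
  have hpair : Continuous (fun z => (x z, y z)) := hx.prodMk hy
  have h : Continuous fun z => mj e j (x z, y z).1 (x z, y z).2 := (mj_continuous e j).comp hpair
  exact h

omit [MeasurableSpace H] [BorelSpace H] in
private theorem w9_mjOn (j : ℕ) {x y : H → Bil H} {s : Set H} (hx : ContinuousOn x s) (hy : ContinuousOn y s) :
    ContinuousOn (fun z => mj e j (x z) (y z)) s := by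
  have hpair : ContinuousOn (fun z => (x z, y z)) s := hx.prodMk hy
  have h : ContinuousOn (fun z => mj e j (x z, y z).1 (x z, y z).2) s := (mj_continuous e j).comp_continuousOn hpair
  exact h

/-- comparison with the constant form `w0`, from above -/
private theorem w9_up (hw : B.Met w) (hν : B.IsVol μ w ν) {a : B.I → H → Bil H} (ha : B.IsT a) (hna : B.NnT a)
    {χ : B.I → Y → ℝ} {c : B.I → H → ℝ} (hχ : B.Pou χ c) (i : B.I) (j : ℕ) {G : Y → ℝ} (hG : Continuous G)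
    (hG0 : ∀ y, 0 ≤ G y) {x : H → Bil H} (hx : Continuous x) (hxo : ∀ z, O11 (x z))
    (hxa : ∀ z ∈ qb e 3, Nn (x z - a i z)) {γ : H → ℝ} (hγ : Continuous γ) (hγG : ∀ z ∈ qb e 3, γ z = G (B.ψ i z))
    {C0 : ℝ} (hC0 : ∀ i z, qf e z ≤ 3 ^ 2 → Nn (C0 • w0 e - w i z)) :
    ∫ y, χ i y * (G y * B.mden w j a y) ∂ν ≤ C0 ^ j * ∫ z, c i z * (γ z * mj e j (x z) (w0 e)) ∂μ := by
  have hsub : (qb e 3 : Set H) ⊆ qb e 4 := qb_mono (by norm_num) (by norm_num)
  have hm : MeasurableSet (qb e 3 : Set H) := (isOpen_qb e 3).measurableSet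
  have hcG : Continuous fun y => χ i y * G y := (B.Sm_cont (hχ.sm i)).mul hG
  obtain ⟨M, hM⟩ := isCompact_univ.exists_bound_of_continuousOn (hcG.continuousOn (s := Set.univ))
  have h1 : ∫ y, χ i y * (G y * B.mden w j a y) ∂ν =
      ∫ z in qb e 3, χ i (B.ψ i z) * G (B.ψ i z) * mj e j (a i z) (w i z) ∂μ := by
    rw [← B.mden_int hw hν ha j i (f := fun y => χ i y * G y) hcG.measurable (C := M)
      (fun y => hM y (Set.mem_univ y)) (r := 3) (by norm_num) (by norm_num)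
      (fun y hy => by rw [B.w9_chi hχ i hy, zero_mul])]
    exact integral_congr_ae (Filter.Eventually.of_forall fun y => (mul_assoc _ _ _).symm)
  have hcc : HasCompactSupport (c i) :=
    (isCompact_qb e (3 / 2)).of_isClosed_subset (isClosed_tsupport _) (hχ.cs i)
  have hmj : Continuous fun z => mj e j (x z) (w0 e) := w9_mj (e := e) j hx (y := fun _ => w0 e) continuous_const
  have hcm : Continuous fun z => γ z * mj e j (x z) (w0 e) := hγ.mul hmj
  have hint : Integrable (fun z => c i z * (γ z * mj e j (x z) (w0 e))) μ := by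
    refine Continuous.integrable_of_hasCompactSupport ((hχ.csm i).continuous.mul hcm) ?_
    exact hcc.mul_right (f' := fun z => γ z * mj e j (x z) (w0 e))
  have hpt : ∀ z ∈ (qb e 3 : Set H), mj e j (a i z) (w i z) ≤ C0 ^ j * mj e j (x z) (w0 e) := by
    intro z hz
    rw [← mj_smul]
    exact mj_mono e (ha.oo i z (hsub hz)) (hxo z) (hw.t.oo i z (hsub hz)) (O11_smul C0 (w0_O11 e))
      (hna i z (hsub hz)) (hxa z hz) (B.w9_nnw hw (hsub hz)) (hC0 i z (le_of_lt hz)) j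
  have h2 : ∫ z in qb e 3, χ i (B.ψ i z) * G (B.ψ i z) * mj e j (a i z) (w i z) ∂μ ≤
      ∫ z in qb e 3, C0 ^ j * (c i z * (γ z * mj e j (x z) (w0 e))) ∂μ := by
    refine integral_mono_of_nonneg (ae_restrict_of_forall_mem hm fun z hz => ?_)
      (hint.const_mul (C0 ^ j)).integrableOn (ae_restrict_of_forall_mem hm fun z hz => ?_)
    · exact mul_nonneg (mul_nonneg (hχ.nn i _) (hG0 _)) (mj_nonneg e (ha.oo i z (hsub hz)) (hw.t.oo i z (hsub hz))
        (hna i z (hsub hz)) (B.w9_nnw hw (hsub hz)) j)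
    · show χ i (B.ψ i z) * G (B.ψ i z) * mj e j (a i z) (w i z) ≤ C0 ^ j * (c i z * (γ z * mj e j (x z) (w0 e)))
      rw [hχ.eq i z (hsub hz), ← hγG z hz]
      have h3 : 0 ≤ c i z * γ z := by
        rw [hγG z hz]
        exact mul_nonneg (B.w9_nn hχ i z) (hG0 _)
      have h4 := mul_le_mul_of_nonneg_left (hpt z hz) h3
      calc c i z * γ z * mj e j (a i z) (w i z) ≤ c i z * γ z * (C0 ^ j * mj e j (x z) (w0 e)) := h4
        _ = C0 ^ j * (c i z * (γ z * mj e j (x z) (w0 e))) := by ring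
  have h5 : ∫ z in qb e 3, c i z * (γ z * mj e j (x z) (w0 e)) ∂μ = ∫ z, c i z * (γ z * mj e j (x z) (w0 e)) ∂μ :=
    setIntegral_eq_integral_of_forall_compl_eq_zero fun z hz => by rw [B.w9_out hχ i hz, zero_mul]
  have h6 : ∫ z in qb e 3, C0 ^ j * (c i z * (γ z * mj e j (x z) (w0 e))) ∂μ =
      C0 ^ j * ∫ z in qb e 3, c i z * (γ z * mj e j (x z) (w0 e)) ∂μ := integral_const_mul _ _
  rw [h6, h5] at h2
  exact h1.le.trans h2

/-- comparison with the constant form `w0`, from below -/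
private theorem w9_dn (hw : B.Met w) (hν : B.IsVol μ w ν) {a : B.I → H → Bil H} (ha : B.IsT a) (hna : B.NnT a)
    (i : B.I) (j : ℕ) {G : Y → ℝ} (hG : Continuous G) (hG0 : ∀ y, 0 ≤ G y) {x : H → Bil H} (hxo : ∀ z, O11 (x z))
    (hnx : ∀ z ∈ qb e 2, Nn (x z)) (hxa : ∀ z ∈ qb e 2, Nn (a i z - x z)) {γ : H → ℝ}
    (hγG : ∀ z ∈ qb e 2, γ z = G (B.ψ i z)) {d : ℝ} (hd : 0 ≤ d) (hd0 : ∀ z ∈ qb e 2, Nn (d • w i z - w0 e)) :
    ∫ z in qb e 2, γ z * mj e j (x z) (w0 e) ∂μ ≤ d ^ j * ∫ y, G y * B.mden w j a y ∂ν := by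
  have hsub : (qb e 2 : Set H) ⊆ qb e 4 := qb_mono (by norm_num) (by norm_num)
  have hm : MeasurableSet (qb e 2 : Set H) := (isOpen_qb e 2).measurableSet
  have hmU : MeasurableSet (B.ψ i '' qb e 2) := (B.opn i _ hsub (isOpen_qb e 2)).measurableSet
  obtain ⟨M, hM⟩ := isCompact_univ.exists_bound_of_continuousOn (hG.continuousOn (s := Set.univ))
  obtain ⟨f, hf⟩ : ∃ f : Y → ℝ, f = (B.ψ i '' qb e 2).indicator G := ⟨_, rfl⟩
  have hfm : Measurable f := by
    rw [hf]
    exact hG.measurable.indicator hmU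
  have hf1 : ∀ z ∈ (qb e 2 : Set H), f (B.ψ i z) = G (B.ψ i z) := by
    intro z hz
    rw [hf]
    exact Set.indicator_of_mem (Set.mem_image_of_mem _ hz) G
  have hfG : ∀ y, 0 ≤ f y ∧ f y ≤ G y := by
    intro y
    rw [hf]
    by_cases hy : y ∈ B.ψ i '' qb e 2
    · rw [Set.indicator_of_mem hy]
      exact ⟨hG0 y, le_rfl⟩
    · rw [Set.indicator_of_notMem hy]
      exact ⟨le_rfl, hG0 y⟩
  have hfM : ∀ y, |f y| ≤ M := by
    intro y
    rw [abs_of_nonneg (hfG y).1]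
    exact ((hfG y).2.trans (le_abs_self _)).trans (hM y (Set.mem_univ y))
  have h1 : ∫ y, f y * B.mden w j a y ∂ν = ∫ z in qb e 2, f (B.ψ i z) * mj e j (a i z) (w i z) ∂μ := by
    refine B.mden_int hw hν ha j i hfm hfM (by norm_num) (by norm_num) fun y hy => ?_
    rw [hf]
    refine Set.indicator_of_notMem ?_ G
    rintro ⟨z, hz, hzy⟩
    exact hy z hz hzy
  have h2 : ∫ y, f y * B.mden w j a y ∂ν ≤ ∫ y, G y * B.mden w j a y ∂ν := by
    refine integral_mono_of_nonneg (Filter.Eventually.of_forall fun y => ?_)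
      (B.w9_int hν (hG.mul (B.mden_cont hw ha j))) (Filter.Eventually.of_forall fun y => ?_)
    · exact mul_nonneg (hfG y).1 (B.mden_nonneg hw ha hna j y)
    · exact mul_le_mul_of_nonneg_right (hfG y).2 (B.mden_nonneg hw ha hna j y)
  have hK : ({z : H | qf e z ≤ 2 ^ 2} : Set H) ⊆ qb e 4 := by
    intro z hz
    have h3 : qf e z ≤ 2 ^ 2 := hz
    show qf e z < 4 ^ 2
    norm_num at h3 ⊢
    linarith
  have hcont : ContinuousOn (fun z => d ^ j * (G (B.ψ i z) * mj e j (a i z) (w i z))) {z : H | qf e z ≤ 2 ^ 2} := by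
    have h3 : ContinuousOn (fun z => mj e j (a i z) (w i z)) {z : H | qf e z ≤ 2 ^ 2} :=
      w9_mjOn (e := e) j ((ha.sm i).continuousOn.mono hK) ((hw.t.sm i).continuousOn.mono hK)
    have h4 : ContinuousOn (fun z => G (B.ψ i z)) {z : H | qf e z ≤ 2 ^ 2} :=
      hG.comp_continuousOn ((B.cont i).mono hK)
    exact continuousOn_const.mul (h4.mul h3)
  have hint : IntegrableOn (fun z => d ^ j * (G (B.ψ i z) * mj e j (a i z) (w i z))) (qb e 2) μ :=
    (hcont.integrableOn_compact (isCompact_qb e 2)).mono_set fun z hz => by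
      have h3 : qf e z < 2 ^ 2 := hz
      exact h3.le
  have hpt : ∀ z ∈ (qb e 2 : Set H), mj e j (x z) (w0 e) ≤ d ^ j * mj e j (a i z) (w i z) := by
    intro z hz
    rw [← mj_smul]
    exact mj_mono e (hxo z) (ha.oo i z (hsub hz)) (w0_O11 e) (O11_smul d (hw.t.oo i z (hsub hz)))
      (hnx z hz) (hxa z hz) w9_w0 (hd0 z hz) j
  have h3 : ∫ z in qb e 2, γ z * mj e j (x z) (w0 e) ∂μ ≤
      ∫ z in qb e 2, d ^ j * (G (B.ψ i z) * mj e j (a i z) (w i z)) ∂μ := by
    refine integral_mono_of_nonneg (ae_restrict_of_forall_mem hm fun z hz => ?_) hint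
      (ae_restrict_of_forall_mem hm fun z hz => ?_)
    · show 0 ≤ γ z * mj e j (x z) (w0 e)
      rw [hγG z hz]
      exact mul_nonneg (hG0 _) (mj_nonneg e (hxo z) (w0_O11 e) (hnx z hz) w9_w0 j)
    · show γ z * mj e j (x z) (w0 e) ≤ d ^ j * (G (B.ψ i z) * mj e j (a i z) (w i z))
      rw [hγG z hz]
      calc G (B.ψ i z) * mj e j (x z) (w0 e) ≤ G (B.ψ i z) * (d ^ j * mj e j (a i z) (w i z)) :=
            mul_le_mul_of_nonneg_left (hpt z hz) (hG0 _)
        _ = d ^ j * (G (B.ψ i z) * mj e j (a i z) (w i z)) := by ring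
  refine h3.trans ?_
  rw [integral_const_mul]
  refine mul_le_mul_of_nonneg_left ?_ (pow_nonneg hd j)
  refine le_trans (le_of_eq ?_) h2
  rw [h1]
  refine setIntegral_congr_fun hm fun z hz => ?_
  show G (B.ψ i z) * mj e j (a i z) (w i z) = f (B.ψ i z) * mj e j (a i z) (w i z)
  rw [hf1 z hz]

set_option maxSynthPendingDepth 3 in
theorem glob_rec (hw : B.Met w) (hν : B.IsVol μ w ν) (hb : B.IsT b) (hc : B.ClT b) :
    ∃ K : ℝ, 1 ≤ K ∧ ∀ E0 : ℝ, 0 ≤ E0 → ∃ C : ℝ, 0 ≤ C ∧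
      ∀ (F : Y → ℝ) (ε : ℝ) (g g1 : ℝ → ℝ) (j : ℕ), B.Sm F → (∀ y, F y ≤ 0) → 0 ≤ ε → ε ≤ E0 →
        B.NnT (b + B.dd F + ε • w) → Wp g g1 → j < n →
        ∫ y, g (F y) * B.mden w j (b + B.dd F + ε • w) y ∂ν ≤
          C * ∫ y, (g (F y) + g1 (F y)) * B.mden w (j + 1) (b + B.dd F + (K * ε) • w) y ∂ν := by
  obtain ⟨c0, hc0, hge⟩ := B.Met_ge hw (r := 3) (by norm_num) (by norm_num)
  obtain ⟨C0, hC0, hle⟩ := B.Met_le hw (r := 3) (by norm_num) (by norm_num)
  obtain ⟨K, hK⟩ : ∃ K : ℝ, K = max 1 (C0 / c0) := ⟨_, rfl⟩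
  have hK1 : 1 ≤ K := by
    rw [hK]
    exact le_max_left _ _
  have hK2 : C0 / c0 ≤ K := by
    rw [hK]
    exact le_max_right _ _
  refine ⟨K, hK1, fun E0 hE0 => ?_⟩
  obtain ⟨χ, c, hχ⟩ := B.exists_pou
  obtain ⟨A, hA0, hA⟩ := B.IsT_bd hb (r := 3) (by norm_num) (by norm_num)
  have hloc := fun i => loc_rec e μ (A + E0 * C0 * ‖(w0 e : Bil H)‖) (hχ.csm i) (B.w9_nn hχ i) (hχ.cs i)
  choose C hC hrec using hloc
  have hD : 0 ≤ ∑ i, C i := Finset.sum_nonneg fun i _ => hC i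
  refine ⟨(max 1 C0) ^ n * (∑ i, C i) * (max 1 c0⁻¹) ^ n, by positivity, ?_⟩
  intro F ε g g1 j hF hF0 hε hε1 hnn hg hj
  have ha : B.IsT (b + B.dd F + ε • w) := B.IsT_add (B.IsT_add hb (B.IsT_dd hF)) (B.IsT_smul hw.t ε)
  have ha1 : B.IsT (b + B.dd F + (K * ε) • w) := B.IsT_add (B.IsT_add hb (B.IsT_dd hF)) (B.IsT_smul hw.t (K * ε))
  have hev : ∀ (r : ℝ) (i : B.I) (z v : H), (b + B.dd F + r • w) i z v (Complex.I • v) =
      b i z v (Complex.I • v) + B.dd F i z v (Complex.I • v) + r * w i z v (Complex.I • v) := fun r i z v => rfl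
  have hna1 : B.NnT (b + B.dd F + (K * ε) • w) := by
    intro i z hz v
    have h1 := hnn i z hz v
    have h2 : 0 ≤ w i z v (Complex.I • v) := B.w9_nnw hw hz v
    rw [hev] at h1 ⊢
    have h3 : ε * w i z v (Complex.I • v) ≤ K * ε * w i z v (Complex.I • v) := by
      refine mul_le_mul_of_nonneg_right ?_ h2
      nlinarith
    linarith
  have hFc : Continuous F := B.Sm_cont hF
  have hGc : Continuous fun y => g (F y) := hg.sm.continuous.comp hFc
  have hG1c : Continuous fun y => g (F y) + g1 (F y) := hGc.add (hg.sm1.continuous.comp hFc)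
  have hG0 : ∀ y, 0 ≤ g (F y) := fun y => hg.nn _ (hF0 y)
  have hG10 : ∀ y, 0 ≤ g (F y) + g1 (F y) := fun y => add_nonneg (hg.nn _ (hF0 y)) (hg.nn1 _ (hF0 y))
  obtain ⟨J, hJ⟩ : ∃ J : ℝ, J = ∫ y, (g (F y) + g1 (F y)) * B.mden w (j + 1) (b + B.dd F + (K * ε) • w) y ∂ν :=
    ⟨_, rfl⟩
  have hJ0 : 0 ≤ J := by
    rw [hJ]
    exact integral_nonneg fun y => mul_nonneg (hG10 y) (B.mden_nonneg hw ha1 hna1 _ y)
  have hci : (0 : ℝ) ≤ c0⁻¹ := (inv_pos.2 hc0).le
  -- the estimate in the ball `i`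
  have hmain : ∀ i, ∫ y, χ i y * (g (F y) * B.mden w j (b + B.dd F + ε • w) y) ∂ν ≤
      C0 ^ j * (C i * (c0⁻¹ ^ (j + 1) * J)) := by
    intro i
    obtain ⟨φ, hφ, hφ1, hφ2⟩ := B.loc_fun hF i
    obtain ⟨bb, hbb, hbb1, hbb2, hbb3⟩ := B.loc_ten hb i
    have hsub3 : ∀ z ∈ (qb e 3 : Set H), z ∈ (qb e (7 / 2) : Set H) ∧ qf e z ≤ (7 / 2) ^ 2 ∧ qf e z ≤ 3 ^ 2 := by
      intro z hz
      have h1 : qf e z < 3 ^ 2 := hz
      refine ⟨?_, ?_, h1.le⟩
      · show qf e z < (7 / 2) ^ 2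
        norm_num at h1 ⊢
        linarith
      · norm_num at h1 ⊢
        linarith
    have hsub23 : (qb e 2 : Set H) ⊆ qb e 3 := qb_mono (by norm_num) (by norm_num)
    have hsub34 : (qb e 3 : Set H) ⊆ qb e 4 := qb_mono (by norm_num) (by norm_num)
    have hfld0 : Fld bb (qb e 3) := ⟨hbb, hbb1, fun z hz => hbb3 hc z (hsub3 z hz).1⟩
    have hfld : Fld (fun z => bb z + (ε * C0) • w0 e) (qb e 3) := hfld0.add_w0 e (ε * C0)
    have hdc : Continuous (ddc φ) := by
      have h1 : ContDiff ℝ ∞ (ddc φ) := contDiff_iff_contDiffAt.2 fun _ => ddc_smooth hφ.contDiffAt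
      exact h1.continuous
    have hx : Continuous fun z => bb z + (ε * C0) • w0 e + ddc φ z := hfld.sm.continuous.add hdc
    have hxo : ∀ z, O11 (bb z + (ε * C0) • w0 e + ddc φ z) := fun z =>
      O11_add (hfld.oo z) (O11_ddc (hφ.contDiffAt.of_le (by norm_cast)))
    have hxe : ∀ z ∈ (qb e 3 : Set H), ∀ v, (bb z + (ε * C0) • w0 e + ddc φ z) v (Complex.I • v) =
        b i z v (Complex.I • v) + ε * C0 * w0 e v (Complex.I • v) + B.dd F i z v (Complex.I • v) := by
      intro z hz v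
      rw [hbb2 z (hsub3 z hz).2.1, hφ2 z (hsub3 z hz).1]
      rfl
    have hxa : ∀ z ∈ (qb e 3 : Set H), Nn (bb z + (ε * C0) • w0 e + ddc φ z - (b + B.dd F + ε • w) i z) := by
      intro z hz v
      have h1 : (bb z + (ε * C0) • w0 e + ddc φ z - (b + B.dd F + ε • w) i z) v (Complex.I • v) =
        (bb z + (ε * C0) • w0 e + ddc φ z) v (Complex.I • v) - (b + B.dd F + ε • w) i z v (Complex.I • v) := rfl
      have h2 : 0 ≤ C0 * w0 e v (Complex.I • v) - w i z v (Complex.I • v) := hle i z (hsub3 z hz).2.2 v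
      rw [h1, hxe z hz, hev]
      have h3 := mul_nonneg hε h2
      linarith
    have hnx : ∀ z ∈ (qb e 3 : Set H), Nn (bb z + (ε * C0) • w0 e + ddc φ z) := by
      intro z hz v
      have h1 : 0 ≤ (bb z + (ε * C0) • w0 e + ddc φ z) v (Complex.I • v) -
        (b + B.dd F + ε • w) i z v (Complex.I • v) := hxa z hz v
      have h2 := hnn i z (hsub34 hz) v
      linarith
    have hxa1 : ∀ z ∈ (qb e 2 : Set H), Nn ((b + B.dd F + (K * ε) • w) i z - (bb z + (ε * C0) • w0 e + ddc φ z)) := by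
      intro z hz v
      have h1 : ((b + B.dd F + (K * ε) • w) i z - (bb z + (ε * C0) • w0 e + ddc φ z)) v (Complex.I • v) =
        (b + B.dd F + (K * ε) • w) i z v (Complex.I • v) - (bb z + (ε * C0) • w0 e + ddc φ z) v (Complex.I • v) := rfl
      have h2 : 0 ≤ w i z v (Complex.I • v) - c0 * w0 e v (Complex.I • v) := hge i z (hsub3 z (hsub23 hz)).2.2 v
      have h4 : 0 ≤ w i z v (Complex.I • v) := B.w9_nnw hw (hsub34 (hsub23 hz)) v
      have h5 : C0 / c0 * (c0 * w0 e v (Complex.I • v)) ≤ C0 / c0 * w i z v (Complex.I • v) :=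
        mul_le_mul_of_nonneg_left (by linarith) (by positivity)
      have h6 : C0 / c0 * (c0 * w0 e v (Complex.I • v)) = C0 * w0 e v (Complex.I • v) := by
        field_simp
      have h7 : C0 / c0 * w i z v (Complex.I • v) ≤ K * w i z v (Complex.I • v) :=
        mul_le_mul_of_nonneg_right hK2 h4
      have h8 := mul_le_mul_of_nonneg_left (show C0 * w0 e v (Complex.I • v) ≤ K * w i z v (Complex.I • v) by linarith) hε
      rw [h1, hxe z (hsub23 hz), hev]
      linarith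
    have hbd : ∀ z ∈ (qb e 3 : Set H), ‖bb z + (ε * C0) • w0 e‖ ≤ A + E0 * C0 * ‖(w0 e : Bil H)‖ := by
      intro z hz
      refine (norm_add_le _ _).trans (add_le_add ?_ ?_)
      · rw [hbb2 z (hsub3 z hz).2.1]
        exact hA i z (hsub3 z hz).2.2
      · have h1 : ‖(ε * C0) • (w0 e : Bil H)‖ ≤ |ε * C0| * ‖(w0 e : Bil H)‖ := by
          rw [← Real.norm_eq_abs]
          exact (norm_smul (ε * C0) (w0 e : Bil H)).le
        refine h1.trans (mul_le_mul_of_nonneg_right ?_ (norm_nonneg _))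
        rw [abs_of_nonneg (mul_nonneg hε hC0.le)]
        exact mul_le_mul_of_nonneg_right hε1 hC0.le
    have hφ0 : ∀ z ∈ (qb e 3 : Set H), φ z ≤ 0 := by
      intro z hz
      rw [hφ1 z (hsub3 z hz).2.1]
      exact hF0 _
    have h1 := B.w9_up hw hν ha hnn hχ i j hGc hG0 hx hxo hxa (γ := fun z => g (φ z))
      (hg.sm.continuous.comp hφ.continuous) (fun z hz => by rw [hφ1 z (hsub3 z hz).2.1]) hle
    have h2 := hrec i (fun z => bb z + (ε * C0) • w0 e) φ g g1 j hfld hbd hφ hnx hφ0 hg hj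
    have h3 := B.w9_dn hw hν ha1 hna1 i (j + 1) hG1c hG10 hxo (fun z hz => hnx z (hsub23 hz)) hxa1
      (γ := fun z => g (φ z) + g1 (φ z)) (fun z hz => by rw [hφ1 z (hsub3 z (hsub23 hz)).2.1]) hci
      (fun z hz v => by
        have h4 : 0 ≤ w i z v (Complex.I • v) - c0 * w0 e v (Complex.I • v) := hge i z (hsub3 z (hsub23 hz)).2.2 v
        have h5 : (c0⁻¹ • w i z - w0 e) v (Complex.I • v) =
          c0⁻¹ * w i z v (Complex.I • v) - w0 e v (Complex.I • v) := rfl
        have h6 := mul_nonneg hci h4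
        have h7 : c0⁻¹ * (w i z v (Complex.I • v) - c0 * w0 e v (Complex.I • v)) =
            c0⁻¹ * w i z v (Complex.I • v) - w0 e v (Complex.I • v) := by
          field_simp
        rw [h5, ← h7]
        exact h6)
    rw [← hJ] at h3
    refine h1.trans (mul_le_mul_of_nonneg_left ?_ (pow_nonneg hC0.le j))
    exact h2.trans (mul_le_mul_of_nonneg_left h3 (hC i))
  have hp := B.w9_pou hν hχ (h := fun y => g (F y) * B.mden w j (b + B.dd F + ε • w) y) (hGc.mul (B.mden_cont hw ha j))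
  rw [hp, ← hJ]
  refine (Finset.sum_le_sum fun i _ => hmain i).trans ?_
  rw [← Finset.mul_sum, ← Finset.sum_mul]
  have h1 : C0 ^ j ≤ (max 1 C0) ^ n :=
    (pow_le_pow_left₀ hC0.le (le_max_right 1 C0) j).trans (pow_le_pow_right₀ (le_max_left 1 C0) hj.le)
  have h2 : c0⁻¹ ^ (j + 1) ≤ (max 1 c0⁻¹) ^ n :=
    (pow_le_pow_left₀ hci (le_max_right 1 c0⁻¹) (j + 1)).trans (pow_le_pow_right₀ (le_max_left 1 c0⁻¹) hj)
  calc C0 ^ j * ((∑ i, C i) * (c0⁻¹ ^ (j + 1) * J)) ≤ (max 1 C0) ^ n * ((∑ i, C i) * ((max 1 c0⁻¹) ^ n * J)) := by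
        refine mul_le_mul h1 (mul_le_mul_of_nonneg_left (mul_le_mul_of_nonneg_right h2 hJ0) hD) ?_ (by positivity)
        exact mul_nonneg hD (mul_nonneg (pow_nonneg hci _) hJ0)
    _ = (max 1 C0) ^ n * (∑ i, C i) * (max 1 c0⁻¹) ^ n * J := by ring

end BM

end HDG
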