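import Pool.Agent.HDW.W6
import Pool.Agent.HDW.W8

/-!
# HDW/W9b: the mass of `T`

`∫ mden (n-1) (b + dd F + ε w)`: partition of unity and comparison of `w i` with `w0` as described in W9 (`mj_mono`, `mj_smul`, `mden_int`), then `loc_trace` (W6), for `F - max F` in place of `F` (`dd` does not
change); the integral over `qb e 2` of `|F ∘ ψ i|` is `≤ C ∫ |F| dν` (`box_int`, `dt (w i)` is bounded below on `qb e 3`), and `harnack` (H4) applied to `(F - max F) / L`, where `b + ε w ≤ L w`, `L ≥ 1`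
(`NnT_dom`).
-/

set_option autoImplicit false
set_option maxSynthPendingDepth 3

noncomputable section

open scoped ContDiff Topology

open MeasureTheory

namespace HDG

open Pool.Agent.FBR

variable {H : Type*} [NormedAddCommGroup H] [NormedSpace ℂ H] {n : ℕ} {e : Module.Basis (Fin n) ℂ H}
  [FiniteDimensional ℂ H] [MeasurableSpace H] [BorelSpace H] {μ : Measure H} [μ.IsAddHaarMeasure]
  {Y : Type*} [TopologicalSpace Y] [CompactSpace Y] [T2Space Y] [MeasurableSpace Y] [BorelSpace Y]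
  (B : BM e Y) {w b : B.I → H → Bil H} {ν : Measure Y}

namespace BM

/-- integrals over the ball of radius `2` -/
private theorem W9b_box (hw : B.Met w) (hν : B.IsVol μ w ν) : ∃ K : ℝ, 0 ≤ K ∧ ∀ f : Y → ℝ, B.Sm f →
    ∀ i, ∫ z in qb e 2, |f (B.ψ i z)| ∂μ ≤ K * ∫ y, |f y| ∂ν := by
  obtain ⟨c, hc0, hc⟩ := B.Met_ge hw (r := 2) (by norm_num) (by norm_num)
  have h24 : (qb e 2 : Set H) ⊆ qb e 4 := qb_mono (by norm_num) (by norm_num)
  have hdt : ∀ i, ∀ z ∈ (qb e 2 : Set H), c ^ n ≤ dt e (w i z) := by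
    intro i z hz
    have h1 : dt e (c • (w0 e : Bil H)) ≤ dt e (w i z) := by
      refine dt_mono e (O11_smul c (w0_O11 e)) (hw.t.oo i z (h24 hz)) ?_
        (hc i z (show qf e z < 2 ^ 2 from hz).le)
      intro v
      have h2 : (c • (w0 e : Bil H)) v (Complex.I • v) = c * w0 e v (Complex.I • v) := rfl
      rw [h2, w0_self]
      exact mul_nonneg hc0.le (qf_nonneg e v)
    rwa [dt_zero_smul, dt_w0, mul_one] at h1
  refine ⟨(c ^ n)⁻¹, by positivity, ?_⟩
  intro f hf i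
  have hfin := hν.fin
  have hV : MeasurableSet (B.ψ i '' qb e 2) := (B.opn i _ h24 (isOpen_qb e 2)).measurableSet
  have hq : MeasurableSet (qb e 2 : Set H) := (isOpen_qb e 2).measurableSet
  have hq4 : MeasurableSet (qb e 4 : Set H) := (isOpen_qb e 4).measurableSet
  have hint : Integrable (fun x => |f x|) ν :=
    (B.Sm_cont hf).abs.integrable_of_hasCompactSupport (HasCompactSupport.of_compactSpace _)
  have h1 : ∫ y, (B.ψ i '' qb e 2).indicator (fun x => |f x|) y ∂ν ≤ ∫ y, |f y| ∂ν := by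
    refine integral_mono (hint.indicator hV) hint fun y => ?_
    exact Set.indicator_le_self' (fun _ _ => abs_nonneg _) y
  have h2 : ∫ y, (B.ψ i '' qb e 2).indicator (fun x => |f x|) y ∂ν =
      ∫ z in qb e 2, |f (B.ψ i z)| * dt e (w i z) ∂μ := by
    rw [B.box_int hw hν i (((B.Sm_cont hf).abs.measurable).indicator hV)]
    · have h3 : ∫ z in qb e 4, (B.ψ i '' qb e 2).indicator (fun x => |f x|) (B.ψ i z) * dt e (w i z) ∂μ =
          ∫ z in qb e 4, (qb e 2 : Set H).indicator (fun z => |f (B.ψ i z)| * dt e (w i z)) z ∂μ := by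
        refine setIntegral_congr_fun hq4 fun z hz => ?_
        show (B.ψ i '' qb e 2).indicator (fun x => |f x|) (B.ψ i z) * dt e (w i z) =
          (qb e 2 : Set H).indicator (fun z => |f (B.ψ i z)| * dt e (w i z)) z
        by_cases hz1 : z ∈ (qb e 2 : Set H)
        · have h3 : B.ψ i z ∈ B.ψ i '' qb e 2 := ⟨z, hz1, rfl⟩
          rw [Set.indicator_of_mem h3, Set.indicator_of_mem hz1]
        · have h3 : B.ψ i z ∉ B.ψ i '' qb e 2 := by
            rintro ⟨z', hz', he⟩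
            rw [B.inj i (h24 hz') hz he] at hz'
            exact hz1 hz'
          rw [Set.indicator_of_notMem h3, Set.indicator_of_notMem hz1, zero_mul]
      rw [h3, setIntegral_indicator hq, Set.inter_eq_self_of_subset_right h24]
    · intro x hx
      refine Set.indicator_of_notMem ?_ _
      rintro ⟨z, hz, he⟩
      exact hx z (h24 hz) he
  obtain ⟨φ, hφ, hφf, -⟩ := B.loc_fun hf i
  have hφ2 : ∀ z ∈ (qb e 2 : Set H), φ z = f (B.ψ i z) := fun z hz => hφf z (by
    have h5 : qf e z < 2 ^ 2 := hz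
    linarith)
  have hI : IntegrableOn (fun z => |φ z|) (qb e 2) μ := by
    have hcn : ContinuousOn (fun z => |φ z|) {z : H | qf e z ≤ 2 ^ 2} := hφ.continuous.abs.continuousOn
    refine (hcn.integrableOn_compact (isCompact_qb e 2)).mono_set fun z hz => ?_
    exact (show qf e z < 2 ^ 2 from hz).le
  have hI2 : IntegrableOn (fun z => |f (B.ψ i z)|) (qb e 2) μ :=
    hI.congr_fun (fun z hz => by
      show |φ z| = |f (B.ψ i z)|
      rw [hφ2 z hz]) hq
  obtain ⟨C', hC', hM'⟩ : ∃ C' : ℝ, 0 ≤ C' ∧ ∀ z ∈ (qb e 2 : Set H), dt e (w i z) ≤ C' := by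
    obtain ⟨D, hD0, hD⟩ := B.Met_le hw (r := 2) (by norm_num) (by norm_num)
    refine ⟨D ^ n, by positivity, fun z hz => ?_⟩
    have hz4 := h24 hz
    have h1 : dt e (w i z) ≤ dt e (D • (w0 e : Bil H)) := by
      refine dt_mono e (hw.t.oo i z hz4) (O11_smul D (w0_O11 e)) ?_
        (hD i z (show qf e z < 2 ^ 2 from hz).le)
      intro v
      by_cases hv : v = 0
      · rw [hv, smul_zero, map_zero]
      · exact (hw.pos _ _ hz4 v hv).le
    rwa [dt_zero_smul, dt_w0, mul_one] at h1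
  have hI3 : IntegrableOn (fun z => |f (B.ψ i z)| * dt e (w i z)) (qb e 2) μ := by
    refine (hI2.const_mul C').mono' ?_ ?_
    · refine hI2.aestronglyMeasurable.mul ?_
      exact (((dt_smooth e).continuous.comp_continuousOn ((hw.t.sm i).continuousOn.mono h24)).aestronglyMeasurable hq)
    · refine ae_restrict_of_forall_mem hq fun z hz => ?_
      show ‖|f (B.ψ i z)| * dt e (w i z)‖ ≤ C' * |f (B.ψ i z)|
      rw [Real.norm_eq_abs, abs_mul, abs_abs, abs_of_pos (B.dt_w_pos hw (h24 hz)), mul_comm]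
      exact mul_le_mul_of_nonneg_right (hM' z hz) (abs_nonneg _)
  have h4 : c ^ n * ∫ z in qb e 2, |f (B.ψ i z)| ∂μ ≤ ∫ z in qb e 2, |f (B.ψ i z)| * dt e (w i z) ∂μ := by
    rw [← integral_const_mul]
    refine setIntegral_mono_on (hI2.const_mul _) hI3 hq fun z hz => ?_
    rw [mul_comm]
    exact mul_le_mul_of_nonneg_left (hdt i z hz) (abs_nonneg _)
  have hcn : 0 < c ^ n := by positivity
  rw [inv_mul_eq_div, le_div_iff₀ hcn, mul_comm]
  linarith

/-- the Harnack inequality for `F - max F` -/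
private theorem W9b_har [ConnectedSpace Y] (hw : B.Met w) (hν : B.IsVol μ w ν) (hb : B.IsT b) (E0 : ℝ)
    (hE : 0 ≤ E0) : ∃ C : ℝ, 0 ≤ C ∧ ∀ (F : Y → ℝ) (ε : ℝ), B.Sm F → 0 ≤ ε → ε ≤ E0 →
      B.NnT (b + B.dd F + ε • w) → (∀ y, F y ≤ 0) → (∃ y, F y = 0) → ∫ y, |F y| ∂ν ≤ C := by
  obtain ⟨C1, hC1, hd⟩ := B.NnT_dom (B.IsT_smul hb (-1)) hw
  obtain ⟨C2, hC2, hh⟩ := B.harnack hw hν
  set L : ℝ := C1 + E0 + 1 with hL
  have hL0 : 0 < L := by positivity
  refine ⟨L * C2, by positivity, ?_⟩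
  intro F ε hF hε hεE hn hF0 hF1
  have hs : B.Sm fun y => L⁻¹ * F y := B.Sm_mul (B.Sm_const _) hF
  have h1 : B.NnT (B.dd (fun y => L⁻¹ * F y) + w) := by
    intro i z hz v
    have hdd : B.dd (fun y => L⁻¹ * F y) i z = L⁻¹ • B.dd F i z := B.dd_smul hF _ hz
    have h2 : 0 ≤ b i z v (Complex.I • v) + B.dd F i z v (Complex.I • v) + ε * w i z v (Complex.I • v) := hn i z hz v
    have h3 : 0 ≤ C1 * w i z v (Complex.I • v) + (-1) * b i z v (Complex.I • v) := hd i z hz v
    have h4 : 0 ≤ w i z v (Complex.I • v) := by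
      by_cases hv : v = 0
      · rw [hv, smul_zero, map_zero]
      · exact (hw.pos _ _ hz v hv).le
    show 0 ≤ B.dd (fun y => L⁻¹ * F y) i z v (Complex.I • v) + w i z v (Complex.I • v)
    rw [hdd]
    show 0 ≤ L⁻¹ * B.dd F i z v (Complex.I • v) + w i z v (Complex.I • v)
    have h5 : ε * w i z v (Complex.I • v) ≤ E0 * w i z v (Complex.I • v) := mul_le_mul_of_nonneg_right hεE h4
    have h6 : 0 ≤ B.dd F i z v (Complex.I • v) + L * w i z v (Complex.I • v) := by
      rw [hL]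
      nlinarith
    have h7 : L⁻¹ * B.dd F i z v (Complex.I • v) + w i z v (Complex.I • v) =
        L⁻¹ * (B.dd F i z v (Complex.I • v) + L * w i z v (Complex.I • v)) := by
      field_simp
    rw [h7]
    exact mul_nonneg (inv_nonneg.2 hL0.le) h6
  obtain ⟨y0, hy0⟩ := hF1
  have h2 := hh (fun y => L⁻¹ * F y) hs h1 (fun y => mul_nonpos_of_nonneg_of_nonpos (inv_nonneg.2 hL0.le) (hF0 y))
    ⟨y0, by rw [hy0, mul_zero]; norm_num⟩
  have h3 : ∀ y, |L⁻¹ * F y| = L⁻¹ * |F y| := fun y => by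
    rw [abs_mul, abs_of_nonneg (inv_nonneg.2 hL0.le)]
  simp only [h3] at h2
  rw [integral_const_mul, inv_mul_eq_div, div_le_iff₀ hL0] at h2
  linarith

private theorem W9b_smk {κ : ℝ} {i : B.I} {z : H} : (b + κ • w) i z = b i z + κ • w i z := rfl

theorem base [ConnectedSpace Y] (hw : B.Met w) (hν : B.IsVol μ w ν) (hb : B.IsT b) (hc : B.ClT b) (hn : 1 ≤ n) (E0 : ℝ) (hE : 0 ≤ E0) :
    ∃ C : ℝ, 0 ≤ C ∧ ∀ (F : Y → ℝ) (ε : ℝ), B.Sm F → 0 ≤ ε → ε ≤ E0 → B.NnT (b + B.dd F + ε • w) →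
      ∫ y, B.mden w (n - 1) (b + B.dd F + ε • w) y ∂ν ≤ C := by
  classical
  obtain ⟨χ, c, hP⟩ := B.exists_pou
  obtain ⟨C0, hC0, hCw⟩ := B.Met_le hw (r := 3) (by norm_num) (by norm_num)
  obtain ⟨Ab, hAb, hAb'⟩ := B.IsT_bd hb (r := 3) (by norm_num) (by norm_num)
  obtain ⟨K, hK, hbox⟩ := B.W9b_box hw hν
  obtain ⟨C3, hC3, hhar⟩ := B.W9b_har hw hν hb E0 hE
  have hci0 : ∀ i z, 0 ≤ c i z := by
    intro i z
    by_cases hz : z ∈ qb e 4
    · rw [← hP.eq i z hz]
      exact hP.nn i _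
    · have h1 : z ∉ tsupport (c i) := by
        intro h
        have h2 : qf e z ≤ (3 / 2) ^ 2 := hP.cs i h
        exact hz (show qf e z < 4 ^ 2 by linarith)
      rw [image_eq_zero_of_notMem_tsupport h1]
  have hloc := fun i => loc_trace e μ (Ab + E0 * C0 * ‖(w0 e : Bil H)‖) (hP.csm i) (hci0 i) (hP.cs i) hn
  choose C4 hC4 hloc using hloc
  refine ⟨∑ i, C0 ^ (n - 1) * (C4 i * (1 + K * C3)), Finset.sum_nonneg fun i _ => by
    have := hC4 i
    positivity, ?_⟩
  intro F ε hF hε hεE hN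
  have hfin := hν.fin
  -- the maximum of `F`
  obtain ⟨y0, -, hy0⟩ := isCompact_univ.exists_isMaxOn (Set.univ_nonempty (α := Y)) (B.Sm_cont hF).continuousOn
  have hmax : ∀ y, F y ≤ F y0 := fun y => hy0 (Set.mem_univ y)
  obtain ⟨G, hG⟩ : ∃ G : Y → ℝ, G = fun y => F y + (-F y0) := ⟨_, rfl⟩
  have hGs : B.Sm G := by
    rw [hG]
    exact B.Sm_add hF (B.Sm_const _)
  have hGd : ∀ i, ∀ z ∈ (qb e 4 : Set H), B.dd G i z = B.dd F i z := by
    intro i z hz
    rw [hG, B.dd_add hF (B.Sm_const _) hz, B.dd_const _ hz, add_zero]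
  have hG0 : ∀ y, G y ≤ 0 := fun y => by
    rw [hG]
    have := hmax y
    show F y + (-F y0) ≤ 0
    linarith
  have hNG : B.NnT (b + B.dd G + ε • w) := by
    intro i z hz v
    have h1 := hN i z hz v
    have h2 : (b + B.dd G + ε • w) i z = (b + B.dd F + ε • w) i z := by
      show b i z + B.dd G i z + ε • w i z = b i z + B.dd F i z + ε • w i z
      rw [hGd i z hz]
    rw [h2]
    exact h1
  have hGI : ∫ y, |G y| ∂ν ≤ C3 := hhar G ε hGs hε hεE hNG hG0 ⟨y0, by rw [hG]; ring⟩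
  have haT : B.IsT (b + B.dd F + ε • w) := B.IsT_add (B.IsT_add hb (B.IsT_dd hF)) (B.IsT_smul hw.t ε)
  have hmc : Continuous (B.mden w (n - 1) (b + B.dd F + ε • w)) := B.mden_cont hw haT (n - 1)
  have hsum : ∫ y, B.mden w (n - 1) (b + B.dd F + ε • w) y ∂ν =
      ∑ i, ∫ y, χ i y * B.mden w (n - 1) (b + B.dd F + ε • w) y ∂ν := by
    rw [← integral_finsetSum]
    · refine integral_congr_ae (Filter.Eventually.of_forall fun y => ?_)
      show _ = ∑ i, χ i y * B.mden w (n - 1) (b + B.dd F + ε • w) y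
      rw [← Finset.sum_mul, hP.sum y, one_mul]
    · intro i _
      exact ((B.Sm_cont (hP.sm i)).mul hmc).integrable_of_hasCompactSupport (HasCompactSupport.of_compactSpace _)
  rw [hsum]
  refine Finset.sum_le_sum fun i _ => ?_
  have hout : ∀ y, (∀ z ∈ qb e 2, B.ψ i z ≠ y) → χ i y = 0 := by
    intro y hy
    by_cases h : ∃ z ∈ qb e 4, B.ψ i z = y
    · obtain ⟨z, hz, rfl⟩ := h
      rw [hP.eq i z hz]
      refine image_eq_zero_of_notMem_tsupport fun h => ?_
      have h2 : qf e z ≤ (3 / 2) ^ 2 := hP.cs i h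
      exact hy z (show qf e z < 2 ^ 2 by linarith) rfl
    · push Not at h
      exact hP.out i y h
  have hle1 : ∀ y, |χ i y| ≤ 1 := by
    intro y
    rw [abs_of_nonneg (hP.nn i y), ← hP.sum y]
    exact Finset.single_le_sum (f := fun i => χ i y) (fun i _ => hP.nn i y) (Finset.mem_univ i)
  rw [B.mden_int hw hν haT (n - 1) i (B.Sm_cont (hP.sm i)).measurable hle1 (r := 2) (by norm_num) (by norm_num) hout]
  have h24 : (qb e 2 : Set H) ⊆ qb e 4 := qb_mono (by norm_num) (by norm_num)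
  have h34 : (qb e 3 : Set H) ⊆ qb e 4 := qb_mono (by norm_num) (by norm_num)
  have h23 : (qb e 2 : Set H) ⊆ qb e 3 := qb_mono (by norm_num) (by norm_num)
  have h37 : (qb e 3 : Set H) ⊆ qb e (7 / 2) := qb_mono (by norm_num) (by norm_num)
  have hq : MeasurableSet (qb e 2 : Set H) := (isOpen_qb e 2).measurableSet
  obtain ⟨φ, hφ, hφf, hφd⟩ := B.loc_fun hGs i
  obtain ⟨b', hb's, hb'o, hb'e, hb'c⟩ := B.loc_ten hb i
  have h3h : ∀ z ∈ (qb e 3 : Set H), qf e z ≤ (7 / 2) ^ 2 := fun z hz => by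
    have h5 : qf e z < 3 ^ 2 := hz
    linarith
  have hfld : Fld b' (qb e 3) := ⟨hb's, hb'o, fun z hz => hb'c hc z (h37 hz)⟩
  have hfld2 : Fld (fun z => b' z + (ε * C0) • (w0 e : Bil H)) (qb e 3) := Fld.add_w0 e hfld (ε * C0)
  have hεC : 0 ≤ ε * C0 := by positivity
  have hbd : ∀ z ∈ (qb e 3 : Set H), ‖b' z + (ε * C0) • (w0 e : Bil H)‖ ≤ Ab + E0 * C0 * ‖(w0 e : Bil H)‖ := by
    intro z hz
    refine (norm_add_le _ _).trans (add_le_add ?_ ?_)
    · rw [hb'e z (h3h z hz)]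
      exact hAb' i z (show qf e z < 3 ^ 2 from hz).le
    · rw [norm_smul, Real.norm_eq_abs, abs_of_nonneg hεC]
      exact mul_le_mul_of_nonneg_right (mul_le_mul_of_nonneg_right hεE hC0.le) (norm_nonneg _)
  have hmain := hloc i (fun z => b' z + (ε * C0) • (w0 e : Bil H)) φ hfld2 hbd hφ
  -- comparison
  have hcmp : ∀ z ∈ (qb e 2 : Set H), mj e (n - 1) ((b + B.dd F + ε • w) i z) (w i z) ≤
      C0 ^ (n - 1) * mj e (n - 1) (b' z + (ε * C0) • (w0 e : Bil H) + ddc φ z) (w0 e) := by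
    intro z hz
    have hz3 := h23 hz
    have hz4 := h24 hz
    have hOd : O11 (ddc φ z) := O11_ddc (hφ.contDiffAt.of_le (by norm_cast))
    rw [← mj_smul]
    refine mj_mono e (haT.oo i z hz4)
      (O11_add (O11_add (hb'o z) (O11_smul _ (w0_O11 e))) hOd) (hw.t.oo i z hz4)
      (O11_smul C0 (w0_O11 e)) (hN i z hz4) ?_ ?_ (hCw i z (show qf e z < 3 ^ 2 from hz3).le) (n - 1)
    · intro v
      have h1 := hCw i z (show qf e z < 3 ^ 2 from hz3).le v
      have h1' : 0 ≤ C0 * w0 e v (Complex.I • v) - w i z v (Complex.I • v) := h1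
      have e1 : (b' z + (ε * C0) • (w0 e : Bil H) + ddc φ z - (b + B.dd F + ε • w) i z) v (Complex.I • v) =
          (b' z v (Complex.I • v) + (ε * C0) * w0 e v (Complex.I • v) + ddc φ z v (Complex.I • v)) -
          (b i z v (Complex.I • v) + B.dd F i z v (Complex.I • v) + ε * w i z v (Complex.I • v)) := rfl
      rw [e1, hb'e z (h3h z hz3), hφd z (h37 hz3), hGd i z hz4]
      have h2 := mul_nonneg hε h1'
      linarith
    · intro v
      by_cases hv : v = 0
      · rw [hv, smul_zero, map_zero]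
      · exact (hw.pos _ _ hz4 v hv).le
  -- integrals over the ball
  have hcs2 : ∀ z, z ∉ (qb e 2 : Set H) → c i z = 0 := by
    intro z hz
    refine image_eq_zero_of_notMem_tsupport fun h => ?_
    have h2 : qf e z ≤ (3 / 2) ^ 2 := hP.cs i h
    exact hz (show qf e z < 2 ^ 2 by linarith)
  have hcont2 : Continuous fun z => mj e (n - 1) (b' z + (ε * C0) • (w0 e : Bil H) + ddc φ z) (w0 e) := by
    have h1 := mj_continuous e (n - 1)
    have hdd : Continuous (ddc φ) := (contDiff_iff_contDiffAt.2 fun _ => ddc_smooth hφ.contDiffAt).continuous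
    have h2 : Continuous fun z => (b' z + (ε * C0) • (w0 e : Bil H) + ddc φ z, (w0 e : Bil H)) :=
      ((hb's.continuous.add continuous_const).add hdd).prodMk continuous_const
    exact Continuous.comp (g := fun p : Bil H × Bil H => mj e (n - 1) p.1 p.2)
      (f := fun z => (b' z + (ε * C0) • (w0 e : Bil H) + ddc φ z, (w0 e : Bil H))) h1 h2
  have hcc : HasCompactSupport (c i) :=
    (isCompact_qb e (3 / 2)).of_isClosed_subset (isClosed_tsupport _) (hP.cs i)
  have hI1 : Integrable (fun z => c i z * mj e (n - 1) (b' z + (ε * C0) • (w0 e : Bil H) + ddc φ z) (w0 e)) μ :=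
    ((hP.csm i).continuous.mul hcont2).integrable_of_hasCompactSupport (hcc.mul_right)
  have h5 : ∫ z in qb e 2, χ i (B.ψ i z) * mj e (n - 1) ((b + B.dd F + ε • w) i z) (w i z) ∂μ ≤
      ∫ z in qb e 2, C0 ^ (n - 1) * (c i z * mj e (n - 1) (b' z + (ε * C0) • (w0 e : Bil H) + ddc φ z) (w0 e)) ∂μ := by
    refine integral_mono_of_nonneg ?_ ((hI1.const_mul _).integrableOn) ?_
    · refine ae_restrict_of_forall_mem hq fun z hz => ?_
      refine mul_nonneg (hP.nn i _) (mj_nonneg e (haT.oo i z (h24 hz)) (hw.t.oo i z (h24 hz)) (hN i z (h24 hz)) ?_ _)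
      intro v
      by_cases hv : v = 0
      · rw [hv, smul_zero, map_zero]
      · exact (hw.pos _ _ (h24 hz) v hv).le
    · refine ae_restrict_of_forall_mem hq fun z hz => ?_
      show χ i (B.ψ i z) * mj e (n - 1) ((b + B.dd F + ε • w) i z) (w i z) ≤
        C0 ^ (n - 1) * (c i z * mj e (n - 1) (b' z + (ε * C0) • (w0 e : Bil H) + ddc φ z) (w0 e))
      rw [hP.eq i z (h24 hz)]
      have h6 := mul_le_mul_of_nonneg_left (hcmp z hz) (hci0 i z)
      linarith
  rw [integral_const_mul] at h5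
  have h6 : ∫ z in qb e 2, c i z * mj e (n - 1) (b' z + (ε * C0) • (w0 e : Bil H) + ddc φ z) (w0 e) ∂μ =
      ∫ z, c i z * mj e (n - 1) (b' z + (ε * C0) • (w0 e : Bil H) + ddc φ z) (w0 e) ∂μ :=
    setIntegral_eq_integral_of_forall_compl_eq_zero fun z hz => by rw [hcs2 z hz, zero_mul]
  rw [h6] at h5
  have h7 : ∫ z in qb e 2, |φ z| ∂μ ≤ K * C3 := by
    have h8 : ∫ z in qb e 2, |φ z| ∂μ = ∫ z in qb e 2, |G (B.ψ i z)| ∂μ := by
      refine setIntegral_congr_fun hq fun z hz => ?_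
      show |φ z| = |G (B.ψ i z)|
      rw [hφf z (h3h z (h23 hz))]
    rw [h8]
    exact (hbox G hGs i).trans (mul_le_mul_of_nonneg_left hGI hK)
  refine h5.trans (mul_le_mul_of_nonneg_left (hmain.trans ?_) (by positivity))
  exact mul_le_mul_of_nonneg_left (by linarith) (hC4 i)

end BM

end HDG
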