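import Pool.Agent.HDW.W7
import Pool.Agent.HDW.W9
import Pool.Agent.HDW.W9b

/-!
# HDW/W10: the weighted mass estimate

By induction on `k = n - 1 - j`: for all `q > k` (`q ≥ 0` if `k = 0`) and all `E0` there is `C` with
`∫ gp q (F y) mden j (b + dd F + ε w) ≤ C` for all `F ≤ 0`, `0 ≤ ε ≤ E0` with `b + dd F + ε w ≥ 0`. `k = 0`: `base` and `gp q ≤ 1`. Step: `glob_rec` with `gp_Wp`
(`q > k + 1 ≥ 1`) and `gp q + (q-1)⁻¹ gp (q-1) ≤ (1 + (q-1)⁻¹) gp (q-1)` (`gp_anti`), `mden ≥ 0` (`mden_nonneg`), and the hypothesis for `q - 1`, `K E0`.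
Then `j = 1` and `mden_one`.
-/

set_option autoImplicit false

noncomputable section

open scoped ContDiff Topology

open MeasureTheory

namespace HDG

open Pool.Agent.FBR

variable {H : Type*} [NormedAddCommGroup H] [NormedSpace ℂ H] {n : ℕ} {e : Module.Basis (Fin n) ℂ H}
  [FiniteDimensional ℂ H] [MeasurableSpace H] [BorelSpace H] {μ : Measure H} [μ.IsAddHaarMeasure]
  {Y : Type*} [TopologicalSpace Y] [CompactSpace Y] [T2Space Y] [MeasurableSpace Y] [BorelSpace Y]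
  (B : BM e Y) {w b : B.I → H → Bil H} {ν : Measure Y}

namespace BM

omit [MeasurableSpace H] [BorelSpace H] [CompactSpace Y] [T2Space Y] [MeasurableSpace Y] [BorelSpace Y]
  [FiniteDimensional ℂ H] in
private theorem w10_nn {a : B.I → H → Bil H} (hw : B.Met w) {s t : ℝ} (hst : s ≤ t)
    (h : B.NnT (a + s • w)) : B.NnT (a + t • w) := by
  intro i z hz v
  have h1 := h i z hz v
  have h2 : 0 ≤ w i z v (Complex.I • v) := by
    by_cases hv : v = 0
    · rw [hv, smul_zero, map_zero]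
    · exact (hw.pos _ _ hz v hv).le
  have h3 : ∀ r : ℝ, (a + r • w) i z v (Complex.I • v) =
      a i z v (Complex.I • v) + r * w i z v (Complex.I • v) := fun r => rfl
  rw [h3] at h1 ⊢
  have h4 : s * w i z v (Complex.I • v) ≤ t * w i z v (Complex.I • v) :=
    mul_le_mul_of_nonneg_right hst h2
  linarith

omit [T2Space Y] in
private theorem w10_int (hν : B.IsVol μ w ν) {f : Y → ℝ} (hf : Continuous f) : Integrable f ν := by
  have := hν.fin
  exact hf.integrable_of_hasCompactSupport (HasCompactSupport.of_compactSpace f)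

private theorem w10_cont (hw : B.Met w) {a : B.I → H → Bil H} (ha : B.IsT a) (q : ℝ) {F : Y → ℝ} (hF : B.Sm F) (j : ℕ) :
    Continuous fun y => gp q (F y) * B.mden w j a y :=
  ((gp_smooth q).continuous.comp (B.Sm_cont hF)).mul (B.mden_cont hw ha j)

private theorem w10_k [ConnectedSpace Y] (hw : B.Met w) (hν : B.IsVol μ w ν) (hb : B.IsT b) (hc : B.ClT b) (k : ℕ) :
    k + 1 ≤ n → ∀ q : ℝ, 0 ≤ q → (k ≠ 0 → (k : ℝ) < q) → ∀ E0 : ℝ, 0 ≤ E0 → ∃ C : ℝ, 0 ≤ C ∧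
      ∀ (F : Y → ℝ) (ε : ℝ), B.Sm F → (∀ y, F y ≤ 0) → 0 ≤ ε → ε ≤ E0 → B.NnT (b + B.dd F + ε • w) →
        ∫ y, gp q (F y) * B.mden w (n - 1 - k) (b + B.dd F + ε • w) y ∂ν ≤ C := by
  induction k with
  | zero =>
    intro hn q hq _ E0 hE0
    obtain ⟨C, hC, h⟩ := B.base hw hν hb hc (by omega) E0 hE0
    refine ⟨C, hC, fun F ε hF hF0 hε hε1 hnn => le_trans ?_ (h F ε hF hε hε1 hnn)⟩
    have ha : B.IsT (b + B.dd F + ε • w) := B.IsT_add (B.IsT_add hb (B.IsT_dd hF)) (B.IsT_smul hw.t ε)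
    refine integral_mono (B.w10_int hν (B.w10_cont hw ha q hF _)) (B.w10_int hν (B.mden_cont hw ha _)) fun y => ?_
    exact mul_le_of_le_one_left (B.mden_nonneg hw ha hnn _ y) (gp_le_one hq (hF0 y))
  | succ k ih =>
    intro hn q hq hkq E0 hE0
    have hq1 : (k : ℝ) + 1 < q := by
      have h := hkq (Nat.succ_ne_zero k)
      rwa [Nat.cast_succ] at h
    have hk0 : (0 : ℝ) ≤ k := Nat.cast_nonneg k
    obtain ⟨K, hK, hrec⟩ := B.glob_rec hw hν hb hc
    obtain ⟨C1, hC1, h1⟩ := hrec E0 hE0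
    have hKE : 0 ≤ K * E0 := mul_nonneg (by linarith) hE0
    obtain ⟨C2, hC2, h2⟩ := ih (by omega) (q - 1) (by linarith) (fun _ => by linarith) (K * E0) hKE
    have hr : 0 ≤ (q - 1)⁻¹ := inv_nonneg.2 (by linarith)
    refine ⟨C1 * ((1 + (q - 1)⁻¹) * C2), by positivity, fun F ε hF hF0 hε hε1 hnn => ?_⟩
    have h3 := h1 F ε (gp q) (fun t => (q - 1)⁻¹ * gp (q - 1) t) (n - 1 - (k + 1)) hF hF0 hε hε1 hnn
      (gp_Wp (by linarith)) (by omega)
    have hj : n - 1 - (k + 1) + 1 = n - 1 - k := by omega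
    rw [hj] at h3
    refine h3.trans (mul_le_mul_of_nonneg_left ?_ hC1)
    have hKε : ε ≤ K * ε := by nlinarith
    have hnn' : B.NnT (b + B.dd F + (K * ε) • w) := B.w10_nn hw hKε hnn
    have ha : B.IsT (b + B.dd F + (K * ε) • w) :=
      B.IsT_add (B.IsT_add hb (B.IsT_dd hF)) (B.IsT_smul hw.t (K * ε))
    have h4 := h2 F (K * ε) hF hF0 (by nlinarith) (mul_le_mul_of_nonneg_left hε1 (by linarith)) hnn'
    have h5 : ∫ y, (gp q (F y) + (q - 1)⁻¹ * gp (q - 1) (F y)) *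
        B.mden w (n - 1 - k) (b + B.dd F + (K * ε) • w) y ∂ν ≤
        ∫ y, (1 + (q - 1)⁻¹) * (gp (q - 1) (F y) *
          B.mden w (n - 1 - k) (b + B.dd F + (K * ε) • w) y) ∂ν := by
      have hg1 : Continuous fun y => gp q (F y) := (gp_smooth q).continuous.comp (B.Sm_cont hF)
      have hg2 : Continuous fun y => gp (q - 1) (F y) :=
        (gp_smooth (q - 1)).continuous.comp (B.Sm_cont hF)
      refine integral_mono (B.w10_int hν ((hg1.add (continuous_const.mul hg2)).mul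
        (B.mden_cont hw ha _))) (B.w10_int hν (continuous_const.mul
          (B.w10_cont hw ha (q - 1) hF _))) fun y => ?_
      have h6 : gp q (F y) ≤ gp (q - 1) (F y) := gp_anti (by linarith) (hF0 y)
      have h7 := B.mden_nonneg hw ha hnn' (n - 1 - k) y
      have h8 : (gp q (F y) + (q - 1)⁻¹ * gp (q - 1) (F y)) ≤ (1 + (q - 1)⁻¹) * gp (q - 1) (F y) := by
        linarith
      have h9 := mul_le_mul_of_nonneg_right h8 h7
      rw [mul_assoc (1 + (q - 1)⁻¹)] at h9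
      exact h9
    refine h5.trans ?_
    rw [integral_const_mul]
    exact mul_le_mul_of_nonneg_left h4 (by linarith)

theorem mass_w [ConnectedSpace Y] (hw : B.Met w) (hν : B.IsVol μ w ν) (hb : B.IsT b) (hc : B.ClT b) (hn : 2 ≤ n) {p : ℝ}
    (hp : 0 < p) (hpn : (n : ℝ) - 2 < p) : ∃ C : ℝ, 0 ≤ C ∧ ∀ (F : Y → ℝ) (ε : ℝ), B.Sm F → (∀ y, F y ≤ 0) → 0 ≤ ε →
      ε ≤ 1 → B.NnT (b + B.dd F + ε • w) → ∫ y, gp p (F y) * B.dcf w (b + B.dd F + ε • w) w y ∂ν ≤ C := by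
  obtain ⟨C, hC, h⟩ := B.w10_k hw hν hb hc (n - 2) (by omega) p hp.le (fun _ => by
    rw [Nat.cast_sub hn]
    exact_mod_cast hpn) 1 zero_le_one
  refine ⟨C, hC, fun F ε hF hF0 hε hε1 hnn => ?_⟩
  have h1 := h F ε hF hF0 hε hε1 hnn
  have hj : n - 1 - (n - 2) = 1 := by omega
  rw [hj] at h1
  have ha : B.IsT (b + B.dd F + ε • w) := B.IsT_add (B.IsT_add hb (B.IsT_dd hF)) (B.IsT_smul hw.t ε)
  have h2 : (fun y => gp p (F y) * B.dcf w (b + B.dd F + ε • w) w y) =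
      fun y => gp p (F y) * B.mden w 1 (b + B.dd F + ε • w) y := by
    funext y
    rw [B.mden_one hw ha]
  rw [h2]
  exact h1

end BM

end HDG
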