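import Pool.Agent.HDW.W5
import Pool.Agent.HDG.LA1

/-!
# HDW/W11: the modified perturbation

`W11_S x` is the integral of the smooth transition function from `0` to `x + 1`, a smooth convex function with `W11_S x = 0` for
`x ≤ -1` and `x ≤ W11_S x ≤ (x + 1) W11_S' x`. With `σ = 2 a τ`, `Q = P + a τ (qf e - 9)` the function `P'` is `σ W11_S (Q / σ)`
where `qf e < (21/8)²` and `0` elsewhere (both agree for `(5/2)² ≤ qf e`); `ddc_comp_ge` and `ddc_qf` give the inequality.
-/

set_option autoImplicit false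

noncomputable section

open scoped ContDiff

namespace HDG

open Pool.Agent.FBR

variable {H : Type*} [NormedAddCommGroup H] [NormedSpace ℂ H] [FiniteDimensional ℂ H] {n : ℕ}
  (e : Module.Basis (Fin n) ℂ H)

private def W11_S (x : ℝ) : ℝ := ∫ t in (0 : ℝ)..(x + 1), Real.smoothTransition t

private lemma W11_int (a b : ℝ) : IntervalIntegrable Real.smoothTransition MeasureTheory.volume a b :=
  Real.smoothTransition.continuous.intervalIntegrable a b

private lemma W11_d (x : ℝ) : HasDerivAt W11_S (Real.smoothTransition (x + 1)) x := by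
  have h := (Real.smoothTransition.continuous.integral_hasStrictDerivAt 0 (x + 1)).hasDerivAt
  exact h.comp_add_const x 1

private lemma W11_smooth : ContDiff ℝ ∞ W11_S := by
  rw [contDiff_infty_iff_deriv]
  refine ⟨fun x => (W11_d x).differentiableAt, ?_⟩
  have h : deriv W11_S = fun x => Real.smoothTransition (x + 1) := by
    funext x
    exact (W11_d x).deriv
  rw [h]
  exact (Real.smoothTransition.contDiff (n := ⊤)).comp (contDiff_id.add contDiff_const)

private lemma W11_zero {x : ℝ} (h : x ≤ -1) : W11_S x = 0 := by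
  unfold W11_S
  have h1 : ∫ t in (0 : ℝ)..(x + 1), Real.smoothTransition t = ∫ _ in (0 : ℝ)..(x + 1), (0 : ℝ) := by
    refine intervalIntegral.integral_congr fun t ht => ?_
    rw [Set.uIcc_of_ge (by linarith : x + 1 ≤ 0)] at ht
    exact Real.smoothTransition.zero_of_nonpos ht.2
  rw [h1, intervalIntegral.integral_zero]

private lemma W11_nonneg (x : ℝ) : 0 ≤ W11_S x := by
  rcases le_total x (-1) with h | h
  · rw [W11_zero h]
  · exact intervalIntegral.integral_nonneg (by linarith) fun t _ => Real.smoothTransition.nonneg t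

private lemma W11_le {x : ℝ} (h : -1 ≤ x) : W11_S x ≤ (x + 1) * Real.smoothTransition (x + 1) := by
  unfold W11_S
  have h1 : ∫ t in (0 : ℝ)..(x + 1), Real.smoothTransition t ≤
      ∫ _ in (0 : ℝ)..(x + 1), Real.smoothTransition (x + 1) := by
    refine intervalIntegral.integral_mono_on (by linarith) (W11_int _ _) intervalIntegrable_const
      fun t ht => Real.smoothTransition.monotone ht.2
  rw [intervalIntegral.integral_const, smul_eq_mul, sub_zero] at h1
  exact h1

private lemma W11_ge (x : ℝ) : x ≤ W11_S x := by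
  rcases le_total x 0 with h | h
  · exact h.trans (W11_nonneg x)
  · unfold W11_S
    rw [← intervalIntegral.integral_add_adjacent_intervals (W11_int 0 1) (W11_int 1 (x + 1))]
    have h1 : ∫ t in (1 : ℝ)..(x + 1), Real.smoothTransition t = ∫ _ in (1 : ℝ)..(x + 1), (1 : ℝ) := by
      refine intervalIntegral.integral_congr fun t ht => ?_
      rw [Set.uIcc_of_le (by linarith : 1 ≤ x + 1)] at ht
      exact Real.smoothTransition.one_of_one_le ht.1
    rw [h1, intervalIntegral.integral_const, smul_eq_mul, mul_one]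
    have h2 : 0 ≤ ∫ t in (0 : ℝ)..1, Real.smoothTransition t :=
      intervalIntegral.integral_nonneg zero_le_one fun t _ => Real.smoothTransition.nonneg t
    linarith

private lemma W11_gd {σ : ℝ} (hσ : 0 < σ) (x : ℝ) :
    HasDerivAt (fun x => σ * W11_S (x / σ)) (Real.smoothTransition (x / σ + 1)) x := by
  have h1 : HasDerivAt (fun x : ℝ => x / σ) (1 / σ) x := (hasDerivAt_id x).div_const σ
  have h2 := ((W11_d (x / σ)).comp x h1).const_mul σ
  have h3 : σ * (Real.smoothTransition (x / σ + 1) * (1 / σ)) = Real.smoothTransition (x / σ + 1) := by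
    field_simp
  rw [h3] at h2
  exact h2

private lemma W11_gs (σ : ℝ) : ContDiff ℝ ∞ (fun x : ℝ => σ * W11_S (x / σ)) :=
  contDiff_const.mul (W11_smooth.comp (contDiff_id.div_const σ))

private lemma W11_gdd {σ : ℝ} (hσ : 0 < σ) (x : ℝ) :
    0 ≤ deriv (deriv (fun x => σ * W11_S (x / σ))) x := by
  have h : deriv (fun x => σ * W11_S (x / σ)) = fun x => Real.smoothTransition (x / σ + 1) := by
    funext x
    exact (W11_gd hσ x).deriv
  rw [h]
  refine Monotone.deriv_nonneg fun a b hab => Real.smoothTransition.monotone ?_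
  have := div_le_div_of_nonneg_right hab hσ.le
  linarith

omit [FiniteDimensional ℂ H] in
private lemma W11_const (c : ℝ) (z : H) : ddc (fun _ : H => c) z = 0 := by
  ext u v
  rw [ddc_apply]
  have h : fderiv ℝ (fun _ : H => c) = fun _ => 0 := by
    funext x
    exact (hasFDerivAt_const c x).fderiv
  rw [h]
  simp

private lemma W11_ddcQ {P : H → ℝ} (hP : ContDiff ℝ ∞ P) (b k : ℝ) (z : H) :
    ddc (fun z => P z + b * qf e z + k) z = ddc P z + (2 * b) • w0 e := by
  have hP2 : ContDiffAt ℝ 2 P z := hP.contDiffAt.of_le (by norm_cast)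
  have hq2 : ContDiffAt ℝ 2 (qf e) z := (qf_smooth e).contDiffAt.of_le (by norm_cast)
  have hb : ContDiffAt ℝ 2 (fun z => b * qf e z) z := contDiffAt_const.mul hq2
  rw [ddc_add (hP2.add hb) contDiffAt_const, ddc_add hP2 hb, ddc_smul b hq2, W11_const, ddc_qf,
    smul_smul, mul_comm b 2]
  ext u v
  simp only [_root_.add_apply, _root_.zero_apply, add_zero]

theorem exists_mod {P : H → ℝ} {a τ d : ℝ} (hP : ContDiff ℝ ∞ P) (hs : tsupport P ⊆ qb e (5 / 2)) (ha : 0 < a) (ha' : a ≤ 1 / 4)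
    (hτ : 0 < τ) (hd : 0 ≤ d) (hd' : d ≤ τ / 2) (h0 : ∀ z, 0 ≤ P z) (h1 : ∀ z, P z ≤ τ + d) :
    ∃ P' : H → ℝ, ContDiff ℝ ∞ P' ∧ tsupport P' ⊆ qb e (21 / 8) ∧ (∀ z, 0 ≤ P' z) ∧ (∀ z, P' z ≤ 2 * τ) ∧
      (∀ z, P z - 9 * a * τ ≤ P' z) ∧
      ∀ (z : H) (c : Bil H), Nn c → Nn (c + ddc P z + d • w0 e) → Nn (c + ddc P' z + (d - a * P' z) • w0 e) := by
  classical
  obtain ⟨σ, hσ⟩ : ∃ σ, σ = 2 * a * τ := ⟨_, rfl⟩
  have haτ : 0 < a * τ := mul_pos ha hτ
  have hσ0 : 0 < σ := by rw [hσ]; linarith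
  have haτ4 : a * τ ≤ τ / 4 := by
    have := mul_le_mul_of_nonneg_right ha' hτ.le
    linarith
  obtain ⟨Q, hQd⟩ : ∃ Q : H → ℝ, Q = fun z => P z + (a * τ) * qf e z + (-(9 * (a * τ))) := ⟨_, rfl⟩
  have hQ : ∀ z, Q z = P z + (a * τ) * qf e z - 9 * (a * τ) := fun z => by
    rw [hQd]
    ring
  have hQs : ContDiff ℝ ∞ Q := by
    rw [hQd]
    exact (hP.add (contDiff_const.mul (qf_smooth e))).add contDiff_const
  obtain ⟨g, hg⟩ : ∃ g : ℝ → ℝ, g = fun x => σ * W11_S (x / σ) := ⟨_, rfl⟩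
  have hgs : ContDiff ℝ ∞ g := by rw [hg]; exact W11_gs σ
  have hg1 : ∀ x, deriv g x = Real.smoothTransition (x / σ + 1) := fun x => by
    rw [hg]
    exact (W11_gd hσ0 x).deriv
  have hg2 : ∀ x, 0 ≤ deriv (deriv g) x := fun x => by
    rw [hg]
    exact W11_gdd hσ0 x
  have hg0 : ∀ x, 0 ≤ g x := fun x => by
    rw [hg]
    exact mul_nonneg hσ0.le (W11_nonneg _)
  have hgz : ∀ x, x ≤ -σ → g x = 0 := fun x hx => by
    rw [hg]
    show σ * W11_S (x / σ) = 0
    rw [W11_zero, mul_zero]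
    rw [div_le_iff₀ hσ0]
    linarith
  have hgge : ∀ x, x ≤ g x := fun x => by
    rw [hg]
    show x ≤ σ * W11_S (x / σ)
    have h := mul_le_mul_of_nonneg_left (W11_ge (x / σ)) hσ0.le
    rw [mul_div_cancel₀ x hσ0.ne'] at h
    exact h
  have hgle : ∀ x, g x ≤ deriv g x * (x + σ) ∨ (g x = 0 ∧ x < -σ ∧ deriv g x = 0) := fun x => by
    rcases lt_or_ge x (-σ) with hx | hx
    · right
      refine ⟨hgz x hx.le, hx, ?_⟩
      rw [hg1]
      refine Real.smoothTransition.zero_of_nonpos ?_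
      have : x / σ ≤ -1 := by
        rw [div_le_iff₀ hσ0]
        linarith
      linarith
    · left
      have h1 : -1 ≤ x / σ := by
        rw [le_div_iff₀ hσ0]
        linarith
      have h2 := mul_le_mul_of_nonneg_left (W11_le h1) hσ0.le
      have h3 : σ * ((x / σ + 1) * Real.smoothTransition (x / σ + 1)) =
          Real.smoothTransition (x / σ + 1) * (x + σ) := by
        field_simp
      rw [hg1]
      rw [h3] at h2
      rw [hg]
      exact h2
  have hqn : ∀ z : H, 0 ≤ qf e z := qf_nonneg e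
  have hPz : ∀ z, (5 / 2 : ℝ) ^ 2 ≤ qf e z → P z = 0 := fun z hz => by
    refine image_eq_zero_of_notMem_tsupport fun h => ?_
    have h' : qf e z < (5 / 2 : ℝ) ^ 2 := hs h
    linarith
  obtain ⟨R, hR⟩ : ∃ R : H → ℝ, R = fun z => if qf e z < (21 / 8 : ℝ) ^ 2 then g (Q z) else 0 := ⟨_, rfl⟩
  have hRi : ∀ z, qf e z < (21 / 8 : ℝ) ^ 2 → R z = g (Q z) := fun z hz => by
    rw [hR]
    exact if_pos hz
  have hRz : ∀ z, (5 / 2 : ℝ) ^ 2 ≤ qf e z → R z = 0 := fun z hz => by
    by_cases h : qf e z < (21 / 8 : ℝ) ^ 2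
    · rw [hRi z h]
      refine hgz _ ?_
      rw [hQ, hPz z hz, hσ]
      have h7 : qf e z ≤ 7 := by
        norm_num at h
        linarith
      have := mul_le_mul_of_nonneg_left h7 haτ.le
      linarith
    · rw [hR]
      exact if_neg h
  have hevi : ∀ z, qf e z < (21 / 8 : ℝ) ^ 2 → R =ᶠ[nhds z] fun z => g (Q z) := fun z hz => by
    filter_upwards [(isOpen_qb e (21 / 8)).mem_nhds hz] with y hy
    exact hRi y hy
  have hevo : ∀ z, ¬ qf e z < (21 / 8 : ℝ) ^ 2 → R =ᶠ[nhds z] fun _ => 0 := fun z hz => by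
    have ho : IsOpen {y : H | (5 / 2 : ℝ) ^ 2 < qf e y} :=
      isOpen_lt continuous_const (qf_smooth e).continuous
    have hz' : z ∈ {y : H | (5 / 2 : ℝ) ^ 2 < qf e y} := by
      show (5 / 2 : ℝ) ^ 2 < qf e z
      refine lt_of_lt_of_le (by norm_num) (not_lt.1 hz)
    filter_upwards [ho.mem_nhds hz'] with y hy
    exact hRz y (le_of_lt hy)
  -- the values
  have hlam0 : ∀ x, 0 ≤ deriv g x := fun x => by
    rw [hg1]
    exact Real.smoothTransition.nonneg _
  have hlam1 : ∀ x, deriv g x ≤ 1 := fun x => by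
    rw [hg1]
    exact Real.smoothTransition.le_one _
  have hQle : ∀ z, qf e z < (21 / 8 : ℝ) ^ 2 → Q z + σ ≤ 2 * τ := fun z hz => by
    rw [hQ, hσ]
    have h7 : qf e z ≤ 7 := by
      norm_num at hz
      linarith
    have := mul_le_mul_of_nonneg_left h7 haτ.le
    have := h1 z
    linarith
  have hRle : ∀ z, qf e z < (21 / 8 : ℝ) ^ 2 → R z ≤ 2 * τ * deriv g (Q z) := fun z hz => by
    rw [hRi z hz]
    have h4 := hlam0 (Q z)
    rcases hgle (Q z) with h | ⟨h, _, h3⟩
    · have h5 := mul_le_mul_of_nonneg_left (hQle z hz) h4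
      linarith
    · rw [h, h3, mul_zero]
  have hR0 : ∀ z, 0 ≤ R z := fun z => by
    by_cases h : qf e z < (21 / 8 : ℝ) ^ 2
    · rw [hRi z h]
      exact hg0 _
    · rw [hR]
      show 0 ≤ (if qf e z < (21 / 8 : ℝ) ^ 2 then g (Q z) else 0)
      rw [if_neg h]
  refine ⟨R, ?_, ?_, hR0, ?_, ?_, ?_⟩
  · rw [contDiff_iff_contDiffAt]
    intro z
    by_cases h : qf e z < (21 / 8 : ℝ) ^ 2
    · exact (hgs.comp hQs).contDiffAt.congr_of_eventuallyEq (hevi z h)
    · exact contDiffAt_const.congr_of_eventuallyEq (hevo z h)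
  · have h2 : tsupport R ⊆ {z : H | qf e z ≤ (5 / 2 : ℝ) ^ 2} := by
      refine closure_minimal (fun z hz => ?_) (isClosed_le (qf_smooth e).continuous continuous_const)
      by_contra h
      exact hz (hRz z (le_of_lt (not_le.1 h)))
    refine h2.trans fun z hz => ?_
    show qf e z < (21 / 8 : ℝ) ^ 2
    have hz' : qf e z ≤ (5 / 2 : ℝ) ^ 2 := hz
    refine lt_of_le_of_lt hz' (by norm_num)
  · intro z
    by_cases h : qf e z < (21 / 8 : ℝ) ^ 2
    · refine (hRle z h).trans ?_
      have := mul_le_mul_of_nonneg_left (hlam1 (Q z)) (by linarith : 0 ≤ 2 * τ)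
      linarith
    · rw [hR]
      show (if qf e z < (21 / 8 : ℝ) ^ 2 then g (Q z) else 0) ≤ 2 * τ
      rw [if_neg h]
      linarith
  · intro z
    by_cases h : qf e z < (21 / 8 : ℝ) ^ 2
    · rw [hRi z h]
      refine le_trans ?_ (hgge _)
      rw [hQ]
      have := mul_nonneg haτ.le (hqn z)
      linarith
    · have h3 : (5 / 2 : ℝ) ^ 2 ≤ qf e z := le_trans (by norm_num) (not_lt.1 h)
      rw [hPz z h3, hRz z h3]
      have : 0 ≤ 9 * a * τ := by
        have := haτ.le
        linarith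
      linarith
  · intro z c hc hcd v
    have hW : 0 ≤ qf e v := hqn v
    have hC := hc v
    have hcd' := hcd v
    by_cases h : qf e z < (21 / 8 : ℝ) ^ 2
    · have hge := ddc_comp_ge hQs hgs z (hg2 (Q z)) v
      rw [← ddc_congr (hevi z h)] at hge
      have hQz : ddc Q z = ddc P z + (2 * (a * τ)) • w0 e := by
        rw [hQd]
        exact W11_ddcQ e hP (a * τ) (-(9 * (a * τ))) z
      rw [hQz] at hge
      simp only [_root_.add_apply, _root_.sub_apply, _root_.smul_apply, smul_eq_mul, w0_self] at hge hcd' ⊢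
      have hl0 := hlam0 (Q z)
      have hl1 := hlam1 (Q z)
      have hRl := hRle z h
      obtain ⟨l, hl⟩ : ∃ l, l = deriv g (Q z) := ⟨_, rfl⟩
      obtain ⟨D, hD⟩ : ∃ D, D = ddc P z v (Complex.I • v) := ⟨_, rfl⟩
      obtain ⟨D', hD'⟩ : ∃ D', D' = ddc R z v (Complex.I • v) := ⟨_, rfl⟩
      obtain ⟨C, hCC⟩ : ∃ C, C = c v (Complex.I • v) := ⟨_, rfl⟩
      obtain ⟨W, hWW⟩ : ∃ W, W = qf e v := ⟨_, rfl⟩
      obtain ⟨r, hr⟩ : ∃ r, r = R z := ⟨_, rfl⟩
      rw [← hl] at hge hl0 hl1 hRl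
      rw [← hD] at hge hcd'
      rw [← hD'] at hge ⊢
      rw [← hCC] at hC hcd' ⊢
      rw [← hWW] at hge hcd' hW ⊢
      rw [← hr] at hRl ⊢
      have k1 : 0 ≤ l * (C + D + d * W) := mul_nonneg hl0 hcd'
      have k2 : 0 ≤ (1 - l) * C := mul_nonneg (by linarith) hC
      have k3 : 0 ≤ (1 - l) * (d * W) := mul_nonneg (by linarith) (mul_nonneg hd hW)
      have k4 : 0 ≤ a * W * (2 * τ * l - r) := mul_nonneg (mul_nonneg ha.le hW) (by linarith)
      have k5 : C + D' + (d - a * r) * W = l * (C + D + d * W) + (1 - l) * C + (1 - l) * (d * W) +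
          a * W * (2 * τ * l - r) + (D' - l * (D + 2 * (a * τ) * W)) := by ring
      rw [k5]
      linarith
    · rw [ddc_congr (hevo z h), W11_const]
      have h3 : (5 / 2 : ℝ) ^ 2 ≤ qf e z := le_trans (by norm_num) (not_lt.1 h)
      rw [hRz z h3]
      simp only [_root_.add_apply, _root_.smul_apply, smul_eq_mul, w0_self, _root_.zero_apply]
      have := mul_nonneg hd hW
      linarith

end HDG
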