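import Pool.Agent.HDG.GL1

/-!
# HDW/W12a: the limit density, constant obstacle

MODULE W12a. Compare `GL2_limit` in HDG/GL2. The obstacle `ρ = 3 τ` is never touched since `P ≤ τ u ≤ τ`; so on the support of `c1` (where `u = 1`) `tri` gives `m = 0` or `P = τ`, hence
`c1 m ≤ (1/τ) P m` almost everywhere on `qb e 3` (`m ≥ 0` by `ObSol.m_nn`, `P ≥ 0`, `c1 ≤ 1`); integrate (`ObSol.m_bd`).
-/

set_option autoImplicit false
set_option maxSynthPendingDepth 3

noncomputable section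

open scoped ContDiff Topology

open MeasureTheory Filter

namespace HDG

open Pool.Agent.FBR

variable {H : Type*} [NormedAddCommGroup H] [NormedSpace ℂ H] {n : ℕ} (e : Module.Basis (Fin n) ℂ H)
  [FiniteDimensional ℂ H] [MeasurableSpace H] [BorelSpace H] (μ : Measure H) [μ.IsAddHaarMeasure]

theorem limit_w {c1 : H → ℝ} (hc1 : ContDiff ℝ ∞ c1) (h0 : ∀ z, 0 ≤ c1 z) (h1 : ∀ z, c1 z ≤ 1)
    (hcs : tsupport c1 ⊆ {z | qf e z ≤ (3 / 2) ^ 2}) {c : H → Bil H} (hc : ContDiff ℝ ∞ c) (hoo : ∀ z, O11 (c z))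
    {u : H → ℝ} (hu0 : ∀ z, 0 ≤ u z) (hu1 : ∀ z, u z ≤ 1) (hu2 : ∀ z, qf e z ≤ (3 / 2) ^ 2 → u z = 1) {τ : ℝ} (hτ : 0 < τ)
    {P m : H → ℝ} {Pk : ℕ → H → ℝ} {B : ℝ} (hS : ObSol e μ c (fun _ => 3 * τ) u τ P m Pk B) :
    ∫ z in qb e 3, c1 z * m z ∂μ ≤ (1 / τ) * ∫ z in qb e 3, P z * m z ∂μ := by
  have hQm : MeasurableSet (qb e 3 : Set H) := (isOpen_qb e 3).measurableSet
  obtain ⟨_, hmi⟩ := hS.m_bd e μ hc hoo
  have hmn := hS.m_nn e μ hc hoo
  have hPm : IntegrableOn (fun z => P z * m z) (qb e 3) μ := by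
    refine Integrable.bdd_mul (c := τ) hmi hS.cont.aestronglyMeasurable (Filter.Eventually.of_forall fun z => ?_)
    rw [Real.norm_eq_abs, abs_of_nonneg (hS.p0 z)]
    exact (hS.pu z).trans (mul_le_of_le_one_right hτ.le (hu1 z))
  have hcm : IntegrableOn (fun z => c1 z * m z) (qb e 3) μ := by
    refine Integrable.bdd_mul (c := 1) hmi hc1.continuous.aestronglyMeasurable
      (Filter.Eventually.of_forall fun z => ?_)
    rw [Real.norm_eq_abs, abs_of_nonneg (h0 z)]
    exact h1 z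
  have hpt : ∀ᵐ z ∂μ.restrict (qb e 3), c1 z * m z ≤ (1 / τ) * (P z * m z) := by
    refine (ae_restrict_iff' hQm).2 ?_
    filter_upwards [hS.tri, hmn] with z htri hmz hz
    have hm0 := hmz hz
    have hPmz : 0 ≤ (1 / τ) * (P z * m z) := mul_nonneg (by positivity) (mul_nonneg (hS.p0 z) hm0)
    by_cases hcz : c1 z = 0
    · rw [hcz, zero_mul]
      exact hPmz
    · have hqz : qf e z ≤ (3 / 2) ^ 2 := hcs (subset_tsupport c1 hcz)
      have huz := hu2 z hqz
      obtain ⟨_, hcase⟩ := htri hz huz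
      rcases hcase with hm | hP | ⟨hP, _, _⟩
      · rw [hm] at hPmz ⊢
        rw [mul_zero]
        exact hPmz
      · have h5 : (1 / τ) * (P z * m z) = m z := by
          rw [hP]
          field_simp
        rw [h5]
        exact mul_le_of_le_one_left hm0 (h1 z)
      · exfalso
        have h6 := hS.pu z
        rw [huz, mul_one] at h6
        linarith
  have hint := integral_mono_ae hcm (hPm.const_mul (1 / τ)) hpt
  refine hint.trans (le_of_eq ?_)
  exact integral_const_mul _ _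

end HDG
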