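import Pool.Agent.HDW.W4
import Pool.Agent.HDG.GL2
import Pool.Agent.HDW.W12a

/-!
# HDW/W12: the local step

The solution of the obstacle problem with the constant obstacle `3 τ` for the form `c = b + ddc φ + s W + ε w0` (which is not closed).
With `ε3 = (1 + C0) ε + d` the form `b + ddc φ + ddc (Pk k) + ε3 w0` is the sum of `c + ddc (Pk k) + d w0 ≥ 0` and of
`(C0 ε) w0 - s W ≥ 0`, which is at most `t W + (C0 ε) w0` (`W12_convex`). Weak continuity, the perturbation estimate, the bound of the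
masses, `limit_w` and the energy inequality are combined.
-/

set_option autoImplicit false
set_option maxSynthPendingDepth 3

noncomputable section

open scoped ContDiff Topology

open MeasureTheory Filter

namespace HDG

open Pool.Agent.FBR

variable {H : Type*} [NormedAddCommGroup H] [NormedSpace ℂ H] {n : ℕ} (e : Module.Basis (Fin n) ℂ H)
  [FiniteDimensional ℂ H] [MeasurableSpace H] [BorelSpace H] (μ : Measure H) [μ.IsAddHaarMeasure]

section

variable {G : Type*} [NormedAddCommGroup G] [NormedSpace ℝ G]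

private theorem W12_alg1 (a p q w W : Bil G) (s ε d C : ℝ) :
    a + p + q + ((1 + C) * ε + d) • w = (a + p + s • W + ε • w + q + d • w) + ((C * ε) • w - s • W) := by
  module

private theorem W12_alg2 (a p w W : Bil G) (s ε d C : ℝ) :
    a + p + ((1 + C) * ε + d) • w = (a + p + s • W + ε • w) + ((C * ε) • w - s • W) + d • w := by
  module

private theorem W12_alg3 (w W : Bil G) (s ε C : ℝ) :
    (C * ε) • w - s • W = ε • (C • w - W) + (ε - s) • W := by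
  module

private theorem W12_alg4 (w W : Bil G) (s t ε C : ℝ) :
    (t • W + (C * ε) • w) - ((C * ε) • w - s • W) = (t + s) • W := by
  module

private theorem W12_alg5 (a p q w W : Bil G) (s ε C : ℝ) :
    a + p + q + (C + 3) • w - (a + p + s • W + ε • w + q + (2 : ℝ) • w) =
      (C • w - W) + (1 - s) • W + (1 - ε) • w := by
  module

private theorem W12_alg6 (a p q w : Bil G) (C : ℝ) :
    (a + C • w) + (p + q) = a + p + q + C • w := by
  abel

private theorem W12_alg7 (a w : Bil G) (s t : ℝ) : a + t • w - (a + s • w) = (t - s) • w := by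
  module

private theorem W12_alg8 (a w : Bil G) (s : ℝ) : a + (2 : ℝ) • w - (a + s • w + w) = (1 - s) • w := by
  module

private theorem W12_alg9 (a w : Bil G) (s t : ℝ) : a + s • w + t • w = a + (s + t) • w := by
  module

private theorem W12_alg10 (a w : Bil G) (s : ℝ) : a + w = a + s • w + (1 - s) • w := by
  module

private theorem W12_add_sub (a x : Bil G) : a + x - a = x := by
  abel

private theorem W12_norm_add (a s : Bil G) {R t : ℝ} (ha : ‖a‖ ≤ R) (hs : ‖s‖ ≤ t) : ‖a + s‖ ≤ R + t :=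
  (norm_add_le _ _).trans (add_le_add ha hs)

private theorem W12_norm_smul (s : Bil G) {t : ℝ} (ht : 0 ≤ t) : ‖t • s‖ = t * ‖s‖ := by
  rw [norm_smul, Real.norm_of_nonneg ht]

end

private theorem W12_ddc_smooth {f : H → ℝ} (hf : ContDiff ℝ ∞ f) : ContDiff ℝ ∞ (ddc f) :=
  contDiff_iff_contDiffAt.2 fun _ => ddc_smooth hf.contDiffAt

private theorem W12_two {f : H → ℝ} (hf : ContDiff ℝ ∞ f) (z : H) : ContDiffAt ℝ 2 f z :=
  hf.contDiffAt.of_le (WithTop.coe_le_coe.2 (le_top : (2 : ℕ∞) ≤ ⊤))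

private theorem W12_ddc_add {f g : H → ℝ} (hf : ContDiff ℝ ∞ f) (hg : ContDiff ℝ ∞ g) (z : H) :
    ddc (fun z => f z + g z) z = ddc f z + ddc g z :=
  ddc_add (W12_two hf z) (W12_two hg z)

private theorem W12_Nn_add {a b : Bil H} (ha : Nn a) (hb : Nn b) : Nn (a + b) := fun v => by
  have h := add_nonneg (ha v) (hb v)
  exact h

private theorem W12_Nn_smul {a : Bil H} (ha : Nn a) {t : ℝ} (ht : 0 ≤ t) : Nn (t • a) := fun v => by
  have h := mul_nonneg ht (ha v)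
  exact h

private theorem W12_Nn_w : Nn (w0 e : Bil H) := fun v => by
  rw [w0_self]
  exact qf_nonneg e v

private theorem W12_Nn_w0 {t : ℝ} (ht : 0 ≤ t) : Nn (t • (w0 e : Bil H)) := W12_Nn_smul (W12_Nn_w e) ht

private theorem W12_Nn_mono {a : Bil H} {s t : ℝ} (ha : Nn (a + s • w0 e)) (hst : s ≤ t) : Nn (a + t • w0 e) := by
  have h := W12_Nn_add ha (W12_Nn_w0 e (sub_nonneg.2 hst))
  rw [W12_alg9, add_sub_cancel] at h
  exact h

private theorem W12_Nn_one {a : Bil H} {s : ℝ} (ha : Nn (a + s • w0 e)) (hst : s ≤ 1) : Nn (a + w0 e) := by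
  have h := W12_Nn_mono e ha hst
  rwa [one_smul] at h

private theorem W12_qc (r : ℝ) : (qb e r : Set H) ⊆ {z | qf e z ≤ r ^ 2} := fun z hz => by
  have h : qf e z < r ^ 2 := hz
  exact h.le

private theorem W12_cs {f : H → ℝ} {r : ℝ} (hf : tsupport f ⊆ qb e r) : HasCompactSupport f :=
  (isCompact_qb e r).of_isClosed_subset (isClosed_tsupport f) (hf.trans (W12_qc e r))

private theorem W12_int {f g : H → ℝ} (hf : Continuous f) (hc : HasCompactSupport f) (hg : Continuous g) :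
    Integrable (fun z => f z * g z) μ :=
  (hf.mul hg).integrable_of_hasCompactSupport hc.mul_right

private theorem W12_qb {r s : ℝ} (hr : 0 ≤ r) (hrs : r ≤ s) : (qb e r : Set H) ⊆ qb e s := fun z hz => by
  have h1 : qf e z < r ^ 2 := hz
  have h2 : r ^ 2 ≤ s ^ 2 := pow_le_pow_left₀ hr hrs 2
  exact lt_of_lt_of_le h1 h2

private theorem W12_iOn {g : H → ℝ} (hg : Continuous g) (r : ℝ) : IntegrableOn g (qb e r) μ :=
  (hg.continuousOn.integrableOn_compact (isCompact_qb e r)).mono_set (W12_qc e r)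

private theorem W12_off {f : H → ℝ} {r : ℝ} (hs : tsupport f ⊆ qb e r) {z : H} (hz : z ∉ qb e r) : f z = 0 :=
  image_eq_zero_of_notMem_tsupport fun h => hz (hs h)

/-- monotonicity of the integral against `f` -/
private theorem W12_le {r : ℝ} {f : H → ℝ} (hf : Continuous f) (hs : tsupport f ⊆ qb e r) (hf0 : ∀ z, 0 ≤ f z)
    {F G : H → ℝ} (hF : Continuous F) (hG : Continuous G) (h : ∀ z ∈ qb e r, F z ≤ G z) :
    ∫ z, f z * F z ∂μ ≤ ∫ z, f z * G z ∂μ := by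
  have hcf := W12_cs e hs
  refine integral_mono (W12_int μ hf hcf hF) (W12_int μ hf hcf hG) fun z => ?_
  show f z * F z ≤ f z * G z
  by_cases hz : z ∈ qb e r
  · exact mul_le_mul_of_nonneg_left (h z hz) (hf0 z)
  · rw [W12_off e hs hz, zero_mul, zero_mul]

/-- bound of the integral against `f` -/
private theorem W12_bd {r : ℝ} {f : H → ℝ} (hf : Continuous f) (hs : tsupport f ⊆ qb e r) {F0 : ℝ}
    (hf1 : ∀ z, f z ≤ F0) {F : H → ℝ} (hF : Continuous F) (h : ∀ z ∈ qb e r, 0 ≤ F z) :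
    ∫ z, f z * F z ∂μ ≤ F0 * ∫ z in qb e r, F z ∂μ := by
  have hcf := W12_cs e hs
  have h3 : ∫ z, f z * F z ∂μ = ∫ z in qb e r, f z * F z ∂μ := by
    refine (setIntegral_eq_integral_of_forall_compl_eq_zero fun z hz => ?_).symm
    rw [W12_off e hs hz, zero_mul]
  rw [h3, ← integral_const_mul]
  refine setIntegral_mono_on (W12_int μ hf hcf hF).integrableOn ((W12_iOn e μ hF r).const_mul F0)
    (isOpen_qb e r).measurableSet fun z hz => ?_
  exact mul_le_mul_of_nonneg_right (hf1 z) (h z hz)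

/-- the error of the perturbation by `ε w0` -/
private theorem W12_pert {r : ℝ} (hr0 : 0 ≤ r) (hr : r ≤ 3) {a : H → Bil H} (ha : Continuous a)
    (hoo : ∀ z, O11 (a z)) (hn : ∀ z ∈ qb e 3, Nn (a z + w0 e)) {f : H → ℝ} {F0 C ε : ℝ} (hf : Continuous f)
    (hs : tsupport f ⊆ qb e r) (hf0 : ∀ z, 0 ≤ f z) (hf1 : ∀ z, f z ≤ F0) (hε : 0 ≤ ε) (hε1 : ε ≤ 1)
    (hC : ∫ z in qb e r, dt e (a z + (2 : ℝ) • w0 e) ∂μ ≤ C) :
    |∫ z, f z * dt e (a z + ε • w0 e) ∂μ - ∫ z, f z * dt e (a z) ∂μ| ≤ n * ε * (F0 * C) := by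
  have hF0 : 0 ≤ F0 := (hf0 0).trans (hf1 0)
  have hcf := W12_cs e hs
  have hdt := (dt_smooth (H := H) e).continuous
  have ca : ∀ t : ℝ, Continuous fun z => dt e (a z + t • w0 e) := fun t =>
    hdt.comp (ha.add continuous_const)
  have i1 : Integrable (fun z => f z * dt e (a z + ε • w0 e)) μ := W12_int μ hf hcf (ca ε)
  have i0 : Integrable (fun z => f z * dt e (a z)) μ := W12_int μ hf hcf (hdt.comp ha)
  have i2 : Integrable (fun z => f z * dt e (a z + (2 : ℝ) • w0 e)) μ := W12_int μ hf hcf (ca 2)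
  have hsub := W12_qb e hr0 hr
  have hnn : ∀ z ∈ qb e 3, 0 ≤ dt e (a z + (2 : ℝ) • w0 e) := by
    intro z hz
    refine dt_nonneg e (O11_add (hoo z) (O11_smul 2 (w0_O11 e))) ?_
    refine W12_Nn_mono e (s := 1) ?_ (by norm_num)
    rw [one_smul]
    exact hn z hz
  rw [← integral_sub i1 i0]
  have h1 : |∫ z, (f z * dt e (a z + ε • w0 e) - f z * dt e (a z)) ∂μ| ≤
      ∫ z, n * ε * (f z * dt e (a z + (2 : ℝ) • w0 e)) ∂μ := by
    rw [← Real.norm_eq_abs]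
    refine norm_integral_le_of_norm_le (i2.const_mul _) (Filter.Eventually.of_forall fun z => ?_)
    rw [Real.norm_eq_abs, ← mul_sub, abs_mul, abs_of_nonneg (hf0 z)]
    by_cases hz : z ∈ qb e r
    · have h2 := mul_le_mul_of_nonneg_left (pert e (hoo z) (hn z (hsub hz)) hε hε1) (hf0 z)
      refine h2.trans (le_of_eq ?_)
      ring
    · rw [W12_off e hs hz]
      simp
  refine h1.trans ?_
  rw [integral_const_mul]
  refine mul_le_mul_of_nonneg_left ?_ (by positivity)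
  refine (W12_bd e μ hf hs hf1 (ca 2) fun z hz => hnn z (hsub hz)).trans ?_
  exact mul_le_mul_of_nonneg_left hC hF0

/-- monotonicity of the masses -/
private theorem W12_mass {r : ℝ} (hr0 : 0 ≤ r) (hr : r ≤ 3) {a a' : H → Bil H} (ha : Continuous a)
    (ha' : Continuous a') (oa : ∀ z, O11 (a z)) (oa' : ∀ z, O11 (a' z)) (hn : ∀ z ∈ qb e 3, Nn (a z))
    (hn' : ∀ z ∈ qb e 3, Nn (a' z - a z)) :
    ∫ z in qb e r, dt e (a z) ∂μ ≤ ∫ z in qb e r, dt e (a' z) ∂μ := by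
  have hdt := (dt_smooth (H := H) e).continuous
  refine setIntegral_mono_on (W12_iOn e μ (hdt.comp ha) r) (W12_iOn e μ (hdt.comp ha') r)
    (isOpen_qb e r).measurableSet fun z hz => ?_
  have hz3 := W12_qb e hr0 hr hz
  exact dt_mono e (oa z) (oa' z) (hn z hz3) (hn' z hz3)

private theorem W12_ccf {P Q : H → Bil H} (hP : Continuous P) (hQ : Continuous Q) :
    Continuous fun z => cf e (P z) (Q z) := by
  have h1 : Continuous fun p : Bil H × Bil H => cf e p.1 p.2 := (cf_smooth e).continuous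
  have h2 : Continuous fun z => (P z, Q z) := hP.prodMk hQ
  exact Continuous.comp (g := fun p : Bil H × Bil H => cf e p.1 p.2) (f := fun z => (P z, Q z)) h1 h2

/-- the convexity estimate -/
private theorem W12_convex {c1 : H → ℝ} (hc1 : Continuous c1) (h0 : ∀ z, 0 ≤ c1 z) (h1 : ∀ z, c1 z ≤ 1) {r : ℝ}
    (hr0 : 0 ≤ r) (hr : r ≤ 3) (hcs : tsupport c1 ⊆ qb e r) {T N X W : H → Bil H} {t : H → ℝ} {κ γ : ℝ}
    (hT : Continuous T) (hN : Continuous N) (hW : Continuous W) (ht : Continuous t)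
    (oT : ∀ z, O11 (T z)) (oN : ∀ z, O11 (N z)) (oX : ∀ z, O11 (X z)) (oW : ∀ z, O11 (W z))
    (hγ : 0 ≤ γ) (hκ1 : κ ≤ 1)
    (nN : ∀ z ∈ qb e 3, Nn (N z)) (nX : ∀ z ∈ qb e 3, Nn (X z))
    (nX' : ∀ z ∈ qb e 3, Nn ((t z • W z + γ • w0 e) - X z))
    (hTN : ∀ z ∈ qb e 3, T z + κ • w0 e = N z + X z) :
    ∫ z, c1 z * dt e (T z + κ • w0 e) ∂μ ≤ ∫ z, c1 z * dt e (N z) ∂μ +
      (∫ z, c1 z * (t z * cf e (T z + κ • w0 e) (W z)) ∂μ) + γ * ∫ z in qb e r, dt e (T z + (2 : ℝ) • w0 e) ∂μ := by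
  have hdt := (dt_smooth (H := H) e).continuous
  have hcf := W12_cs e hcs
  have cT : ∀ s : ℝ, Continuous fun z => T z + s • w0 e := fun s => hT.add continuous_const
  have cQ : Continuous fun z => t z * cf e (T z + κ • w0 e) (W z) := ht.mul (W12_ccf e (cT κ) hW)
  have cN : Continuous fun z => dt e (N z) := hdt.comp hN
  have c2 : Continuous fun z => dt e (T z + (2 : ℝ) • w0 e) := hdt.comp (cT 2)
  have oTs : ∀ (s : ℝ) z, O11 (T z + s • w0 e) := fun s z => O11_add (oT z) (O11_smul s (w0_O11 e))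
  have nT : ∀ z ∈ qb e 3, Nn (T z + κ • w0 e) := by
    intro z hz
    rw [hTN z hz]
    exact W12_Nn_add (nN z hz) (nX z hz)
  have n2 : ∀ z ∈ qb e 3, 0 ≤ dt e (T z + (2 : ℝ) • w0 e) := fun z hz =>
    dt_nonneg e (oTs 2 z) (W12_Nn_mono e (nT z hz) (by linarith))
  have hpt : ∀ z ∈ qb e 3, dt e (T z + κ • w0 e) ≤
      dt e (N z) + (t z * cf e (T z + κ • w0 e) (W z) + γ * dt e (T z + (2 : ℝ) • w0 e)) := by
    intro z hz
    have k1 := dt_convex e (oN z) (oX z) (nN z hz) (nX z hz)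
    rw [← hTN z hz] at k1
    have k2 := cf_nonneg e (oTs κ z)
      (O11_sub (O11_add (O11_smul (t z) (oW z)) (O11_smul γ (w0_O11 e))) (oX z)) (nT z hz) (nX' z hz)
    rw [cf_sub, cf_add, cf_smul, cf_smul] at k2
    have k3 := cf_w0_le e (oTs κ z) (nT z hz)
    have k4 : dt e (T z + κ • w0 e + w0 e) ≤ dt e (T z + (2 : ℝ) • w0 e) := by
      refine dt_mono e (O11_add (oTs κ z) (w0_O11 e)) (oTs 2 z) (W12_Nn_add (nT z hz) (W12_Nn_w e)) ?_
      rw [W12_alg8]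
      exact W12_Nn_w0 e (by linarith)
    have k5 := mul_le_mul_of_nonneg_left (k3.trans k4) hγ
    linarith
  have cR : Continuous fun z => t z * cf e (T z + κ • w0 e) (W z) + γ * dt e (T z + (2 : ℝ) • w0 e) :=
    cQ.add (continuous_const.mul c2)
  have hsub := W12_qb e hr0 hr
  have k6 := W12_le e μ hc1 hcs h0 (hdt.comp (cT κ)) (cN.add cR) fun z hz => hpt z (hsub hz)
  refine k6.trans ?_
  have i1 := W12_int μ hc1 hcf cN
  have i2 := W12_int μ hc1 hcf cQ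
  have i3 := W12_int μ hc1 hcf c2
  have k7 : ∫ z, c1 z * (dt e (N z) + (t z * cf e (T z + κ • w0 e) (W z) + γ * dt e (T z + (2 : ℝ) • w0 e))) ∂μ =
      ∫ z, c1 z * dt e (N z) ∂μ + (∫ z, c1 z * (t z * cf e (T z + κ • w0 e) (W z)) ∂μ) +
        γ * ∫ z, c1 z * dt e (T z + (2 : ℝ) • w0 e) ∂μ := by
    have i12 : Integrable (fun z => c1 z * dt e (N z) + c1 z * (t z * cf e (T z + κ • w0 e) (W z))) μ :=
      i1.add i2
    rw [← integral_const_mul, ← integral_add i1 i2, ← integral_add i12 (i3.const_mul γ)]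
    refine integral_congr_ae (Filter.Eventually.of_forall fun z => ?_)
    show c1 z * (dt e (N z) + (t z * cf e (T z + κ • w0 e) (W z) + γ * dt e (T z + (2 : ℝ) • w0 e))) =
      c1 z * dt e (N z) + c1 z * (t z * cf e (T z + κ • w0 e) (W z)) + γ * (c1 z * dt e (T z + (2 : ℝ) • w0 e))
    ring
  have k8 := W12_bd e μ hc1 hcs h1 c2 fun z hz => n2 z (hsub hz)
  rw [one_mul] at k8
  have k9 := mul_le_mul_of_nonneg_left k8 hγ
  have k10 : ∫ z, c1 z * ((fun z => dt e (N z)) + fun z => t z * cf e (T z + κ • w0 e) (W z) +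
      γ * dt e (T z + (2 : ℝ) • w0 e)) z ∂μ =
      ∫ z, c1 z * (dt e (N z) + (t z * cf e (T z + κ • w0 e) (W z) + γ * dt e (T z + (2 : ℝ) • w0 e))) ∂μ := rfl
  linarith

theorem loc_step_w (A : ℝ) {C0 : ℝ} (hC0 : 0 ≤ C0) {c1 : H → ℝ} (hc1 : ContDiff ℝ ∞ c1) (h0 : ∀ z, 0 ≤ c1 z) (h1 : ∀ z, c1 z ≤ 1)
    (hcs : tsupport c1 ⊆ {z | qf e z ≤ (3 / 2) ^ 2}) : ∃ C : ℝ, 0 ≤ C ∧
    ∀ (b W : H → Bil H) (φ s t : H → ℝ) (τ ε : ℝ), Fld b (qb e 3) → (∀ z ∈ qb e 3, ‖b z‖ ≤ A) →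
      ContDiff ℝ ∞ φ → (∀ z ∈ qb e 3, |φ z| ≤ A) → ContDiff ℝ ∞ W → (∀ z, O11 (W z)) → (∀ z ∈ qb e 3, Nn (W z)) →
      (∀ z ∈ qb e 3, Nn (C0 • w0 e - W z)) → ContDiff ℝ ∞ s → (∀ z ∈ qb e 3, |s z| ≤ 1) → Continuous t → (∀ z ∈ qb e 3, 0 ≤ t z) →
      (∀ z ∈ qb e 3, -t z ≤ s z) → 0 < τ → τ ≤ 1 → 0 < ε → ε * (1 + C0) ≤ 1 / 2 → (∀ z ∈ qb e 3, s z ≤ ε) →
      (∀ z ∈ qb e 3, Nn (b z + ddc φ z + s z • W z + ε • w0 e)) →
      ∃ Pk : ℕ → H → ℝ, (∀ k, ContDiff ℝ ∞ (Pk k)) ∧ (∀ k, tsupport (Pk k) ⊆ qb e (5 / 2)) ∧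
        ∀ δ : ℝ, 0 < δ → ∀ᶠ k in atTop, (∀ z, 0 ≤ Pk k z ∧ Pk k z ≤ τ + δ) ∧
          (∀ z ∈ qb e 3, Nn (b z + ddc φ z + s z • W z + ε • w0 e + ddc (Pk k) z + δ • w0 e)) ∧
          ∫ z, c1 z * dt e (b z + ddc φ z) ∂μ ≤
            (1 / τ) * (∫ r in (0 : ℝ)..1, ∫ z, Pk k z * dt e (b z + ddc φ z + r • ddc (Pk k) z) ∂μ) +
            (∫ z, c1 z * (t z * cf e (b z + ddc φ z + ddc (Pk k) z + ((1 + C0) * ε + δ) • w0 e) (W z)) ∂μ) +
            C * (τ + ε + ε / τ) + δ := by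
  classical
  have hs52 : {z : H | qf e z ≤ (3 / 2) ^ 2} ⊆ qb e (5 / 2) := by
    intro z hz
    have hz' : qf e z ≤ (3 / 2) ^ 2 := hz
    show qf e z < (5 / 2 : ℝ) ^ 2
    norm_num at hz' ⊢
    linarith
  have hc1s : tsupport c1 ⊆ qb e (5 / 2) := hcs.trans hs52
  obtain ⟨u, hu, hu0, hu1, hu2, hu3⟩ := exists_cut' (H := H) e (s := 3 / 2) (t := 7 / 4) (by norm_num) (by norm_num)
  have hus : tsupport u ⊆ qb e 2 := by
    have h2 : tsupport u ⊆ {z : H | qf e z ≤ (7 / 4 : ℝ) ^ 2} := by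
      refine closure_minimal ?_ (isCompact_qb e (7 / 4)).isClosed
      intro z hz
      by_contra hz'
      exact hz (hu3 z (le_of_lt (not_le.1 hz')))
    refine h2.trans fun z hz => ?_
    have hz' : qf e z ≤ (7 / 4 : ℝ) ^ 2 := hz
    show qf e z < (2 : ℝ) ^ 2
    norm_num at hz' ⊢
    linarith
  obtain ⟨C1, hC1, k1⟩ := weak_cont e μ (r := 5 / 2) (R := 3) (by norm_num) (by norm_num) (|A| + 2) A hc1 hc1s
  obtain ⟨C2, hC2, k2⟩ := mass_bound e μ (r := 5 / 2) (R := 3) (by norm_num) (by norm_num) (|A| + 2)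
    (A + (C0 + 3) * ‖(w0 e : Bil H)‖)
  obtain ⟨C5, hC5, k5⟩ := energy e μ (r := 5 / 2) (R := 3) (by norm_num) (by norm_num) (|A| + 2) A
  have hN0 : (0 : ℝ) ≤ n := Nat.cast_nonneg n
  refine ⟨C1 + (1 + C0) * (C1 + n * C2) + C0 * C2 + (C5 + 2 * (n * C2)) * (1 + C0), by positivity, ?_⟩
  intro b W φ s t τ ε hb hbA hφ hφA hW oW nW nW' hs hs1 ht ht0 hts hτ hτ1 hε hε1 hsε hnn
  have hcc : ContDiff ℝ ∞ fun z => b z + ddc φ z + s z • W z + ε • w0 e :=
    ((hb.sm.add (W12_ddc_smooth hφ)).add (hs.smul hW)).add contDiff_const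
  have hoo0 : ∀ z, O11 (b z + ddc φ z) := fun z => O11_add (hb.oo z) (O11_ddc (W12_two hφ z))
  have hoo : ∀ z, O11 (b z + ddc φ z + s z • W z + ε • w0 e) := fun z =>
    O11_add (O11_add (hoo0 z) (O11_smul (s z) (oW z))) (O11_smul ε (w0_O11 e))
  obtain ⟨P, m, Pk, B, hS⟩ := obstacle e μ (c := fun z => b z + ddc φ z + s z • W z + ε • w0 e)
    (ρ := fun _ => 3 * τ) (u := u) (τ := τ) hcc hoo hnn contDiff_const (fun z _ => by positivity) hu hu0 hu1 hus hτ
  refine ⟨Pk, hS.smk, hS.supk, fun δ hδ => ?_⟩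
  have hlim := limit_w e μ hc1 h0 h1 hcs hcc hoo hu0 hu1 hu2 hτ hS
  -- the small number
  set K : ℝ := 2 * C1 + 2 * (n * C2) + 1 + (1 + C5 + 4 * (n * C2)) / τ with hK
  have hnC : 0 ≤ n * C2 := mul_nonneg hN0 hC2
  have hKd : 0 ≤ (1 + C5 + 4 * (n * C2)) / τ := by positivity
  have hK1 : 1 ≤ K := by rw [hK]; linarith
  set d : ℝ := min (δ / K) (1 / 2) with hd
  have hd0 : 0 < d := lt_min (div_pos hδ (by linarith)) (by norm_num)
  have hd2 : d ≤ 1 / 2 := min_le_right _ _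
  have hdK : d * K ≤ δ := by
    have h2 : d ≤ δ / K := min_le_left _ _
    rwa [le_div_iff₀ (by linarith)] at h2
  have hdδ : d ≤ δ := by nlinarith
  have t1 := (hS.tend e μ hcc hoo hc1.continuous (hc1s.trans (W12_qb e (by norm_num) (by norm_num)))).eventually
    (gt_mem_nhds (lt_add_of_pos_right _ hd0))
  have t2 := (hS.tendP e μ hcc hoo hu1 hτ).eventually (lt_mem_nhds (sub_lt_self _ hd0))
  filter_upwards [hS.lim d hd0, hS.nn d hd0, t1, t2] with k q1 q2 q3 q4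
  have p0 : ∀ z, 0 ≤ Pk k z := hS.pk0 k
  have pτ : ∀ z, Pk k z ≤ τ + d := fun z => by
    have h2 := (hS.pu z).trans (mul_le_of_le_one_right hτ.le (hu1 z))
    have h3 := (abs_le.1 (q1 z)).2
    linarith
  have hn1 : ∀ z ∈ qb e 3, Nn (b z + ddc φ z + s z • W z + ε • w0 e + ddc (Pk k) z + d • w0 e) := q2
  refine ⟨fun z => ⟨p0 z, (pτ z).trans (by linarith)⟩, fun z hz => W12_Nn_mono e (hn1 z hz) hdδ, ?_⟩
  -- the last assertion
  have hPk := hS.smk k
  have hsum : ContDiff ℝ ∞ fun z => φ z + Pk k z := hφ.add hPk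
  have hdd : ∀ z, ddc (fun z => φ z + Pk k z) z = ddc φ z + ddc (Pk k) z := W12_ddc_add hφ hPk
  have hφA' : ∀ z ∈ qb e 3, |φ z| ≤ |A| + 2 := fun z hz => by
    have h2 := hφA z hz
    have h3 := le_abs_self A
    linarith
  have hφPA : ∀ z ∈ qb e 3, |φ z + Pk k z| ≤ |A| + 2 := fun z hz => by
    have h2 := hφA z hz
    have h3 := le_abs_self A
    have h4 := abs_add_le (φ z) (Pk k z)
    rw [abs_of_nonneg (p0 z)] at h4
    linarith [pτ z]
  have hε3 : (1 + C0) * ε + d ≤ 1 := by linarith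
  have hε30 : 0 ≤ (1 + C0) * ε + d := by positivity
  -- the form `X`
  have oX : ∀ z, O11 ((C0 * ε) • w0 e - s z • W z) := fun z =>
    O11_sub (O11_smul _ (w0_O11 e)) (O11_smul _ (oW z))
  have nX : ∀ z ∈ qb e 3, Nn ((C0 * ε) • w0 e - s z • W z) := by
    intro z hz
    rw [W12_alg3]
    exact W12_Nn_add (W12_Nn_smul (nW' z hz) hε.le) (W12_Nn_smul (nW z hz) (sub_nonneg.2 (hsε z hz)))
  have nX' : ∀ z ∈ qb e 3, Nn ((t z • W z + (C0 * ε) • w0 e) - ((C0 * ε) • w0 e - s z • W z)) := by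
    intro z hz
    rw [W12_alg4]
    exact W12_Nn_smul (nW z hz) (by linarith [hts z hz])
  have hTN : ∀ z ∈ qb e 3, b z + ddc φ z + ddc (Pk k) z + ((1 + C0) * ε + d) • w0 e =
      (b z + ddc φ z + s z • W z + ε • w0 e + ddc (Pk k) z + d • w0 e) + ((C0 * ε) • w0 e - s z • W z) :=
    fun z _ => W12_alg1 _ _ _ _ _ _ _ _ _
  have nT3 : ∀ z ∈ qb e 3, Nn (b z + ddc φ z + ddc (Pk k) z + ((1 + C0) * ε + d) • w0 e) := by
    intro z hz
    rw [hTN z hz]
    exact W12_Nn_add (hn1 z hz) (nX z hz)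
  have n03 : ∀ z ∈ qb e 3, Nn (b z + ddc φ z + ((1 + C0) * ε + d) • w0 e) := by
    intro z hz
    rw [W12_alg2 (b z) (ddc φ z) (w0 e) (W z) (s z) ε d C0]
    exact W12_Nn_add (W12_Nn_add (hnn z hz) (nX z hz)) (W12_Nn_w0 e hd0.le)
  -- continuity
  have oT : ∀ z, O11 (b z + ddc φ z + ddc (Pk k) z) := fun z =>
    O11_add (hoo0 z) (O11_ddc (W12_two hPk z))
  have oN : ∀ z, O11 (b z + ddc φ z + s z • W z + ε • w0 e + ddc (Pk k) z) := fun z =>
    O11_add (hoo z) (O11_ddc (W12_two hPk z))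
  have hca0 : Continuous fun z => b z + ddc φ z := hb.sm.continuous.add (W12_ddc_smooth hφ).continuous
  have hcT : Continuous fun z => b z + ddc φ z + ddc (Pk k) z := hca0.add (W12_ddc_smooth hPk).continuous
  have hcN : Continuous fun z => b z + ddc φ z + s z • W z + ε • w0 e + ddc (Pk k) z :=
    hcc.continuous.add (W12_ddc_smooth hPk).continuous
  have cTs : ∀ r : ℝ, Continuous fun z => b z + ddc φ z + ddc (Pk k) z + r • w0 e := fun r =>
    hcT.add continuous_const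
  have cNs : ∀ r : ℝ, Continuous fun z => b z + ddc φ z + s z • W z + ε • w0 e + ddc (Pk k) z + r • w0 e := fun r =>
    hcN.add continuous_const
  have hdt := (dt_smooth (H := H) e).continuous
  have nT1 : ∀ z ∈ qb e 3, Nn (b z + ddc φ z + ddc (Pk k) z + w0 e) := fun z hz => W12_Nn_one e (nT3 z hz) hε3
  have nN1 : ∀ z ∈ qb e 3, Nn (b z + ddc φ z + s z • W z + ε • w0 e + ddc (Pk k) z + w0 e) := fun z hz =>
    W12_Nn_one e (hn1 z hz) (by linarith)
  have nT2 : ∀ z ∈ qb e 3, Nn (b z + ddc φ z + ddc (Pk k) z + (2 : ℝ) • w0 e) := fun z hz =>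
    W12_Nn_mono e (nT3 z hz) (by linarith)
  have nN2 : ∀ z ∈ qb e 3, Nn (b z + ddc φ z + s z • W z + ε • w0 e + ddc (Pk k) z + (2 : ℝ) • w0 e) :=
    fun z hz => W12_Nn_mono e (hn1 z hz) (by linarith)
  -- the masses
  have hmass : ∫ z in qb e (5 / 2), dt e (b z + ddc φ z + ddc (Pk k) z + (C0 + 3) • w0 e) ∂μ ≤ C2 := by
    have h2 := k2 (fun z => b z + (C0 + 3) • w0 e) (fun z => φ z + Pk k z) (hb.add_w0 e (C0 + 3)) (fun z hz => by
      have h3 := W12_norm_add (b z) ((C0 + 3) • w0 e) (hbA z hz)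
        (W12_norm_smul (w0 e : Bil H) (show (0 : ℝ) ≤ C0 + 3 by linarith)).le
      exact h3) hsum (fun z hz => by
      rw [hdd, W12_alg6]
      exact W12_Nn_mono e (nT3 z hz) (by linarith)) hφPA
    refine le_trans (le_of_eq ?_) h2
    refine integral_congr_ae (Filter.Eventually.of_forall fun z => ?_)
    show dt e (b z + ddc φ z + ddc (Pk k) z + (C0 + 3) • w0 e) =
      dt e (b z + (C0 + 3) • w0 e + ddc (fun z => φ z + Pk k z) z)
    rw [hdd, W12_alg6]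
  have hmT : ∫ z in qb e (5 / 2), dt e (b z + ddc φ z + ddc (Pk k) z + (2 : ℝ) • w0 e) ∂μ ≤ C2 := by
    refine (W12_mass e μ (by norm_num) (by norm_num) (cTs 2) (cTs (C0 + 3))
      (fun z => O11_add (oT z) (O11_smul _ (w0_O11 e))) (fun z => O11_add (oT z) (O11_smul _ (w0_O11 e))) nT2
      fun z _ => ?_).trans hmass
    rw [W12_alg7]
    exact W12_Nn_w0 e (by linarith)
  have hmN : ∫ z in qb e (5 / 2), dt e (b z + ddc φ z + s z • W z + ε • w0 e + ddc (Pk k) z + (2 : ℝ) • w0 e) ∂μ ≤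
      C2 := by
    refine (W12_mass e μ (by norm_num) (by norm_num) (cNs 2) (cTs (C0 + 3))
      (fun z => O11_add (oN z) (O11_smul _ (w0_O11 e))) (fun z => O11_add (oT z) (O11_smul _ (w0_O11 e))) nN2
      fun z hz => ?_).trans hmass
    rw [W12_alg5]
    refine W12_Nn_add (W12_Nn_add (nW' z hz) (W12_Nn_smul (nW z hz) ?_)) (W12_Nn_w0 e ?_)
    · have h2 := (abs_le.1 (hs1 z hz)).2
      linarith
    · have h2 : 0 ≤ ε * C0 := by positivity
      nlinarith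
  -- (1)
  have s1 := k1 b φ (fun z => φ z + Pk k z) ((1 + C0) * ε + d) (τ + d) hb hbA hφ hsum hε30 hε3
    n03 (fun z hz => by
      rw [hdd, ← add_assoc]
      exact nT3 z hz) hφA' hφPA (fun z _ => by
      rw [add_sub_cancel_left, abs_of_nonneg (p0 z)]
      exact pτ z)
  have i0 : Integrable (fun z => c1 z * dt e (b z + ddc φ z)) μ :=
    W12_int μ hc1.continuous (W12_cs e hc1s) (hdt.comp hca0)
  have ia : Integrable (fun z => c1 z * dt e (b z + ddc φ z + ddc (Pk k) z)) μ :=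
    W12_int μ hc1.continuous (W12_cs e hc1s) (hdt.comp hcT)
  have s1' : ∫ z, c1 z * dt e (b z + ddc φ z) ∂μ ≤
      ∫ z, c1 z * dt e (b z + ddc φ z + ddc (Pk k) z) ∂μ + C1 * (τ + d + ((1 + C0) * ε + d)) := by
    have h2 : ∫ z, c1 z * (dt e (b z + ddc (fun z => φ z + Pk k z) z) - dt e (b z + ddc φ z)) ∂μ =
        ∫ z, c1 z * dt e (b z + ddc φ z + ddc (Pk k) z) ∂μ - ∫ z, c1 z * dt e (b z + ddc φ z) ∂μ := by
      rw [← integral_sub ia i0]
      refine integral_congr_ae (Filter.Eventually.of_forall fun z => ?_)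
      show c1 z * (dt e (b z + ddc (fun z => φ z + Pk k z) z) - dt e (b z + ddc φ z)) =
        c1 z * dt e (b z + ddc φ z + ddc (Pk k) z) - c1 z * dt e (b z + ddc φ z)
      rw [hdd, ← add_assoc, mul_sub]
    rw [h2] at s1
    have h3 := (abs_le.1 s1).1
    linarith
  have s2 := W12_pert e μ (by norm_num) (by norm_num) hcT oT nT1 (F0 := 1) (ε := (1 + C0) * ε + d) hc1.continuous
    hc1s h0 h1 hε30 hε3 hmT
  -- (2)
  have s3 := W12_convex e μ (T := fun z => b z + ddc φ z + ddc (Pk k) z)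
    (N := fun z => b z + ddc φ z + s z • W z + ε • w0 e + ddc (Pk k) z + d • w0 e)
    (X := fun z => (C0 * ε) • w0 e - s z • W z) (W := W) (t := t) (κ := (1 + C0) * ε + d) (γ := C0 * ε)
    hc1.continuous h0 h1 (by norm_num) (by norm_num) hc1s hcT (cNs d) hW.continuous ht oT
    (fun z => O11_add (oN z) (O11_smul d (w0_O11 e))) oX oW (by positivity) hε3 hn1 nX nX' hTN
  -- (3)
  have s4 := W12_pert e μ (by norm_num) (by norm_num) hcN oN nN1 (F0 := 1) (ε := d) hc1.continuous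
    hc1s h0 h1 hd0.le (by linarith) hmN
  -- (5)
  have s5 := W12_pert e μ (by norm_num) (by norm_num) hcN oN nN1 (F0 := 2) (ε := d) hPk.continuous (hS.supk k)
    p0 (fun z => (pτ z).trans (by linarith)) hd0.le (by linarith) hmN
  have s6 : ∫ z, Pk k z * dt e (b z + ddc φ z + s z • W z + ε • w0 e + ddc (Pk k) z + d • w0 e) ∂μ ≤
      ∫ z, Pk k z * dt e (b z + ddc φ z + ddc (Pk k) z + ((1 + C0) * ε + d) • w0 e) ∂μ := by
    refine W12_le e μ hPk.continuous (hS.supk k) p0 (hdt.comp (cNs d)) (hdt.comp (cTs ((1 + C0) * ε + d)))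
      fun z hz => ?_
    have hz3 : z ∈ qb e 3 := W12_qb e (by norm_num) (by norm_num) hz
    show dt e (b z + ddc φ z + s z • W z + ε • w0 e + ddc (Pk k) z + d • w0 e) ≤
      dt e (b z + ddc φ z + ddc (Pk k) z + ((1 + C0) * ε + d) • w0 e)
    refine dt_mono e (O11_add (oN z) (O11_smul d (w0_O11 e))) (O11_add (oT z) (O11_smul _ (w0_O11 e)))
      (hn1 z hz3) ?_
    rw [hTN z hz3, W12_add_sub]
    exact nX z hz3
  have s7 := W12_pert e μ (by norm_num) (by norm_num) hcT oT nT1 (F0 := 2) (ε := (1 + C0) * ε + d) hPk.continuous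
    (hS.supk k) p0 (fun z => (pτ z).trans (by linarith)) hε30 hε3 hmT
  have s8 := k5 b φ (Pk k) ((1 + C0) * ε + d) hb hbA hφ hPk (hS.supk k) hε30 hε3 n03 nT3 hφA' p0 (fun z => by
      have h2 := abs_nonneg A
      linarith [pτ z])
  -- the conclusion
  have s9 : ∫ z, c1 z * (t z * cf e (b z + ddc φ z + ddc (Pk k) z + ((1 + C0) * ε + d) • w0 e) (W z)) ∂μ ≤
      ∫ z, c1 z * (t z * cf e (b z + ddc φ z + ddc (Pk k) z + ((1 + C0) * ε + δ) • w0 e) (W z)) ∂μ := by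
    refine W12_le e μ hc1.continuous hc1s h0 (ht.mul (W12_ccf e (cTs _) hW.continuous))
      (ht.mul (W12_ccf e (cTs _) hW.continuous)) fun z hz => ?_
    have hz3 : z ∈ qb e 3 := W12_qb e (by norm_num) (by norm_num) hz
    refine mul_le_mul_of_nonneg_left ?_ (ht0 z hz3)
    refine cf_mono e (O11_add (oT z) (O11_smul _ (w0_O11 e))) (O11_add (oT z) (O11_smul _ (w0_O11 e))) (oW z) (oW z)
      (nT3 z hz3) ?_ (nW z hz3) ?_
    · rw [W12_alg7]
      exact W12_Nn_w0 e (by linarith)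
    · intro v
      rw [sub_self]
      exact le_rfl
  set X0 := ∫ z, c1 z * dt e (b z + ddc φ z) ∂μ
  set X1 := ∫ z, c1 z * dt e (b z + ddc φ z + ddc (Pk k) z) ∂μ
  set X2 := ∫ z, c1 z * dt e (b z + ddc φ z + ddc (Pk k) z + ((1 + C0) * ε + d) • w0 e) ∂μ
  set X3 := ∫ z, c1 z * dt e (b z + ddc φ z + s z • W z + ε • w0 e + ddc (Pk k) z + d • w0 e) ∂μ
  set X4 := ∫ z, c1 z * dt e (b z + ddc φ z + s z • W z + ε • w0 e + ddc (Pk k) z) ∂μ
  set Q0 := ∫ z, c1 z * (t z * cf e (b z + ddc φ z + ddc (Pk k) z + ((1 + C0) * ε + d) • w0 e) (W z)) ∂μ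
  set Q1 := ∫ z, c1 z * (t z * cf e (b z + ddc φ z + ddc (Pk k) z + ((1 + C0) * ε + δ) • w0 e) (W z)) ∂μ
  set Y1 := ∫ z, Pk k z * dt e (b z + ddc φ z + ddc (Pk k) z) ∂μ
  set Y2 := ∫ z, Pk k z * dt e (b z + ddc φ z + ddc (Pk k) z + ((1 + C0) * ε + d) • w0 e) ∂μ
  set Y3 := ∫ z, Pk k z * dt e (b z + ddc φ z + s z • W z + ε • w0 e + ddc (Pk k) z + d • w0 e) ∂μ
  set Y4 := ∫ z, Pk k z * dt e (b z + ddc φ z + s z • W z + ε • w0 e + ddc (Pk k) z) ∂μ
  set M2 := ∫ z in qb e (5 / 2), dt e (b z + ddc φ z + ddc (Pk k) z + (2 : ℝ) • w0 e) ∂μ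
  set L1 := ∫ z in qb e 3, c1 z * m z ∂μ
  set L2 := ∫ z in qb e 3, P z * m z ∂μ
  set E := ∫ r in (0 : ℝ)..1, ∫ z, Pk k z * dt e (b z + ddc φ z + r • ddc (Pk k) z) ∂μ
  have r2 := (abs_le.1 s2).1
  have r4 := (abs_le.1 s4).2
  have r5 := (abs_le.1 s5).1
  have r7 := (abs_le.1 s7).2
  have r3 : C0 * ε * M2 ≤ C0 * ε * C2 := mul_le_mul_of_nonneg_left hmT (by positivity)
  have f1 : L2 ≤ E + ((C5 + 2 * (n * C2)) * (1 + C0)) * ε + (1 + C5 + 4 * (n * C2)) * d := by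
    have h2 : (n : ℝ) * d * (2 * C2) = 2 * (n * C2) * d := by ring
    have h3 : (n : ℝ) * ((1 + C0) * ε + d) * (2 * C2) = 2 * (n * C2) * (1 + C0) * ε + 2 * (n * C2) * d := by ring
    have h4 : C5 * ((1 + C0) * ε + d) = C5 * (1 + C0) * ε + C5 * d := by ring
    have h5 : ((C5 + 2 * (n * C2)) * (1 + C0)) * ε + (1 + C5 + 4 * (n * C2)) * d =
      (C5 * (1 + C0) * ε + C5 * d) + (2 * (n * C2) * (1 + C0) * ε + 2 * (n * C2) * d) + 2 * (n * C2) * d + d := by
      ring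
    linarith
  have f2 : (1 / τ) * L2 ≤ (1 / τ) * E + ((C5 + 2 * (n * C2)) * (1 + C0)) * (ε / τ) +
      d * ((1 + C5 + 4 * (n * C2)) / τ) := by
    have h2 := mul_le_mul_of_nonneg_left f1 (by positivity : 0 ≤ 1 / τ)
    refine h2.trans (le_of_eq ?_)
    field_simp
  have f3 : X0 ≤ (1 / τ) * L2 + Q1 + C1 * τ + ((1 + C0) * (C1 + n * C2) + C0 * C2) * ε +
      (2 * C1 + 2 * (n * C2) + 1) * d := by
    have h2 : C1 * (τ + d + ((1 + C0) * ε + d)) = C1 * τ + 2 * C1 * d + C1 * (1 + C0) * ε := by ring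
    have h3 : (n : ℝ) * ((1 + C0) * ε + d) * (1 * C2) = n * C2 * (1 + C0) * ε + n * C2 * d := by ring
    have h4 : (n : ℝ) * d * (1 * C2) = n * C2 * d := by ring
    have h5 : ((1 + C0) * (C1 + n * C2) + C0 * C2) * ε + (2 * C1 + 2 * (n * C2) + 1) * d =
      C1 * (1 + C0) * ε + n * C2 * (1 + C0) * ε + C0 * ε * C2 + 2 * C1 * d + n * C2 * d + n * C2 * d + d := by
      ring
    linarith
  have hετ : 0 ≤ ε / τ := by positivity
  have g1 : 0 ≤ C1 * (ε + ε / τ) := by positivity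
  have g2 : 0 ≤ ((1 + C0) * (C1 + n * C2) + C0 * C2) * (τ + ε / τ) := by positivity
  have g3 : 0 ≤ ((C5 + 2 * (n * C2)) * (1 + C0)) * (τ + ε) := by positivity
  have f4 : d * K = (2 * C1 + 2 * (n * C2) + 1) * d + d * ((1 + C5 + 4 * (n * C2)) / τ) := by
    rw [hK]
    ring
  have f5 : (C1 + (1 + C0) * (C1 + n * C2) + C0 * C2 + (C5 + 2 * (n * C2)) * (1 + C0)) * (τ + ε + ε / τ) =
      (C1 * τ + C1 * (ε + ε / τ)) +
      (((1 + C0) * (C1 + n * C2) + C0 * C2) * ε + ((1 + C0) * (C1 + n * C2) + C0 * C2) * (τ + ε / τ)) +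
      (((C5 + 2 * (n * C2)) * (1 + C0)) * (ε / τ) + ((C5 + 2 * (n * C2)) * (1 + C0)) * (τ + ε)) := by ring
  rw [f5]
  linarith

end HDG
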