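import Pool.Agent.HDW.W4
import Pool.Agent.HDG.G9

/-!
# HDW/W13: perturbation of the mass

`glob_pert`: partition of unity; in a ball the form `w` is compared with `C0 w0`, the differences of the determinants are at most a
multiple of `ε dt (a + 2 w0)` (`W13_pt`), whose integral is bounded (`mass_bound`). `glob_E`: the energy difference `En_diff` for
forms which are only `≥ - ε w`, by `glob_pert` and `mass_dd`.
-/

set_option autoImplicit false

noncomputable section

open scoped ContDiff Topology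

open MeasureTheory

namespace HDG

open Pool.Agent.FBR

variable {H : Type*} [NormedAddCommGroup H] [NormedSpace ℂ H] {n : ℕ} {e : Module.Basis (Fin n) ℂ H}
  [FiniteDimensional ℂ H] [MeasurableSpace H] [BorelSpace H] {μ : Measure H} [μ.IsAddHaarMeasure]
  {Y : Type*} [TopologicalSpace Y] [CompactSpace Y] [T2Space Y] [MeasurableSpace Y] [BorelSpace Y]
  (B : BM e Y) {w b : B.I → H → Bil H} {ν : Measure Y}

namespace BM

private lemma W13_assoc {V : Type*} [NormedAddCommGroup V] (x y z : V) : x + y + z = x + (y + z) := add_assoc _ _ _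

omit [MeasurableSpace H] [BorelSpace H] in
private lemma W13_pt {a w : Bil H} (ha : O11 a) (hw : O11 w) (hw' : Nn w) {C0 ε : ℝ} (hC0 : 0 < C0)
    (hle : Nn (C0 • w0 e - w)) (hε : 0 ≤ ε) (hε1 : C0 * ε ≤ 1) (h : Nn (a + ε • w)) :
    |dt e (a + ε • w) - dt e a| ≤ ((n : ℝ) + 1) * (C0 * ε) * dt e (a + (2 : ℝ) • w0 e) := by
  have hr : 0 ≤ C0 * ε := mul_nonneg hC0.le hε
  have hw0 : O11 (w0 e : Bil H) := w0_O11 e
  have hw0n : ∀ v : H, 0 ≤ w0 e v (Complex.I • v) := fun v => by
    rw [w0_self]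
    exact qf_nonneg e v
  have hlev : ∀ v : H, w v (Complex.I • v) ≤ C0 * w0 e v (Complex.I • v) := fun v => by
    have h1 := hle v
    have h2 : (C0 • w0 e - w) v (Complex.I • v) = C0 * w0 e v (Complex.I • v) - w v (Complex.I • v) := rfl
    rw [h2] at h1
    linarith
  have hv : ∀ v : H, 0 ≤ a v (Complex.I • v) + ε * w v (Complex.I • v) := fun v => h v
  have h1 : Nn (a + (C0 * ε) • w0 e) := by
    intro v
    have h2 : (a + (C0 * ε) • w0 e) v (Complex.I • v) =
      a v (Complex.I • v) + C0 * ε * w0 e v (Complex.I • v) := rfl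
    rw [h2]
    have h3 := mul_le_mul_of_nonneg_left (hlev v) hε
    have h4 := hv v
    linarith
  have h2 : Nn (a + w0 e) := by
    intro v
    have h3 : (a + w0 e) v (Complex.I • v) = a v (Complex.I • v) + w0 e v (Complex.I • v) := rfl
    have h4 : 0 ≤ a v (Complex.I • v) + C0 * ε * w0 e v (Complex.I • v) := h1 v
    have h5 := mul_le_mul_of_nonneg_right hε1 (hw0n v)
    rw [h3]
    linarith
  have hP := pert e ha h2 hr hε1
  have hx : O11 ((C0 * ε) • w0 e - ε • w) := O11_sub (O11_smul _ hw0) (O11_smul _ hw)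
  have hxn : Nn ((C0 * ε) • w0 e - ε • w) := by
    intro v
    have h3 : ((C0 * ε) • w0 e - ε • w) v (Complex.I • v) =
      C0 * ε * w0 e v (Complex.I • v) - ε * w v (Complex.I • v) := rfl
    rw [h3]
    have h4 := mul_le_mul_of_nonneg_left (hlev v) hε
    linarith
  have ha1 : O11 (a + ε • w) := O11_add ha (O11_smul _ hw)
  have ha2 : O11 (a + (C0 * ε) • w0 e) := O11_add ha (O11_smul _ hw0)
  have he : a + ε • w + ((C0 * ε) • w0 e - ε • w) = a + (C0 * ε) • w0 e := by abel
  have hD := dt_convex e ha1 hx h hxn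
  rw [he] at hD
  have hM : dt e (a + ε • w) ≤ dt e (a + (C0 * ε) • w0 e) := by
    refine dt_mono e ha1 ha2 h ?_
    have h3 : a + (C0 * ε) • w0 e - (a + ε • w) = (C0 * ε) • w0 e - ε • w := by abel
    rw [h3]
    exact hxn
  have hc1 : cf e (a + (C0 * ε) • w0 e) ((C0 * ε) • w0 e - ε • w) ≤
      cf e (a + (C0 * ε) • w0 e) ((C0 * ε) • w0 e) := by
    refine cf_mono e ha2 ha2 hx (O11_smul _ hw0) h1 ?_ hxn ?_
    · exact fun v => le_of_eq (sub_self ((a + (C0 * ε) • w0 e) v (Complex.I • v))).symm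
    · have h3 : (C0 * ε) • w0 e - ((C0 * ε) • w0 e - ε • w) = ε • w := by abel
      rw [h3]
      intro v
      exact mul_nonneg hε (hw' v)
  rw [cf_smul] at hc1
  have hc2 := cf_w0_le e ha2 h1
  have hc3 : dt e (a + (C0 * ε) • w0 e + w0 e) ≤ dt e (a + (2 : ℝ) • w0 e) := by
    refine dt_mono e (O11_add ha2 hw0) (O11_add ha (O11_smul _ hw0)) ?_ ?_
    · intro v
      have h3 : (a + (C0 * ε) • w0 e + w0 e) v (Complex.I • v) =
        (a + (C0 * ε) • w0 e) v (Complex.I • v) + w0 e v (Complex.I • v) := rfl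
      rw [h3]
      exact add_nonneg (h1 v) (hw0n v)
    · intro v
      have h3 : (a + (2 : ℝ) • w0 e - (a + (C0 * ε) • w0 e + w0 e)) v (Complex.I • v) =
        a v (Complex.I • v) + 2 * w0 e v (Complex.I • v) -
          (a v (Complex.I • v) + C0 * ε * w0 e v (Complex.I • v) + w0 e v (Complex.I • v)) := rfl
      rw [h3]
      have h5 := mul_le_mul_of_nonneg_right hε1 (hw0n v)
      linarith
  have hc4 : C0 * ε * cf e (a + (C0 * ε) • w0 e) (w0 e) ≤ C0 * ε * dt e (a + (2 : ℝ) • w0 e) :=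
    mul_le_mul_of_nonneg_left (hc2.trans hc3) hr
  have h6 : |dt e (a + ε • w) - dt e (a + (C0 * ε) • w0 e)| ≤ C0 * ε * dt e (a + (2 : ℝ) • w0 e) := by
    rw [abs_sub_comm, abs_of_nonneg (sub_nonneg.2 hM)]
    linarith
  have h7 : dt e (a + ε • w) - dt e a = (dt e (a + ε • w) - dt e (a + (C0 * ε) • w0 e)) +
      (dt e (a + (C0 * ε) • w0 e) - dt e a) := by ring
  rw [h7]
  refine (abs_add_le _ _).trans ?_
  have h8 : ((n : ℝ) + 1) * (C0 * ε) * dt e (a + (2 : ℝ) • w0 e) =
      C0 * ε * dt e (a + (2 : ℝ) • w0 e) + n * (C0 * ε) * dt e (a + (2 : ℝ) • w0 e) := by ring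
  rw [h8]
  exact add_le_add h6 hP

omit [MeasurableSpace H] [BorelSpace H] [FiniteDimensional ℂ H] [CompactSpace Y] [T2Space Y] [MeasurableSpace Y]
  [BorelSpace Y] in
private lemma W13_w {w : B.I → H → Bil H} (hw : B.Met w) {i : B.I} {z : H} (hz : z ∈ qb e 4) : Nn (w i z) := by
  intro v
  by_cases hv : v = 0
  · rw [hv, map_zero]
    exact le_of_eq rfl
  · exact (hw.pos i z hz v hv).le

theorem glob_pert (hw : B.Met w) (hν : B.IsVol μ w ν) (hb : B.IsT b) (hc : B.ClT b) (A : ℝ) :
    ∃ C ε0 : ℝ, 0 ≤ C ∧ 0 < ε0 ∧ ∀ (F : Y → ℝ) (ε : ℝ), B.Sm F → (∀ y, |F y| ≤ A) → 0 ≤ ε → ε ≤ ε0 →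
      B.NnT (b + B.dd F + ε • w) →
      ∫ y, |B.den w (b + B.dd F + ε • w) y - B.den w (b + B.dd F) y| ∂ν ≤ C * ε := by
  have := hν.fin
  obtain ⟨χ, c, hp⟩ := B.exists_pou
  obtain ⟨C0, hC0, hC0'⟩ := B.Met_le hw (r := 3) (by norm_num) (by norm_num)
  obtain ⟨Ab, hAb, hAb'⟩ := B.IsT_bd hb (r := 3) (by norm_num) (by norm_num)
  choose bl hbl1 hbl2 hbl3 hbl4 using fun i => B.loc_ten hb i
  obtain ⟨K, hK, hK'⟩ := mass_bound e μ (r := 2) (R := 3) (by norm_num) (by norm_num) |A| (Ab + ‖(2 : ℝ) • (w0 e : Bil H)‖)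
  refine ⟨Fintype.card B.I * (((n : ℝ) + 1) * C0 * K), C0⁻¹, by positivity, inv_pos.2 hC0, ?_⟩
  intro F ε hF hFA hε0 hε1 hnn
  have hε2 : C0 * ε ≤ 1 := by
    calc C0 * ε ≤ C0 * C0⁻¹ := mul_le_mul_of_nonneg_left hε1 hC0.le
      _ = 1 := mul_inv_cancel₀ hC0.ne'
  have hint : ∀ {G : Y → ℝ}, Continuous G → Integrable G ν := fun hG =>
    hG.integrable_of_hasCompactSupport (HasCompactSupport.of_compactSpace _)
  have ha : B.IsT (b + B.dd F) := B.IsT_add hb (B.IsT_dd hF)
  have ha1 : B.IsT (b + B.dd F + ε • w) := B.IsT_add ha (B.IsT_smul hw.t ε)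
  have hG : Continuous fun y => |B.den w (b + B.dd F + ε • w) y - B.den w (b + B.dd F) y| :=
    ((B.den_cont hw ha1).sub (B.den_cont hw ha)).abs
  have h1 : ∫ y, |B.den w (b + B.dd F + ε • w) y - B.den w (b + B.dd F) y| ∂ν =
      ∑ i, ∫ y, χ i y * |B.den w (b + B.dd F + ε • w) y - B.den w (b + B.dd F) y| ∂ν := by
    rw [← integral_finsetSum]
    · refine integral_congr_ae (Filter.Eventually.of_forall fun y => ?_)
      show _ = ∑ i, χ i y * |B.den w (b + B.dd F + ε • w) y - B.den w (b + B.dd F) y|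
      rw [← Finset.sum_mul, hp.sum, one_mul]
    · intro i _
      exact hint ((B.Sm_cont (hp.sm i)).mul hG)
  have h2 : ∀ i, ∫ y, χ i y * |B.den w (b + B.dd F + ε • w) y - B.den w (b + B.dd F) y| ∂ν ≤
      ((n : ℝ) + 1) * (C0 * ε) * K := by
    intro i
    rw [B.box_int hw hν i
      (f := fun y => χ i y * |B.den w (b + B.dd F + ε • w) y - B.den w (b + B.dd F) y|)
      (((B.Sm_cont (hp.sm i)).mul hG).measurable)
      (fun y hy => by rw [hp.out i y hy, zero_mul])]
    obtain ⟨φl, hφ1, hφ2, hφ3⟩ := B.loc_fun hF i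
    have hz : ∀ z ∈ qb e 4 \ qb e 2, χ i (B.ψ i z) * |B.den w (b + B.dd F + ε • w) (B.ψ i z) -
        B.den w (b + B.dd F) (B.ψ i z)| * dt e (w i z) = 0 := by
      rintro z ⟨hz4, hz2⟩
      have h5 : c i z = 0 := by
        by_contra h6
        have h7 : z ∈ tsupport (c i) := subset_tsupport _ h6
        have h8 : qf e z ≤ (3 / 2) ^ 2 := hp.cs i h7
        exact hz2 (show qf e z < 2 ^ 2 from lt_of_le_of_lt h8 (by norm_num))
      rw [hp.eq i z hz4, h5, zero_mul, zero_mul]
    rw [setIntegral_eq_of_subset_of_forall_sdiff_eq_zero (isOpen_qb e 4).measurableSet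
      (qb_mono (by norm_num) (by norm_num)) hz]
    have hfld : Fld (bl i) (qb e 3) := ⟨hbl1 i, hbl2 i, fun z hz =>
      hbl4 i hc z (qb_mono (by norm_num) (by norm_num) hz)⟩
    have hgl : ∫ z in qb e 2, ((n : ℝ) + 1) * (C0 * ε) * dt e (bl i z + (2 : ℝ) • w0 e + ddc φl z) ∂μ ≤
        ((n : ℝ) + 1) * (C0 * ε) * K := by
      rw [integral_const_mul]
      refine mul_le_mul_of_nonneg_left (hK' (fun z => bl i z + (2 : ℝ) • w0 e) φl (hfld.add_w0 e 2) ?_ hφ1 ?_ ?_)
        (by positivity)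
      · intro z hz
        have h9 : qf e z ≤ 3 ^ 2 := le_of_lt hz
        have h10 : ‖bl i z + (2 : ℝ) • (w0 e : Bil H)‖ ≤ ‖bl i z‖ + ‖(2 : ℝ) • (w0 e : Bil H)‖ :=
          norm_add_le (bl i z) ((2 : ℝ) • (w0 e : Bil H))
        have h11 : ‖bl i z‖ ≤ Ab := by
          rw [hbl3 i z (h9.trans (by norm_num))]
          exact hAb' i z h9
        linarith
      · intro z hz
        have h9 : qf e z ≤ 3 ^ 2 := le_of_lt hz
        have h10 : z ∈ qb e 4 := qb_mono (by norm_num) (by norm_num) hz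
        have h11 : ddc φl z = B.dd F i z := hφ3 z (qb_mono (by norm_num) (by norm_num) hz)
        intro v
        have h12 : 0 ≤ b i z v (Complex.I • v) + B.dd F i z v (Complex.I • v) + ε * w i z v (Complex.I • v) :=
          hnn i z h10 v
        have h13 : (bl i z + (2 : ℝ) • w0 e + ddc φl z) v (Complex.I • v) =
          bl i z v (Complex.I • v) + 2 * w0 e v (Complex.I • v) + ddc φl z v (Complex.I • v) := rfl
        have h14 : 0 ≤ C0 * w0 e v (Complex.I • v) - w i z v (Complex.I • v) := hC0' i z h9 v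
        have h15 : 0 ≤ w0 e v (Complex.I • v) := by
          rw [w0_self]
          exact qf_nonneg e v
        have h16 := mul_le_mul_of_nonneg_right hε2 h15
        have h17 := mul_nonneg hε0 h14
        rw [h13, h11, hbl3 i z (h9.trans (by norm_num))]
        nlinarith
      · intro z hz
        have h9 : qf e z ≤ 3 ^ 2 := le_of_lt hz
        rw [hφ2 z (h9.trans (by norm_num))]
        exact (hFA _).trans (le_abs_self A)
    refine le_trans ?_ hgl
    refine (le_abs_self _).trans ?_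
    rw [← Real.norm_eq_abs]
    have hcont : Continuous fun z => ((n : ℝ) + 1) * (C0 * ε) * dt e (bl i z + (2 : ℝ) • w0 e + ddc φl z) := by
      have h12 : ContDiff ℝ ∞ (fun z => bl i z + (2 : ℝ) • w0 e + ddc φl z) :=
        ((hbl1 i).add contDiff_const).add (contDiff_iff_contDiffAt.2 fun z => ddc_smooth hφ1.contDiffAt)
      exact continuous_const.mul ((dt_smooth e).continuous.comp h12.continuous)
    refine norm_integral_le_of_norm_le ?_ ?_
    · exact (hcont.continuousOn.integrableOn_compact (isCompact_qb e 2)).mono_set fun z hz =>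
        show qf e z ≤ 2 ^ 2 from le_of_lt hz
    · filter_upwards [ae_restrict_mem (isOpen_qb e 2).measurableSet] with z hz
      have h9 : qf e z < 2 ^ 2 := hz
      have h9' : qf e z ≤ 3 ^ 2 := h9.le.trans (by norm_num)
      have h10 : z ∈ qb e 4 := qb_mono (by norm_num) (by norm_num) hz
      have h11 : ddc φl z = B.dd F i z := hφ3 z (qb_mono (by norm_num) (by norm_num) hz)
      have h12 : (b + B.dd F) i z = b i z + B.dd F i z := rfl
      have h12' : (b + B.dd F + ε • w) i z = b i z + B.dd F i z + ε • w i z := rfl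
      have h13 : χ i (B.ψ i z) ≤ 1 := by
        rw [← hp.sum (B.ψ i z)]
        exact Finset.single_le_sum (f := fun i' => χ i' (B.ψ i z)) (fun i' _ => hp.nn i' _) (Finset.mem_univ i)
      have h14 : 0 < dt e (w i z) := B.dt_w_pos hw h10
      have h15 := W13_pt (e := e) (ha.oo i z h10) (hw.t.oo i z h10) (W13_w B hw h10) hC0 (hC0' i z h9') hε0 hε2
        (hnn i z h10)
      rw [h12] at h15
      have h16 : |B.den w (b + B.dd F + ε • w) (B.ψ i z) - B.den w (b + B.dd F) (B.ψ i z)| * dt e (w i z) =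
          |dt e (b i z + B.dd F i z + ε • w i z) - dt e (b i z + B.dd F i z)| := by
        rw [B.den_box hw ha1 h10, B.den_box hw ha h10, h12, h12', ← sub_div, abs_div, abs_of_pos h14,
          div_mul_cancel₀ _ h14.ne']
      have h17 : bl i z + (2 : ℝ) • w0 e + ddc φl z = b i z + B.dd F i z + (2 : ℝ) • w0 e := by
        rw [h11, hbl3 i z (h9'.trans (by norm_num))]
        abel
      rw [h17, Real.norm_eq_abs, mul_assoc, h16, abs_mul, abs_abs, abs_of_nonneg (hp.nn i _)]
      refine le_trans ?_ h15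
      calc χ i (B.ψ i z) * |dt e (b i z + B.dd F i z + ε • w i z) - dt e (b i z + B.dd F i z)|
          ≤ 1 * |dt e (b i z + B.dd F i z + ε • w i z) - dt e (b i z + B.dd F i z)| :=
            mul_le_mul_of_nonneg_right h13 (abs_nonneg _)
        _ = _ := one_mul _
  rw [h1]
  calc ∑ i, ∫ y, χ i y * |B.den w (b + B.dd F + ε • w) y - B.den w (b + B.dd F) y| ∂ν
      ≤ ∑ _i : B.I, ((n : ℝ) + 1) * (C0 * ε) * K := Finset.sum_le_sum fun i _ => h2 i
    _ = Fintype.card B.I * (((n : ℝ) + 1) * C0 * K) * ε := by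
        rw [Finset.sum_const, Finset.card_univ, nsmul_eq_mul]
        ring

theorem glob_E (hw : B.Met w) (hν : B.IsVol μ w ν) (hb : B.IsT b) (hc : B.ClT b) (A : ℝ) :
    ∃ C ε0 : ℝ, 0 ≤ C ∧ 0 < ε0 ∧ ∀ (ψ f : Y → ℝ) (ε η : ℝ), B.Sm ψ → B.Sm f → (∀ y, |ψ y| ≤ A) → (∀ y, |f y| ≤ A) →
      0 ≤ ε → ε ≤ ε0 → 0 ≤ η → η ≤ A → (∀ y, f y ≤ η) → B.NnT (b + B.dd ψ + ε • w) →
      B.NnT (b + B.dd (fun y => ψ y + f y) + ε • w) →
      B.En w b ν (fun y => ψ y + f y) ≤ B.En w b ν ψ + η * ∫ y, B.den w b y ∂ν + C * ε := by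
  have := hν.fin
  obtain ⟨C, ε0, hC, hε0, hP⟩ := B.glob_pert (A := 2 * |A|) hw hν hb hc
  refine ⟨2 * |A| * C, ε0, by positivity, hε0, ?_⟩
  intro ψ f ε η hψ hf hψA hfA hε hεε hη hηA hfη hn1 hn2
  have hA : 0 ≤ A := hη.trans hηA
  have hint : ∀ {G : Y → ℝ}, Continuous G → Integrable G ν := fun hG =>
    hG.integrable_of_hasCompactSupport (HasCompactSupport.of_compactSpace _)
  have hfc := B.Sm_cont hf
  have key : ∀ r : ℝ, 0 ≤ r → r ≤ 1 →
      ∫ y, f y * B.den w (b + B.dd ψ + r • B.dd f) y ∂ν ≤ η * ∫ y, B.den w b y ∂ν + 2 * |A| * C * ε := by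
    intro r hr0 hr1
    have hrf : B.Sm fun y => r * f y := B.Sm_mul (B.Sm_const r) hf
    have hF : B.Sm fun y => ψ y + r * f y := B.Sm_add hψ hrf
    have hFi : ∀ i, ∀ z ∈ qb e 4, B.dd (fun y => ψ y + r * f y) i z = B.dd ψ i z + r • B.dd f i z := by
      intro i z hz
      rw [B.dd_add hψ hrf hz, B.dd_smul hf r hz]
    have hFA : ∀ y, |ψ y + r * f y| ≤ 2 * |A| := by
      intro y
      have h1 := (hψA y).trans (le_abs_self A)
      have h2 := (hfA y).trans (le_abs_self A)
      have h3 : |r * f y| ≤ |A| := by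
        rw [abs_mul, abs_of_nonneg hr0]
        calc r * |f y| ≤ 1 * |f y| := mul_le_mul_of_nonneg_right hr1 (abs_nonneg _)
          _ ≤ |A| := by rw [one_mul]; exact h2
      have h4 := abs_add_le (ψ y) (r * f y)
      linarith
    have hnn : B.NnT (b + B.dd (fun y => ψ y + r * f y) + ε • w) := by
      intro i z hz v
      have h1 : 0 ≤ b i z v (Complex.I • v) + B.dd ψ i z v (Complex.I • v) + ε * w i z v (Complex.I • v) :=
        hn1 i z hz v
      have h2 : 0 ≤ b i z v (Complex.I • v) + B.dd (fun y => ψ y + f y) i z v (Complex.I • v) +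
        ε * w i z v (Complex.I • v) := hn2 i z hz v
      have h3 : (b + B.dd (fun y => ψ y + r * f y) + ε • w) i z v (Complex.I • v) =
        b i z v (Complex.I • v) + B.dd (fun y => ψ y + r * f y) i z v (Complex.I • v) +
          ε * w i z v (Complex.I • v) := rfl
      have h4 : (B.dd ψ i z + r • B.dd f i z) v (Complex.I • v) =
        B.dd ψ i z v (Complex.I • v) + r * B.dd f i z v (Complex.I • v) := rfl
      have h5 : (B.dd ψ i z + B.dd f i z) v (Complex.I • v) =
        B.dd ψ i z v (Complex.I • v) + B.dd f i z v (Complex.I • v) := rfl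
      rw [B.dd_add hψ hf hz, h5] at h2
      rw [h3, hFi i z hz, h4]
      have h6 := mul_nonneg (sub_nonneg.2 hr1) h1
      have h7 := mul_nonneg hr0 h2
      linarith
    have ha : B.IsT (b + B.dd fun y => ψ y + r * f y) := B.IsT_add hb (B.IsT_dd hF)
    have ha1 : B.IsT (b + B.dd (fun y => ψ y + r * f y) + ε • w) := B.IsT_add ha (B.IsT_smul hw.t ε)
    have hd := B.den_cont hw ha
    have hd1 := B.den_cont hw ha1
    have hG : Continuous fun y => |B.den w (b + B.dd (fun y => ψ y + r * f y) + ε • w) y -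
        B.den w (b + B.dd fun y => ψ y + r * f y) y| := (hd1.sub hd).abs
    have h1 := hP (fun y => ψ y + r * f y) ε hF hFA hε hεε hnn
    have h2 : ∫ y, f y * B.den w (b + B.dd ψ + r • B.dd f) y ∂ν =
        ∫ y, f y * B.den w (b + B.dd fun y => ψ y + r * f y) y ∂ν := by
      refine integral_congr_ae (Filter.Eventually.of_forall fun y => ?_)
      refine congrArg _ (B.den_congr (fun i z hz => ?_) y)
      have h3 : (b + B.dd ψ + r • B.dd f) i z = b i z + B.dd ψ i z + r • B.dd f i z := rfl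
      have h4 : (b + B.dd fun y => ψ y + r * f y) i z = b i z + B.dd (fun y => ψ y + r * f y) i z := rfl
      rw [h3, h4, hFi i z hz]
      exact W13_assoc (V := Bil H) _ _ _
    have h3 : ∀ y, 0 ≤ B.den w (b + B.dd (fun y => ψ y + r * f y) + ε • w) y := by
      intro y
      have h4 : B.cd y ∈ qb e 4 := qb_mono (by norm_num) (by norm_num) (B.cd_mem y)
      exact div_nonneg (dt_nonneg e (ha1.oo _ _ h4) (hnn _ _ h4)) (B.dt_w_pos hw h4).le
    have h4 : ∀ y, f y * B.den w (b + B.dd fun y => ψ y + r * f y) y ≤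
        η * B.den w (b + B.dd fun y => ψ y + r * f y) y + (η + |A|) *
          |B.den w (b + B.dd (fun y => ψ y + r * f y) + ε • w) y - B.den w (b + B.dd fun y => ψ y + r * f y) y| := by
      intro y
      generalize hx : B.den w (b + B.dd (fun y => ψ y + r * f y) + ε • w) y = x
      generalize hx' : B.den w (b + B.dd fun y => ψ y + r * f y) y = x'
      have h5 : 0 ≤ x := hx ▸ h3 y
      have h6 := mul_le_mul_of_nonneg_right (hfη y) h5
      have h7 : (η - f y) * (x - x') ≤ (η + |A|) * |x - x'| := by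
        refine (le_abs_self _).trans ?_
        rw [abs_mul]
        refine mul_le_mul_of_nonneg_right ?_ (abs_nonneg _)
        have h8 := abs_sub η (f y)
        rw [abs_of_nonneg hη] at h8
        have h9 := (hfA y).trans (le_abs_self A)
        linarith
      nlinarith
    have h5 : ∫ y, f y * B.den w (b + B.dd fun y => ψ y + r * f y) y ∂ν ≤
        ∫ y, (η * B.den w (b + B.dd fun y => ψ y + r * f y) y + (η + |A|) *
          |B.den w (b + B.dd (fun y => ψ y + r * f y) + ε • w) y -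
            B.den w (b + B.dd fun y => ψ y + r * f y) y|) ∂ν :=
      integral_mono (hint (hfc.mul hd)) (hint ((continuous_const.mul hd).add (continuous_const.mul hG))) h4
    have h6 : ∫ y, (η * B.den w (b + B.dd fun y => ψ y + r * f y) y + (η + |A|) *
          |B.den w (b + B.dd (fun y => ψ y + r * f y) + ε • w) y -
            B.den w (b + B.dd fun y => ψ y + r * f y) y|) ∂ν =
        (∫ y, η * B.den w (b + B.dd fun y => ψ y + r * f y) y ∂ν) + ∫ y, (η + |A|) *
          |B.den w (b + B.dd (fun y => ψ y + r * f y) + ε • w) y -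
            B.den w (b + B.dd fun y => ψ y + r * f y) y| ∂ν :=
      integral_add (hint (continuous_const.mul hd)) (hint (continuous_const.mul hG))
    rw [h6, integral_const_mul, integral_const_mul, B.mass_dd hw hν hb hc hF] at h5
    rw [h2]
    refine h5.trans (add_le_add_right ?_ _)
    have h7 : η + |A| ≤ 2 * |A| := by
      rw [abs_of_nonneg hA]
      linarith
    calc (η + |A|) * ∫ y, |B.den w (b + B.dd (fun y => ψ y + r * f y) + ε • w) y -
          B.den w (b + B.dd fun y => ψ y + r * f y) y| ∂ν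
        ≤ (η + |A|) * (C * ε) := mul_le_mul_of_nonneg_left h1 (by positivity)
      _ ≤ 2 * |A| * (C * ε) := mul_le_mul_of_nonneg_right h7 (by positivity)
      _ = 2 * |A| * C * ε := by ring
  have hdiff := B.En_diff hw hν hb hc hψ hf
  have hcont : Continuous fun r : ℝ => ∫ y, f y * B.den w (b + B.dd ψ + r • B.dd f) y ∂ν := by
    have h1 : Continuous fun q : ℝ × Y => f q.2 * B.den w (b + B.dd ψ + q.1 • B.dd f) q.2 :=
      (hfc.comp continuous_snd).mul (B.den_cont₂ hw (B.IsT_add hb (B.IsT_dd hψ)) (B.IsT_dd hf))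
    have h := continuous_parametric_integral_of_continuous (μ := ν)
      (f := fun (r : ℝ) y => f y * B.den w (b + B.dd ψ + r • B.dd f) y) h1 (isCompact_univ (X := Y))
    simpa only [Measure.restrict_univ] using h
  have h3 : ∫ r in (0 : ℝ)..1, ∫ y, f y * B.den w (b + B.dd ψ + r • B.dd f) y ∂ν ≤
      ∫ _r in (0 : ℝ)..1, (η * ∫ y, B.den w b y ∂ν + 2 * |A| * C * ε) := by
    refine intervalIntegral.integral_mono_on zero_le_one (hcont.intervalIntegrable _ _)
      (continuous_const.intervalIntegrable _ _) fun r hr => key r hr.1 hr.2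
  rw [intervalIntegral.integral_const, sub_zero, one_smul] at h3
  linarith

end BM

end HDG
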