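import Pool.Agent.HDW.W14a
import Pool.Agent.HDG.G11

/-!
# HDW/W15a: the near maximiser

`near_max`: as `G11_max` (HDG/G11), for the sets `Kl ε` of the smooth `φ` with `cls w b p δ κ0 ε φ`, `- M - ε ≤ φ ≤ 0`, where `κ0 = δ gp p (- M)`.
`W15a_gp`: for such `φ` one has `κ0 - δ gp p (φ y) ≤ ε`, so `b + dd φ + 2 ε w ≥ 0` and `En_bd` applies; the constant `- M` belongs to all `Kl ε`.
-/

set_option autoImplicit false

noncomputable section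

open scoped ContDiff Topology

open MeasureTheory

namespace HDG

open Pool.Agent.FBR

variable {H : Type*} [NormedAddCommGroup H] [NormedSpace ℂ H] {n : ℕ} {e : Module.Basis (Fin n) ℂ H}
  [FiniteDimensional ℂ H] [MeasurableSpace H] [BorelSpace H] {μ : Measure H} [μ.IsAddHaarMeasure]
  {Y : Type*} [TopologicalSpace Y] [CompactSpace Y] [T2Space Y] [MeasurableSpace Y] [BorelSpace Y]
  (B : BM e Y) {w b : B.I → H → Bil H} {ν : Measure Y}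

namespace BM

private theorem W15a_lim {S : ℝ → Set ℝ} {e3 C κ : ℝ} (he3 : 0 < e3) (hκ : 0 < κ)
    (hne : ∀ ε, 0 < ε → ε ≤ e3 → (S ε).Nonempty)
    (hbd : ∀ ε, 0 < ε → ε ≤ e3 → ∀ x ∈ S ε, |x| ≤ C) :
    ∃ e4, 0 < e4 ∧ e4 ≤ e3 ∧ ∀ ε, 0 < ε → ε ≤ e4 → ∃ x ∈ S ε, ∀ x' ∈ S e4, x' ≤ x + κ := by
  have hba : ∀ ε, 0 < ε → ε ≤ e3 → BddAbove (S ε) := fun ε h1 h2 =>
    ⟨C, fun x hx => (abs_le.1 (hbd ε h1 h2 x hx)).2⟩
  have hlow : ∀ ε, 0 < ε → ε ≤ e3 → -C ≤ sSup (S ε) := by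
    intro ε h1 h2
    obtain ⟨x, hx⟩ := hne ε h1 h2
    exact (abs_le.1 (hbd ε h1 h2 x hx)).1.trans (le_csSup (hba ε h1 h2) hx)
  have hneI : ((fun ε => sSup (S ε)) '' Set.Ioc 0 e3).Nonempty := ⟨_, e3, ⟨he3, le_rfl⟩, rfl⟩
  have hbb : BddBelow ((fun ε => sSup (S ε)) '' Set.Ioc 0 e3) :=
    ⟨-C, by rintro _ ⟨ε, hε, rfl⟩; exact hlow ε hε.1 hε.2⟩
  obtain ⟨_, ⟨e4, he4, rfl⟩, h4⟩ := exists_lt_of_csInf_lt hneI
    (show sInf ((fun ε => sSup (S ε)) '' Set.Ioc 0 e3) <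
      sInf ((fun ε => sSup (S ε)) '' Set.Ioc 0 e3) + κ / 2 by linarith)
  refine ⟨e4, he4.1, he4.2, fun ε h1 h2 => ?_⟩
  have h3 : sInf ((fun ε => sSup (S ε)) '' Set.Ioc 0 e3) ≤ sSup (S ε) :=
    csInf_le hbb ⟨ε, ⟨h1, h2.trans he4.2⟩, rfl⟩
  obtain ⟨x, hx, hlt⟩ := exists_lt_of_lt_csSup (hne ε h1 (h2.trans he4.2))
    (show sSup (S ε) - κ / 2 < sSup (S ε) by linarith)
  refine ⟨x, hx, fun x' hx' => ?_⟩
  have h5 : x' ≤ sSup (S e4) := le_csSup (hba e4 he4.1 he4.2) hx'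
  dsimp only at h4
  linarith

omit [FiniteDimensional ℂ H] [MeasurableSpace H] [BorelSpace H] [CompactSpace Y] [T2Space Y] [MeasurableSpace Y]
  [BorelSpace Y] in
private theorem W15a_nn (hw : B.Met w) {a : B.I → H → Bil H} {s t : ℝ} (hst : s ≤ t)
    (h : B.NnT (a + s • w)) : B.NnT (a + t • w) := by
  intro i z hz v
  have h1 := h i z hz v
  have h2 : 0 ≤ w i z v (Complex.I • v) := by
    by_cases hv : v = 0
    · subst hv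
      simp
    · exact (hw.pos i z hz v hv).le
  have h3 : (a + s • w) i z v (Complex.I • v) = a i z v (Complex.I • v) + s * w i z v (Complex.I • v) := rfl
  have h4 : (a + t • w) i z v (Complex.I • v) = a i z v (Complex.I • v) + t * w i z v (Complex.I • v) := rfl
  rw [h3] at h1
  rw [h4]
  nlinarith

private theorem W15a_gp {p δ M : ℝ} (hp : 0 < p) (hδ : 0 < δ) (hδp : δ * p ≤ 1) (hM : 0 ≤ M) {ε t : ℝ} (hε : 0 ≤ ε)
    (h1 : -M - ε ≤ t) (h2 : t ≤ 0) : δ * gp p (-M) - δ * gp p t ≤ ε := by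
  rcases le_total (-M) t with h | h
  · have h3 := mul_le_mul_of_nonneg_left (gp_mono hp.le h h2) hδ.le
    linarith
  · have h3 := gp_lip hp.le h (by linarith : -M ≤ 0)
    have h4 : p * (-M - t) ≤ p * ε := mul_le_mul_of_nonneg_left (by linarith) hp.le
    have h5 : δ * (gp p (-M) - gp p t) ≤ δ * (p * ε) := mul_le_mul_of_nonneg_left (h3.trans h4) hδ.le
    have h6 : δ * p * ε ≤ 1 * ε := mul_le_mul_of_nonneg_right hδp hε
    linarith [mul_sub δ (gp p (-M)) (gp p t), mul_assoc δ p ε]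

omit [MeasurableSpace H] [BorelSpace H] [CompactSpace Y] [T2Space Y] [MeasurableSpace Y]
  [BorelSpace Y] in
private theorem W15a_const (hw : B.Met w) (hn : B.NnT b) (p δ M : ℝ) {ε : ℝ} (hε : 0 ≤ ε) :
    B.cls w b p δ (δ * gp p (-M)) ε (fun _ => -M) := by
  intro j z hz v
  have h1 := hn j z hz v
  have h2 : 0 ≤ w j z v (Complex.I • v) := by
    by_cases hv : v = 0
    · subst hv
      simp
    · exact (hw.pos j z hz v hv).le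
  show 0 ≤ (b j z + B.dd (fun _ => -M) j z + (δ * gp p (-M) - δ * gp p (-M) + ε) • w j z) v (Complex.I • v)
  have h3 : (b j z + B.dd (fun _ => -M) j z + (δ * gp p (-M) - δ * gp p (-M) + ε) • w j z) v (Complex.I • v) =
      b j z v (Complex.I • v) + B.dd (fun _ => -M) j z v (Complex.I • v) +
        (δ * gp p (-M) - δ * gp p (-M) + ε) * w j z v (Complex.I • v) := rfl
  rw [h3, B.dd_const (-M) hz, sub_self, zero_add]
  have h4 := mul_nonneg hε h2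
  have h5 : (0 : Bil H) v (Complex.I • v) = 0 := rfl
  rw [h5, add_zero]
  exact add_nonneg h1 h4

theorem near_max (hw : B.Met w) (hν : B.IsVol μ w ν) (hb : B.IsT b) (hc : B.ClT b) (hn : B.NnT b)
    {p δ M : ℝ} (hp : 0 < p) (hδ : 0 < δ) (hδp : δ * p ≤ 1) (hM : 0 ≤ M) {K κ ε1 : ℝ} (hK : 2 ≤ K) (hκ : 0 < κ) (hε1 : 0 < ε1) :
    ∃ (ε : ℝ) (φ : Y → ℝ), 0 < ε ∧ ε ≤ ε1 ∧ B.Sm φ ∧ (∀ y, |φ y| ≤ M + 1) ∧ (∀ y, φ y ≤ 0) ∧
      (∀ y, δ * gp p (-M) - δ * gp p (φ y) ≤ ε) ∧ B.cls w b p δ (δ * gp p (-M)) ε φ ∧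
      ∀ f : Y → ℝ, B.Sm f → B.cls w b p δ (δ * gp p (-M)) (K * ε) f → (∀ y, φ y ≤ f y) → (∀ y, f y ≤ 0) →
        B.En w b ν f ≤ B.En w b ν φ + κ := by
  obtain ⟨ε2, C2, hε2, hC2, hEn⟩ := B.En_bd hw hν hb hc hn (M + 1)
  obtain ⟨Kl, hKl⟩ : ∃ Kl : ℝ → Set (Y → ℝ), ∀ ε φ, φ ∈ Kl ε ↔ (B.Sm φ ∧ B.cls w b p δ (δ * gp p (-M)) ε φ ∧
      (∀ y, -M - ε ≤ φ y) ∧ ∀ y, φ y ≤ 0) := ⟨fun ε => {φ | B.Sm φ ∧ B.cls w b p δ (δ * gp p (-M)) ε φ ∧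
      (∀ y, -M - ε ≤ φ y) ∧ ∀ y, φ y ≤ 0}, fun _ _ => Iff.rfl⟩
  have habs : ∀ ε φ, ε ≤ 1 → φ ∈ Kl ε → ∀ y, |φ y| ≤ M + 1 := by
    intro ε φ h1 h2 y
    obtain ⟨_, _, h3, h4⟩ := (hKl ε φ).1 h2
    rw [abs_le]
    exact ⟨by linarith [h3 y], by linarith [h4 y]⟩
  obtain ⟨e4, he4, he43, hlim⟩ := W15a_lim (S := fun ε => B.En w b ν '' Kl ε) (e3 := min (ε2 / 2) 1) (C := C2)
    (κ := κ) (lt_min (half_pos hε2) one_pos) hκ
    (by
      intro ε h1 _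
      refine ⟨_, (fun _ => -M), ?_, rfl⟩
      rw [hKl]
      exact ⟨B.Sm_const _, B.W15a_const hw hn p δ M h1.le, fun y => by linarith, fun y => by linarith⟩)
    (by
      rintro ε h1 h2 _ ⟨φ, hφ, rfl⟩
      have h3 := habs ε φ (h2.trans (min_le_right _ _)) hφ
      rw [hKl] at hφ
      have h4 := h2.trans (min_le_left _ _)
      have h5 := B.cls_nn hw hφ.2.1 (r := ε) fun y =>
        W15a_gp hp hδ hδp hM h1.le (hφ.2.2.1 y) (hφ.2.2.2 y)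
      exact hEn φ hφ.1 (B.W15a_nn hw (by linarith) h5) h3)
  have hK0 : 0 < K := by linarith
  have hε : 0 < min ε1 (e4 / K) := lt_min hε1 (div_pos he4 hK0)
  have hε4 : K * min ε1 (e4 / K) ≤ e4 := by
    have := mul_le_mul_of_nonneg_left (min_le_right ε1 (e4 / K)) hK0.le
    rwa [mul_div_cancel₀ _ hK0.ne'] at this
  obtain ⟨ε, hεd⟩ : ∃ ε, ε = min ε1 (e4 / K) := ⟨_, rfl⟩
  rw [← hεd] at hε hε4
  have hεe : ε ≤ e4 := by nlinarith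
  obtain ⟨_, ⟨φ, hφ, rfl⟩, hmax⟩ := hlim ε hε hεe
  have hφa := habs ε φ (hεe.trans (he43.trans (min_le_right _ _))) hφ
  have hφ' := (hKl ε φ).1 hφ
  refine ⟨ε, φ, hε, hεd ▸ min_le_left _ _, hφ'.1, hφa, hφ'.2.2.2,
    fun y => W15a_gp hp hδ hδp hM hε.le (hφ'.2.2.1 y) (hφ'.2.2.2 y), hφ'.2.1, fun f hf1 hf2 hf3 hf4 => ?_⟩
  refine hmax _ ⟨f, ?_, rfl⟩
  rw [hKl]
  refine ⟨hf1, B.cls_mono hw hε4 hf2, fun y => ?_, hf4⟩
  have h1 := hφ'.2.2.1 y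
  have h2 := hf3 y
  linarith

end BM

end HDG
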