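import Pool.Agent.HDW.W16a
import Pool.Agent.HDW.W15
import Pool.Agent.HDG.G5
import Pool.Agent.HDG.ST3
import Pool.Agent.HDG.ST5
import Pool.Agent.HDG.RB

/-!
# HDW/W16: the statement on the manifold

A family of balls `B` from `exists_good`; the Hermitian metric and the form `β` are read in the balls (`Fit.met`, `Fit.isT`, `Fit.clT`,
`Fit.nnT`, `Fit.pos`), the volume is the one of `exists_vol`, and `BM.weighted` gives the function `f`. The inequality at the point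
`ψ i z` is the one of `weighted` at `z`, as `dvec M.E (ψ i) z` is bijective and complex linear (`lev_comp`).
-/

set_option autoImplicit false

noncomputable section

open scoped Manifold ContDiff Topology

namespace HFC

open Pool.Agent.FBR

universe u

private theorem W16_smooth {E X : Type u} [NormedAddCommGroup E] [NormedSpace ℂ E] [FiniteDimensional ℂ E]
    [TopologicalSpace X] [ChartedSpace E X] {g : X → Bil E} (hg : Herm g) (p : X) :
    ContDiffOn ℝ ∞ (coef g p) (chartAt E p).target := by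
  have : FiniteDimensional ℝ E := FiniteDimensional.complexToReal E
  exact contDiffOn_clm_apply.2 fun u => contDiffOn_clm_apply.2 fun v => hg.smooth p u v

private theorem W16_pt {E X : Type u} [NormedAddCommGroup E] [NormedSpace ℂ E] [FiniteDimensional ℂ E]
    [TopologicalSpace X] [ChartedSpace E X] {n : ℕ} {e : Module.Basis (Fin n) ℂ E} {B : HDG.BM e X} (hB : HDG.Fit B)
    {f : X → ℝ} (hf : SmF E f) {b g : X → Bil E} {p δ κ : ℝ} (hf0 : ∀ x, f x ≤ 0) {i : B.I} {z : E} (hz : z ∈ HDG.qb e 4)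
    (h : HDG.Nn (((fun i => tpb b (B.ψ i)) + B.dd f + B.wt (fun y => κ - δ * HDG.gp p (f y)) fun i => tpb g (B.ψ i)) i z))
    (u : E) :
    (δ * (1 - f (B.ψ i z)) ^ (-p) - κ) * ev (g (B.ψ i z)) (dvec E (B.ψ i) z u) (Complex.I • dvec E (B.ψ i) z u) ≤
      ev (b (B.ψ i z)) (dvec E (B.ψ i) z u) (Complex.I • dvec E (B.ψ i) z u) + lev f (B.ψ i z) (dvec E (B.ψ i) z u) := by
  have h1 := h u
  obtain ⟨h2, h3⟩ := lev_comp hf (hB.hol i z hz) u
  have h4 : ∀ a : X → Bil E, tpb a (B.ψ i) z u (Complex.I • u) =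
      ev (a (B.ψ i z)) (dvec E (B.ψ i) z u) (Complex.I • dvec E (B.ψ i) z u) := fun a => by
    rw [tpb_apply, h3]
    rfl
  have h5 : ((fun i => tpb b (B.ψ i)) + B.dd f + B.wt (fun y => κ - δ * HDG.gp p (f y)) fun i => tpb g (B.ψ i)) i z u
      (Complex.I • u) = tpb b (B.ψ i) z u (Complex.I • u) + ddc (fun z => f (B.ψ i z)) z u (Complex.I • u) +
        (κ - δ * HDG.gp p (f (B.ψ i z))) * tpb g (B.ψ i) z u (Complex.I • u) := rfl
  rw [h5, h4, h4, h2, HDG.gp_eq p (hf0 _)] at h1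
  linarith

theorem wk_of (M : CM.{u}) (hn : 2 ≤ Module.finrank ℂ M.E) (b : Form M.E M.X) (hb : b.Semi) (hb' : ∃ x, b.PosAt x)
    (g : M.X → Bil M.E) (hg : Herm g) (p : ℝ) (hp : 0 < p) (hpn : (Module.finrank ℂ M.E : ℝ) - 2 < p) :
    ∃ δ : ℝ, 0 < δ ∧ ∀ κ : ℝ, 0 < κ → ∃ f : M.X → ℝ, SmF M.E f ∧ (∀ x, f x ≤ 0) ∧ (∃ x, f x = 0) ∧
      Above b g f fun x => δ * (1 - f x) ^ (-p) - κ := by
  let _ : MeasurableSpace M.X := borel M.X
  have : BorelSpace M.X := ⟨rfl⟩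
  let _ : MeasurableSpace M.E := borel M.E
  have : BorelSpace M.E := ⟨rfl⟩
  have : FiniteDimensional ℝ M.E := FiniteDimensional.complexToReal M.E
  obtain ⟨B, hB, -⟩ := HDG.exists_good (X := M.X) (Module.finBasis ℂ M.E)
  have hw := hB.met (a := g) hg.alt hg.j (W16_smooth hg) hg.pos
  have hb1 := hB.isT b.alt b.j b.smooth
  obtain ⟨x₀, hx₀⟩ := hb'
  obtain ⟨ν, hν⟩ := HDG.BM.exists_vol (MeasureTheory.Measure.addHaar : MeasureTheory.Measure M.E) B hw
  obtain ⟨δ, hδ, h⟩ := B.weighted hw hν hb1 (hB.clT b) (hB.nnT hb) (hB.pos hx₀) hn hp hpn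
  refine ⟨δ, hδ, fun κ hκ => ?_⟩
  obtain ⟨f, hf, hf0, hf1, hN⟩ := h κ hκ
  refine ⟨f, (hB.sm f).2 hf, hf0, hf1, fun x v => ?_⟩
  obtain ⟨i, z, hz, rfl⟩ := B.cov x
  have hz4 : z ∈ HDG.qb (Module.finBasis ℂ M.E) 4 := HDG.BM.qb_mono (by norm_num) (by norm_num) hz
  obtain ⟨u, rfl⟩ := (hB.bij i z hz4).2 v
  exact W16_pt hB ((hB.sm f).2 hf) hf0 hz4 (hN i z hz4) u

end HFC
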