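import Pool.Agent.HDW.W3
import Pool.Agent.HDG.LA4

/-!
# HDW/W4: monotonicity of mixed discriminants

Everything follows from `mc_nonneg` and the derivatives `mj_deriv`, `mj_deriv'`: the function `t ↦ mj e j (a + t (a' - a)) x` has the
derivative `mc e j (..) x (a' - a) ≥ 0` on `[0, 1]`. `mj_nonneg` follows from `mj_euler` for `j < n` and from `mj_top` for `j = n`;
for `j > n` both `mj` and `mc` vanish. `cf_mono` is the case `j = 1` of `mj_mono`. `dt_convex`: the derivative of `t ↦ dt (a + t x)`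
on `[0, 1]` is at most its value `cf (a + x) x` at `1`.
-/

set_option autoImplicit false

noncomputable section

open scoped ContDiff

namespace HDG

open Pool.Agent.FBR

variable {H : Type*} [NormedAddCommGroup H] [NormedSpace ℂ H] [FiniteDimensional ℂ H] {n : ℕ}
  (e : Module.Basis (Fin n) ℂ H)

private lemma W4_inc {f f' : ℝ → ℝ} (h : ∀ t, HasDerivAt f (f' t) t) (h' : ∀ t, 0 ≤ t → t ≤ 1 → 0 ≤ f' t) :
    f 0 ≤ f 1 := by
  have hm : MonotoneOn f (Set.Icc 0 1) := by
    refine monotoneOn_of_deriv_nonneg (convex_Icc 0 1) (fun t _ => (h t).continuousAt.continuousWithinAt)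
      (fun t _ => (h t).differentiableAt.differentiableWithinAt) fun t ht => ?_
    have h1 : t ∈ Set.Icc (0 : ℝ) 1 := interior_subset ht
    rw [(h t).deriv]
    exact h' t h1.1 h1.2
  exact hm ⟨le_rfl, zero_le_one⟩ ⟨zero_le_one, le_rfl⟩ zero_le_one

omit [FiniteDimensional ℂ H] in
private lemma W4_zero (a s : Bil H) : a + (0 : ℝ) • s = a := by
  refine ContinuousLinearMap.ext fun u => ContinuousLinearMap.ext fun v => ?_
  have h : (a + (0 : ℝ) • s) u v = a u v + 0 * s u v := rfl
  rw [h, zero_mul, add_zero]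

omit [FiniteDimensional ℂ H] in
private lemma W4_one (a a' : Bil H) : a + (1 : ℝ) • (a' - a) = a' := by
  refine ContinuousLinearMap.ext fun u => ContinuousLinearMap.ext fun v => ?_
  have h : (a + (1 : ℝ) • (a' - a)) u v = a u v + 1 * (a' u v - a u v) := rfl
  rw [h]
  ring

omit [FiniteDimensional ℂ H] in
private lemma W4_add_sub (a a' : Bil H) : a + (a' - a) = a' := by
  refine ContinuousLinearMap.ext fun u => ContinuousLinearMap.ext fun v => ?_
  have h : (a + (a' - a)) u v = a u v + (a' u v - a u v) := rfl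
  rw [h]
  ring

omit [FiniteDimensional ℂ H] in
private lemma W4_one_smul (a s : Bil H) : a + (1 : ℝ) • s = a + s := by
  refine ContinuousLinearMap.ext fun u => ContinuousLinearMap.ext fun v => ?_
  have h : (a + (1 : ℝ) • s) u v = a u v + 1 * s u v := rfl
  have h' : (a + s) u v = a u v + s u v := rfl
  rw [h, h', one_mul]

omit [FiniteDimensional ℂ H] in
private lemma W4_sub {a b : Bil H} (ha : O11 a) (hb : O11 b) : O11 (b - a) := O11_sub hb ha

omit [FiniteDimensional ℂ H] in
private lemma W4_nn {a s : Bil H} (ha : Nn a) (hs : Nn s) {t : ℝ} (ht : 0 ≤ t) : Nn (a + t • s) := by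
  intro v
  have h : (a + t • s) v (Complex.I • v) = a v (Complex.I • v) + t * s v (Complex.I • v) := rfl
  rw [h]
  exact add_nonneg (ha v) (mul_nonneg ht (hs v))

private lemma W4_mj_zero (a x : Bil H) : mj e 0 a x = dt e a := by
  obtain ⟨P, hP, h1, -⟩ := dt_poly e a x
  have h2 : mj e 0 a x = P.coeff 0 := lj_poly 0 hP fun k _ => h1 k
  have h3 := h1 0
  rw [W4_zero] at h3
  rw [h2, h3, Polynomial.coeff_zero_eq_eval_zero]

private lemma W4_mj_gt {j : ℕ} (hj : n < j) (a x : Bil H) : mj e j a x = 0 := by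
  obtain ⟨P, hP, h1, -⟩ := dt_poly e a x
  have h2 : mj e j a x = P.coeff j := lj_poly j hP fun k _ => h1 k
  rw [h2]
  exact Polynomial.coeff_eq_zero_of_natDegree_lt (lt_of_le_of_lt hP hj)

theorem mj_nonneg {a x : Bil H} (ha : O11 a) (hx : O11 x) (ha' : Nn a) (hx' : Nn x) (j : ℕ) : 0 ≤ mj e j a x := by
  rcases lt_trichotomy j n with h | h | h
  · have h1 := mc_nonneg e ha hx ha ha' hx' ha' j
    rw [← mj_euler] at h1
    have h2 : (0 : ℝ) < (n : ℝ) - j := sub_pos.2 (by exact_mod_cast h)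
    exact nonneg_of_mul_nonneg_right h1 h2
  · subst h
    rw [mj_top]
    exact dt_nonneg e hx hx'
  · exact (W4_mj_gt e h a x).ge

private lemma W4_mono1 {a a' x : Bil H} (ha : O11 a) (ha1 : O11 a') (hx : O11 x) (hna : Nn a) (hna' : Nn (a' - a))
    (hnx : Nn x) (j : ℕ) : mj e j a x ≤ mj e j a' x := by
  have h := W4_inc (fun t => mj_deriv e j a x (a' - a) t) fun t ht _ =>
    mc_nonneg e (O11_add ha (O11_smul t (W4_sub ha ha1))) hx (W4_sub ha ha1) (W4_nn hna hna' ht) hnx hna' j
  rw [W4_zero, W4_one] at h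
  exact h

private lemma W4_mono2 {a x x' : Bil H} (ha : O11 a) (hx : O11 x) (hx1 : O11 x') (hna : Nn a)
    (hnx : Nn x) (hnx' : Nn (x' - x)) (j : ℕ) : mj e j a x ≤ mj e j a x' := by
  rcases j with _ | j
  · rw [W4_mj_zero, W4_mj_zero]
  · have h := W4_inc (fun t => mj_deriv' e j a x (x' - x) t) fun t ht _ =>
      mc_nonneg e ha (O11_add hx (O11_smul t (W4_sub hx hx1))) (W4_sub hx hx1) hna (W4_nn hnx hnx' ht) hnx' j
    rw [W4_zero, W4_one] at h
    exact h

omit [FiniteDimensional ℂ H] in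
private lemma W4_trans {a a' : Bil H} (hna : Nn a) (hna' : Nn (a' - a)) : Nn a' := by
  have h := W4_nn hna hna' zero_le_one
  rw [W4_one] at h
  exact h

theorem mj_mono {a a' x x' : Bil H} (ha : O11 a) (ha1 : O11 a') (hx : O11 x) (hx1 : O11 x') (hna : Nn a) (hna' : Nn (a' - a))
    (hnx : Nn x) (hnx' : Nn (x' - x)) (j : ℕ) : mj e j a x ≤ mj e j a' x' :=
  (W4_mono1 e ha ha1 hx hna hna' hnx j).trans (W4_mono2 e ha1 hx hx1 (W4_trans hna hna') hnx hnx' j)

theorem mc_mono {a x y y' : Bil H} (ha : O11 a) (hx : O11 x) (hy : O11 y) (hy1 : O11 y') (hna : Nn a) (hnx : Nn x)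
    (h : Nn (y' - y)) (j : ℕ) : mc e j a x y ≤ mc e j a x y' := by
  have h1 := mc_nonneg e ha hx (W4_sub hy hy1) hna hnx h j
  have h2 := mc_add e j a x y (y' - y)
  rw [W4_add_sub] at h2
  linarith

theorem mc_le {a x y : Bil H} (ha : O11 a) (hx : O11 x) (hy : O11 y) (hna : Nn a) (hnx : Nn x) {C : ℝ} (h : Nn (C • x - y))
    (j : ℕ) : mc e j a x y ≤ C * ((j + 1) * mj e (j + 1) a x) := by
  have h1 := mc_mono e ha hx hy (O11_smul C hx) hna hnx h j
  rw [mc_smul, mc_self] at h1
  exact h1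

theorem cf_mono {a a' y y' : Bil H} (ha : O11 a) (ha1 : O11 a') (hy : O11 y) (hy1 : O11 y') (hna : Nn a) (hna' : Nn (a' - a))
    (hny : Nn y) (hny' : Nn (y' - y)) : cf e a y ≤ cf e a' y' := by
  rw [← mj_one, ← mj_one]
  exact mj_mono e ha ha1 hy hy1 hna hna' hny hny' 1

theorem dt_convex {a x : Bil H} (ha : O11 a) (hx : O11 x) (hna : Nn a) (hnx : Nn x) :
    dt e (a + x) ≤ dt e a + cf e (a + x) x := by
  have hd : ∀ t : ℝ, HasDerivAt (fun t : ℝ => t * cf e (a + x) x - dt e (a + t • x))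
      (1 * cf e (a + x) x - cf e (a + t • x) x) t := fun t =>
    ((hasDerivAt_id t).mul_const _).sub (hasDerivAt_dt e a x t)
  have h := W4_inc hd fun t ht ht' => by
    have h1 : cf e (a + t • x) x ≤ cf e (a + x) x := by
      refine cf_mono e (O11_add ha (O11_smul t hx)) (O11_add ha hx) hx hx (W4_nn hna hnx ht) ?_ hnx ?_
      · intro v
        have h2 : (a + x - (a + t • x)) v (Complex.I • v) = (1 - t) * x v (Complex.I • v) := by
          have h3 : (a + x - (a + t • x)) v (Complex.I • v) =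
            a v (Complex.I • v) + x v (Complex.I • v) - (a v (Complex.I • v) + t * x v (Complex.I • v)) := rfl
          rw [h3]
          ring
        rw [h2]
        exact mul_nonneg (by linarith) (hnx v)
      · intro v
        have h2 : (x - x) v (Complex.I • v) = x v (Complex.I • v) - x v (Complex.I • v) := rfl
        rw [h2, sub_self]
    linarith
  simp only [zero_mul, one_mul, W4_zero, W4_one_smul] at h
  linarith

end HDG
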