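import Pool.Agent.HDG.RDefs

/-!
# HDW: definitions for the statement about weighted Kähler currents

`M` is a compact connected complex manifold (`CM`), modelled on `E = M.E`; the tangent space at `x` is `E` by means of the
chart `chartAt E x`.
-/

set_option autoImplicit false

noncomputable section

open scoped Manifold ContDiff

namespace HFC

open Pool.Agent.FBR

universe u

variable {E X : Type u} [NormedAddCommGroup E] [NormedSpace ℂ E] [TopologicalSpace X] [ChartedSpace E X]

/-- the function `f` in the chart at `x` -/
def inCh (f : X → ℝ) (x : X) (y : E) : ℝ := f ((chartAt E x).symm y)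

/-- the second derivative of the real function `h` at `y` in the directions `v, v` -/
def d2 (h : E → ℝ) (y v : E) : ℝ := dR (fun z => dR h z v) y v

/-- `dd^c f (v, iv) = (D²f(v, v) + D²f(iv, iv)) / 2` at the point `x`, for a tangent vector `v` at `x` -/
def lev (f : X → ℝ) (x : X) (v : E) : ℝ :=
  (d2 (inCh f x) (chartAt E x x) v + d2 (inCh f x) (chartAt E x x) (Complex.I • v)) / 2

/-- `β + dd^c f ≥ θ g`, for a function `θ` on `X` -/
def Above (b : Form E X) (g : X → Bil E) (f θ : X → ℝ) : Prop :=
  ∀ (x : X) (v : E), θ x * ev (g x) v (Complex.I • v) ≤ ev (b.val x) v (Complex.I • v) + lev f x v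

end HFC
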