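import Pool.Agent.HDW.W6

/-!
# HDW/W7: the weights `(1 - t) ^ (-p)`

`gp p t = (1 - t) ^ (-p)` for `t ≤ 0`, extended to a smooth function on `ℝ`: `gx t = t (1 - smoothTransition (4 t))` is `t` for `t ≤ 0`, lies
in `[0, 1/4]` for `t ≥ 0`, and has the derivative `1` at every `t ≤ 0` (`smoothTransition (4 t) = 0` is a minimum there).
-/

set_option autoImplicit false

noncomputable section

open scoped ContDiff Topology

open Filter

namespace HDG

def gx (t : ℝ) : ℝ := t * (1 - Real.smoothTransition (4 * t))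

/-- the weight `(1 - t) ^ (-p)`, `t ≤ 0` -/
def gp (p t : ℝ) : ℝ := (1 - gx t) ^ (-p)

private theorem w7_st {t : ℝ} (ht : t ≤ 0) : Real.smoothTransition (4 * t) = 0 :=
  Real.smoothTransition.zero_of_nonpos (by linarith)

private theorem w7_gx {t : ℝ} (ht : t ≤ 0) : gx t = t := by
  unfold gx
  rw [w7_st ht]
  ring

private theorem w7_pos (t : ℝ) : 0 < 1 - gx t := by
  rcases le_total t 0 with ht | ht
  · rw [w7_gx ht]
    linarith
  · unfold gx
    have h0 := Real.smoothTransition.nonneg (4 * t)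
    have h1 := Real.smoothTransition.le_one (4 * t)
    rcases le_total (1 / 4) t with h | h
    · rw [Real.smoothTransition.one_of_one_le (by linarith)]
      norm_num
    · have h2 : t * (1 - Real.smoothTransition (4 * t)) ≤ t * 1 :=
        mul_le_mul_of_nonneg_left (by linarith) ht
      linarith

private theorem w7_smx : ContDiff ℝ ∞ gx := by
  unfold gx
  exact contDiff_id.mul (contDiff_const.sub (Real.smoothTransition.contDiff.comp (contDiff_const.mul contDiff_id)))

private theorem w7_dx {t : ℝ} (ht : t ≤ 0) : HasDerivAt gx 1 t := by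
  have hst : Differentiable ℝ Real.smoothTransition :=
    (Real.smoothTransition.contDiff (n := 1)).differentiable (by norm_num)
  have h0 : deriv Real.smoothTransition (4 * t) = 0 := by
    apply IsLocalMin.deriv_eq_zero
    refine Filter.Eventually.of_forall fun x => ?_
    rw [w7_st ht]
    exact Real.smoothTransition.nonneg x
  have h1 : HasDerivAt Real.smoothTransition 0 (4 * t) := by
    have h2 := (hst (4 * t)).hasDerivAt
    rwa [h0] at h2
  have h2 : HasDerivAt (fun x : ℝ => 4 * x) (4 * 1) t := (hasDerivAt_id t).const_mul 4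
  have h3 : HasDerivAt (fun x : ℝ => Real.smoothTransition (4 * x)) (0 * (4 * 1)) t :=
    HasDerivAt.comp t h1 h2
  have h4 : HasDerivAt (fun x : ℝ => 1 - Real.smoothTransition (4 * x)) (-(0 * (4 * 1))) t := h3.const_sub 1
  have h5 : HasDerivAt (fun x : ℝ => x * (1 - Real.smoothTransition (4 * x)))
      (1 * (1 - Real.smoothTransition (4 * t)) + t * (-(0 * (4 * 1)))) t := (hasDerivAt_id t).mul h4
  have e : (1 : ℝ) * (1 - Real.smoothTransition (4 * t)) + t * (-(0 * (4 * 1))) = 1 := by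
    rw [w7_st ht]
    ring
  rw [e] at h5
  exact h5

theorem gp_eq (p : ℝ) {t : ℝ} (ht : t ≤ 0) : gp p t = (1 - t) ^ (-p) := by
  unfold gp
  rw [w7_gx ht]

theorem gp_smooth (p : ℝ) : ContDiff ℝ ∞ (gp p) := by
  unfold gp
  exact (contDiff_const.sub w7_smx).rpow_const_of_ne fun t => (w7_pos t).ne'

theorem gp_pos (p t : ℝ) : 0 < gp p t := by
  unfold gp
  exact Real.rpow_pos_of_pos (w7_pos t) _

theorem gp_zero (p : ℝ) : gp p 0 = 1 := by
  rw [gp_eq p le_rfl, sub_zero, Real.one_rpow]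

theorem gp_anti {p q : ℝ} (h : p ≤ q) {t : ℝ} (ht : t ≤ 0) : gp q t ≤ gp p t := by
  rw [gp_eq q ht, gp_eq p ht]
  exact Real.rpow_le_rpow_of_exponent_le (by linarith) (by linarith)

theorem gp_le_one {p : ℝ} (hp : 0 ≤ p) {t : ℝ} (ht : t ≤ 0) : gp p t ≤ 1 := by
  rw [gp_eq p ht]
  exact Real.rpow_le_one_of_one_le_of_nonpos (by linarith) (by linarith)

theorem gp_mono {p : ℝ} (hp : 0 ≤ p) {s t : ℝ} (hs : s ≤ t) (ht : t ≤ 0) : gp p s ≤ gp p t := by
  rw [gp_eq p (hs.trans ht), gp_eq p ht]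
  exact Real.rpow_le_rpow_of_nonpos (by linarith) (by linarith) (by linarith)

private theorem w7_dp (p : ℝ) {t : ℝ} (ht : t ≤ 0) : HasDerivAt (gp p) (p * (1 - t) ^ (-p - 1)) t := by
  have h1 : HasDerivAt (fun x : ℝ => 1 - gx x) (-1) t := (w7_dx ht).const_sub 1
  have h2 := h1.rpow_const (p := -p) (Or.inl (w7_pos t).ne')
  have e : (-1 : ℝ) * (-p) * (1 - gx t) ^ (-p - 1) = p * (1 - t) ^ (-p - 1) := by
    rw [w7_gx ht]
    ring
  rw [e] at h2
  exact h2

theorem gp_lip {p : ℝ} (hp : 0 ≤ p) {s t : ℝ} (hs : s ≤ t) (ht : t ≤ 0) : gp p t - gp p s ≤ p * (t - s) := by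
  refine Convex.image_sub_le_mul_sub_of_deriv_le (convex_Iic (0 : ℝ)) (gp_smooth p).continuous.continuousOn
    ((gp_smooth p).differentiable (by simp)).differentiableOn ?_ s (hs.trans ht) t ht hs
  intro x hx
  rw [interior_Iic, Set.mem_Iio] at hx
  rw [(w7_dp p hx.le).deriv]
  have h1 : (1 - x) ^ (-p - 1) ≤ 1 := Real.rpow_le_one_of_one_le_of_nonpos (by linarith) (by linarith)
  calc p * (1 - x) ^ (-p - 1) ≤ p * 1 := mul_le_mul_of_nonneg_left h1 hp
    _ = p := mul_one p

theorem gp_tendsto {p : ℝ} (hp : 0 < p) : Tendsto (gp p) atBot (𝓝 0) := by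
  have h1 : Tendsto (fun t : ℝ => 1 - t) atBot atTop := tendsto_atTop_add_const_left _ _ tendsto_neg_atBot_atTop
  have h2 : Tendsto (fun t : ℝ => (1 - t) ^ (-p)) atBot (𝓝 0) := (tendsto_rpow_neg_atTop hp).comp h1
  refine h2.congr' ?_
  filter_upwards [eventually_le_atBot (0 : ℝ)] with t ht
  exact (gp_eq p ht).symm

theorem gp_Wp {q : ℝ} (hq : 1 < q) : Wp (gp q) (fun t => (q - 1)⁻¹ * gp (q - 1) t) := by
  have hq0 : q - 1 ≠ 0 := by
    intro h
    linarith
  have hs1 : ContDiff ℝ ∞ (fun t => (q - 1)⁻¹ * gp (q - 1) t) := contDiff_const.mul (gp_smooth (q - 1))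
  have hd : ∀ t ≤ 0, deriv (fun t => (q - 1)⁻¹ * gp (q - 1) t) t = gp q t := by
    intro t ht
    have h1 := (w7_dp (q - 1) ht).const_mul (q - 1)⁻¹
    rw [h1.deriv, gp_eq q ht]
    have e : -(q - 1) - 1 = -q := by ring
    rw [e, ← mul_assoc, inv_mul_cancel₀ hq0, one_mul]
  refine ⟨gp_smooth q, hs1, fun t _ => (gp_pos q t).le, fun t _ => ?_, hd, fun t ht => ?_⟩
  · exact mul_nonneg (inv_nonneg.2 (by linarith)) (gp_pos (q - 1) t).le
  · have h1 : HasDerivAt (deriv (fun t => (q - 1)⁻¹ * gp (q - 1) t))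
        (deriv (deriv (fun t => (q - 1)⁻¹ * gp (q - 1) t)) t) t := by
      have h2 : ContDiff ℝ ∞ (deriv (fun t => (q - 1)⁻¹ * gp (q - 1) t)) := by
        exact (contDiff_infty_iff_deriv.1 hs1).2
      exact ((h2.differentiable (by simp)) t).hasDerivAt
    have h3 : HasDerivWithinAt (gp q) (deriv (deriv (fun t => (q - 1)⁻¹ * gp (q - 1) t)) t) (Set.Iic t) t :=
      h1.hasDerivWithinAt.congr (fun x hx => (hd x ((Set.mem_Iic.1 hx).trans ht)).symm) (hd t ht).symm
    have h4 : HasDerivWithinAt (gp q) (q * (1 - t) ^ (-q - 1)) (Set.Iic t) t := (w7_dp q ht).hasDerivWithinAt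
    have h5 := (uniqueDiffWithinAt_Iic t).eq_deriv _ h3 h4
    rw [h5]
    exact mul_nonneg (by linarith) (Real.rpow_nonneg (by linarith) _)

end HDG
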