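import Pool.Agent.HDW.WDefs
import Pool.Agent.HDG.SDefs
import Pool.Agent.HDG.G2
import Pool.Agent.HDG.OB8

/-!
# HDW/W16a: the form `dd^c f` in a chart

`lev_eq`: `lev f x v` is the value of `ddc (inCh f x)` at `chartAt E x x` on the vectors `v, iv`. `lev_comp`: the value of
`ddc (f ∘ ψ)` on `u, iu`, for a holomorphic map `ψ` into the manifold (near `z` the function `f ∘ ψ` is `inCh f (ψ z)`
composed with `chartAt E (ψ z) ∘ ψ`).
-/

set_option autoImplicit false

noncomputable section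

open scoped Manifold ContDiff Topology

namespace HFC

open Pool.Agent.FBR

universe u

private theorem W16a_two {V W : Type*} [NormedAddCommGroup V] [NormedSpace ℝ V] [NormedAddCommGroup W]
    [NormedSpace ℝ W] {f : V → W} {y : V} (h : ContDiffAt ℝ ∞ f y) : ContDiffAt ℝ 2 f y :=
  h.of_le (by norm_cast)

private theorem W16a_d2 {E : Type*} [NormedAddCommGroup E] [NormedSpace ℂ E] {h : E → ℝ} {y : E}
    (hh : ContDiffAt ℝ ∞ h y) (v : E) : d2 h y v = fderiv ℝ (fderiv ℝ h) y v v := by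
  have h1 : DifferentiableAt ℝ (fderiv ℝ h) y :=
    ((hh.fderiv_right (m := 1) (by norm_cast)).differentiableAt (by norm_num))
  have h2 := h1.hasFDerivAt.clm_apply (hasFDerivAt_const v y)
  show fderiv ℝ (fun z => fderiv ℝ h z v) y v = fderiv ℝ (fderiv ℝ h) y v v
  rw [h2.fderiv]
  simp

theorem lev_eq {E X : Type u} [NormedAddCommGroup E] [NormedSpace ℂ E] [FiniteDimensional ℂ E] [TopologicalSpace X]
    [ChartedSpace E X] {f : X → ℝ} (hf : SmF E f) (x : X) (v : E) :
    lev f x v = ddc (inCh f x) (chartAt E x x) v (Complex.I • v) := by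
  have h1 : ContDiffAt ℝ ∞ (inCh f x) (chartAt E x x) := hf x
  unfold lev
  rw [W16a_d2 h1, W16a_d2 h1, ddc_self]
  ring

theorem lev_comp {E X : Type u} [NormedAddCommGroup E] [NormedSpace ℂ E] [FiniteDimensional ℂ E] [TopologicalSpace X]
    [ChartedSpace E X] {f : X → ℝ} (hf : SmF E f) {ψ : E → X} {z : E} (hψ : Hol E ψ z) (u : E) :
    ddc (fun z => f (ψ z)) z u (Complex.I • u) = lev f (ψ z) (dvec E ψ z u) ∧
      dvec E ψ z (Complex.I • u) = Complex.I • dvec E ψ z u := by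
  have hI : dvec E ψ z (Complex.I • u) = Complex.I • dvec E ψ z u := by
    show fderiv ℝ (chartAt E (ψ z) ∘ ψ) z (Complex.I • u) = Complex.I • fderiv ℝ (chartAt E (ψ z) ∘ ψ) z u
    rw [(hψ.2.differentiableAt (by simp)).fderiv_restrictScalars ℝ]
    simp
  refine ⟨?_, hI⟩
  have hg : (fun z => f (ψ z)) =ᶠ[nhds z] (inCh f (ψ z)) ∘ (chartAt E (ψ z) ∘ ψ) := by
    have h : ∀ᶠ w in nhds z, ψ w ∈ (chartAt E (ψ z)).source :=
      hψ.1.eventually ((chartAt E (ψ z)).open_source.mem_nhds (mem_chart_source E (ψ z)))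
    filter_upwards [h] with w hw
    show f (ψ w) = f ((chartAt E (ψ z)).symm (chartAt E (ψ z) (ψ w)))
    rw [(chartAt E (ψ z)).left_inv hw]
  have h1 : ContDiffAt ℝ 2 (inCh f (ψ z)) ((chartAt E (ψ z) ∘ ψ) z) := W16a_two (hf (ψ z))
  have h2 := ddc_comp h1 hψ.2
  rw [ddc_congr hg, h2, ContinuousLinearMap.bilinearComp_apply, lev_eq hf]
  show ddc (inCh f (ψ z)) (chartAt E (ψ z) (ψ z)) (dvec E ψ z u) (dvec E ψ z (Complex.I • u)) = _
  rw [hI]

end HFC
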