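import Mathlib

/-!
# HDW/W1: coefficients of polynomials as linear functionals of their values

`lj n j f` is the coefficient of `X ^ j` of the Lagrange interpolation polynomial of `f` at the nodes `0, ..., n`. It is linear
in `f`, and it is the coefficient of `X ^ j` of `P` if `f = P` at the nodes for a polynomial `P` of degree at most `n`.
-/

set_option autoImplicit false

noncomputable section

namespace HDG

/-- the coefficient of `X ^ j` of the interpolation polynomial of `f` at `0, ..., n` -/
def lj (n j : ℕ) (f : ℝ → ℝ) : ℝ :=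
  ∑ k ∈ Finset.range (n + 1), (Lagrange.basis (Finset.range (n + 1)) (fun k : ℕ => (k : ℝ)) k).coeff j * f k

theorem lj_add (n j : ℕ) (f g : ℝ → ℝ) : lj n j (fun s => f s + g s) = lj n j f + lj n j g := by
  simp only [lj, mul_add, Finset.sum_add_distrib]

theorem lj_smul (n j : ℕ) (c : ℝ) (f : ℝ → ℝ) : lj n j (fun s => c * f s) = c * lj n j f := by
  simp only [lj, Finset.mul_sum]
  exact Finset.sum_congr rfl fun k _ => by ring

theorem lj_congr (n j : ℕ) {f g : ℝ → ℝ} (h : ∀ k : ℕ, k ≤ n → f k = g k) : lj n j f = lj n j g := by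
  simp only [lj]
  refine Finset.sum_congr rfl fun k hk => ?_
  rw [h k (Nat.lt_succ_iff.mp (Finset.mem_range.mp hk))]

theorem lj_poly {n : ℕ} (j : ℕ) {P : Polynomial ℝ} (hP : P.natDegree ≤ n) {f : ℝ → ℝ} (h : ∀ k : ℕ, k ≤ n → f k = P.eval (k : ℝ)) :
    lj n j f = P.coeff j := by
  have hinj : Set.InjOn (fun k : ℕ => (k : ℝ)) (Finset.range (n + 1) : Set ℕ) := fun a _ b _ hab =>
    Nat.cast_injective (R := ℝ) hab
  have hdeg : P.degree < (Finset.range (n + 1)).card := by
    rw [Finset.card_range]
    refine lt_of_le_of_lt Polynomial.degree_le_natDegree ?_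
    exact_mod_cast Nat.lt_succ_of_le hP
  have hP' := Lagrange.eq_interpolate hinj hdeg
  rw [Lagrange.interpolate_apply] at hP'
  conv_rhs => rw [hP', Polynomial.finsetSum_coeff]
  simp only [lj]
  refine Finset.sum_congr rfl fun k hk => ?_
  rw [Polynomial.coeff_C_mul, h k (Nat.lt_succ_iff.mp (Finset.mem_range.mp hk)), mul_comm]

end HDG
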