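import Pool.Agent.HDW.W7
import Pool.Agent.HDW.W8

/-!
# HDW/W14a: the class, perturbation in one ball

`B.cls w b p δ κ0 ε f`: the condition `b + dd f + (κ0 - δ gp p f + ε) w ≥ 0`.

`adm_w`, `adm_nn`: the form for `φ + ext i P`; in a chart `j` at the point `z`, either `ψ j z = ψ i z'` with `z' ∈ qb e 3`, and the inequality at `z'` is transformed by the
transition map, or `ext i P` vanishes near `ψ j z`. `cls_mono`: `w ≥ 0`. `cls_nn`: if `κ0 - δ gp p (f y) ≤ r` then `b + dd f + (r + ε) w ≥ 0`.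
-/

set_option autoImplicit false

noncomputable section

open scoped ContDiff Topology

open MeasureTheory

namespace HDG

open Pool.Agent.FBR

/-- the condition `b + dd f + (κ0 - δ gp p f + ε) w ≥ 0` -/
def BM.cls {H : Type*} [NormedAddCommGroup H] [NormedSpace ℂ H] {n : ℕ} {e : Module.Basis (Fin n) ℂ H}
    {Y : Type*} [TopologicalSpace Y] (B : BM e Y) (w b : B.I → H → Bil H) (p δ κ0 ε : ℝ) (f : Y → ℝ) : Prop :=
  B.NnT (b + B.dd f + B.wt (fun y => κ0 - δ * gp p (f y) + ε) w)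

variable {H : Type*} [NormedAddCommGroup H] [NormedSpace ℂ H] {n : ℕ} {e : Module.Basis (Fin n) ℂ H}
  [FiniteDimensional ℂ H] [MeasurableSpace H] [BorelSpace H] {μ : Measure H} [μ.IsAddHaarMeasure]
  {Y : Type*} [TopologicalSpace Y] [CompactSpace Y] [T2Space Y] [MeasurableSpace Y] [BorelSpace Y]
  (B : BM e Y) {w b : B.I → H → Bil H} {ν : Measure Y}

namespace BM

omit [FiniteDimensional ℂ H] [MeasurableSpace H] [BorelSpace H] in
private theorem W14a_z (a : Bil H) : a + 0 = a := by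
  ext u v
  simp

omit [MeasurableSpace H] [BorelSpace H] [CompactSpace Y] [T2Space Y] [MeasurableSpace Y] [BorelSpace Y] [FiniteDimensional ℂ H] in
private theorem W14a_w (hw : B.Met w) {j : B.I} {z : H} (hz : z ∈ qb e 4) (v : H) : 0 ≤ w j z v (Complex.I • v) := by
  rcases eq_or_ne v 0 with h0 | h0
  · rw [h0]
    simp
  · exact (hw.pos j z hz v h0).le

omit [MeasurableSpace H] [BorelSpace H] [CompactSpace Y] [MeasurableSpace Y] [BorelSpace Y] in
private theorem W14a_far {P : H → ℝ} (hs : tsupport P ⊆ qb e (11 / 4)) {i j : B.I} {z : H} (hz : z ∈ qb e 4)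
    (h : ∀ z' ∈ qb e 3, B.ψ i z' ≠ B.ψ j z) : B.ext i P (B.ψ j z) = 0 ∧ B.dd (B.ext i P) j z = 0 := by
  have h3 : (qb e (11 / 4) : Set H) ⊆ qb e 3 := qb_mono (by norm_num) (by norm_num)
  have h4 : (qb e (11 / 4) : Set H) ⊆ qb e 4 := qb_mono (by norm_num) (by norm_num)
  have hK : IsCompact (tsupport P) :=
    (isCompact_qb e (11 / 4)).of_isClosed_subset (isClosed_tsupport _) fun x hx => by
      have h1 : qf e x < (11 / 4) ^ 2 := hs hx
      exact h1.le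
  have hK2 : IsCompact (B.ψ i '' tsupport P) :=
    hK.image_of_continuousOn ((B.cont i).mono (hs.trans h4))
  have hn : B.ψ j z ∉ B.ψ i '' tsupport P := by
    rintro ⟨z', hz', he⟩
    exact h z' (h3 (hs hz')) he
  have hc : ContinuousAt (B.ψ j) z := (B.cont j).continuousAt ((isOpen_qb e 4).mem_nhds hz)
  have hev : ∀ᶠ x in 𝓝 z, B.ψ j x ∈ (B.ψ i '' tsupport P)ᶜ :=
    hc.eventually (hK2.isClosed.isOpen_compl.mem_nhds hn)
  have hev2 : (fun x => B.ext i P (B.ψ j x)) =ᶠ[𝓝 z] fun _ => (0 : ℝ) := by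
    filter_upwards [hev] with x hx
    refine B.ext_zero fun z' _ he => ?_
    by_contra h0
    exact hx ⟨z', subset_tsupport _ h0, he⟩
  exact ⟨hev2.eq_of_nhds, (ddc_congr hev2).trans (B.dd_const (i := j) 0 hz)⟩

omit [MeasurableSpace H] [BorelSpace H] [MeasurableSpace Y] [BorelSpace Y] in
/-- the inequality for `φ + ext i P`, for the factor `θ` of `w` -/
private theorem W14a_nn (hw : B.Met w) (hb : B.IsT b) {φ : Y → ℝ} (hφ : B.Sm φ) {P : H → ℝ} (hP : ContDiff ℝ ∞ P)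
    (i : B.I) (hs : tsupport P ⊆ qb e (11 / 4)) (θ θ' : Y → ℝ)
    (h1 : ∀ z ∈ qb e 3, Nn (b i z + B.dd φ i z + ddc P z + θ' (B.ψ i z) • w i z))
    (h2 : B.NnT (b + B.dd φ + B.wt θ w)) (h3 : ∀ y, B.ext i P y = 0 → θ y ≤ θ' y) :
    B.NnT (b + B.dd (fun y => φ y + B.ext i P y) + B.wt θ' w) := by
  have h4 : (qb e (11 / 4) : Set H) ⊆ qb e 4 := qb_mono (by norm_num) (by norm_num)
  have h34 : (qb e 3 : Set H) ⊆ qb e 4 := qb_mono (by norm_num) (by norm_num)
  have hS : B.Sm (B.ext i P) := B.Sm_ext i hP (hs.trans h4)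
  have hS2 : B.Sm (fun y => φ y + B.ext i P y) := B.Sm_add hφ hS
  intro j z hz
  by_cases hy : ∃ z' ∈ qb e 3, B.ψ i z' = B.ψ j z
  · obtain ⟨z', hz', he⟩ := hy
    have ha : B.IsT (b + B.dd (fun y => φ y + B.ext i P y) + θ' (B.ψ j z) • w) :=
      B.IsT_add (B.IsT_add hb (B.IsT_dd hS2)) (B.IsT_smul hw.t (θ' (B.ψ j z)))
    obtain ⟨hD, hT⟩ := B.T_eq hz (h34 hz') he.symm
    have e0 : (b + B.dd (fun y => φ y + B.ext i P y) + B.wt θ' w) j z =
        (b + B.dd (fun y => φ y + B.ext i P y) + θ' (B.ψ j z) • w) j z := rfl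
    rw [e0, ha.co j i z hD, hT]
    refine (nn_comp (B.T_I hD) (B.T_bij hD).2).2 ?_
    have e1 : (b + B.dd (fun y => φ y + B.ext i P y) + θ' (B.ψ j z) • w) i z' =
        b i z' + B.dd φ i z' + ddc P z' + θ' (B.ψ i z') • w i z' := by
      show b i z' + B.dd (fun y => φ y + B.ext i P y) i z' + θ' (B.ψ j z) • w i z' = _
      rw [B.dd_add hφ hS (h34 hz'), B.dd_ext (h34 hz'), he]
      abel
    rw [e1]
    exact h1 z' hz'
  · push Not at hy
    obtain ⟨f1, f2⟩ := B.W14a_far hs hz hy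
    intro v
    have e1 : (b + B.dd (fun y => φ y + B.ext i P y) + B.wt θ' w) j z =
        b j z + B.dd φ j z + θ' (B.ψ j z) • w j z := by
      show b j z + B.dd (fun y => φ y + B.ext i P y) j z + θ' (B.ψ j z) • w j z = _
      rw [B.dd_add hφ hS hz, f2, W14a_z]
    rw [e1]
    have k1 : 0 ≤ (b j z + B.dd φ j z + θ (B.ψ j z) • w j z) v (Complex.I • v) := h2 j z hz v
    have k2 := B.W14a_w hw (j := j) hz v
    have k3 := mul_le_mul_of_nonneg_right (h3 _ f1) k2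
    simp only [add_apply, smul_apply, smul_eq_mul] at k1 ⊢
    linarith

omit [MeasurableSpace H] [BorelSpace H] [CompactSpace Y] [T2Space Y] [MeasurableSpace Y] [BorelSpace Y] in
theorem cls_mono (hw : B.Met w) {p δ κ0 ε ε' : ℝ} (hε : ε ≤ ε') {f : Y → ℝ} (h : B.cls w b p δ κ0 ε f) :
    B.cls w b p δ κ0 ε' f := by
  intro j z hz v
  have k1 : 0 ≤ (b j z + B.dd f j z + (κ0 - δ * gp p (f (B.ψ j z)) + ε) • w j z) v (Complex.I • v) := h j z hz v
  have k2 := B.W14a_w hw (j := j) hz v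
  have k3 := mul_le_mul_of_nonneg_right hε k2
  show 0 ≤ (b j z + B.dd f j z + (κ0 - δ * gp p (f (B.ψ j z)) + ε') • w j z) v (Complex.I • v)
  simp only [add_apply, smul_apply, smul_eq_mul] at k1 ⊢
  linarith

omit [MeasurableSpace H] [BorelSpace H] [CompactSpace Y] [T2Space Y] [MeasurableSpace Y] [BorelSpace Y] in
theorem cls_nn (hw : B.Met w) {p δ κ0 ε r : ℝ} {f : Y → ℝ} (h : B.cls w b p δ κ0 ε f)
    (hr : ∀ y, κ0 - δ * gp p (f y) ≤ r) : B.NnT (b + B.dd f + (r + ε) • w) := by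
  intro j z hz v
  have k1 : 0 ≤ (b j z + B.dd f j z + (κ0 - δ * gp p (f (B.ψ j z)) + ε) • w j z) v (Complex.I • v) := h j z hz v
  have k2 := B.W14a_w hw (j := j) hz v
  have k3 := mul_le_mul_of_nonneg_right (hr (B.ψ j z)) k2
  show 0 ≤ (b j z + B.dd f j z + (r + ε) • w j z) v (Complex.I • v)
  simp only [add_apply, smul_apply, smul_eq_mul] at k1 ⊢
  linarith

omit [MeasurableSpace H] [BorelSpace H] [MeasurableSpace Y] [BorelSpace Y] in
theorem adm_w (hw : B.Met w) (hb : B.IsT b) {φ : Y → ℝ} (hφ : B.Sm φ) {P : H → ℝ} (hP : ContDiff ℝ ∞ P) (i : B.I)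
    (hs : tsupport P ⊆ qb e (11 / 4)) {p δ κ0 ε ε' : ℝ} (hε : ε ≤ ε')
    (h1 : ∀ z ∈ qb e 3, Nn (b i z + B.dd φ i z + ddc P z + (κ0 - δ * gp p (φ (B.ψ i z) + P z) + ε') • w i z))
    (h2 : B.cls w b p δ κ0 ε φ) : B.cls w b p δ κ0 ε' (fun y => φ y + B.ext i P y) := by
  refine B.W14a_nn hw hb hφ hP i hs (fun y => κ0 - δ * gp p (φ y) + ε)
    (fun y => κ0 - δ * gp p (φ y + B.ext i P y) + ε') ?_ h2 ?_
  · intro z hz
    have h34 : (qb e 3 : Set H) ⊆ qb e 4 := qb_mono (by norm_num) (by norm_num)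
    have h5 := h1 z hz
    show Nn (b i z + B.dd φ i z + ddc P z + (κ0 - δ * gp p (φ (B.ψ i z) + B.ext i P (B.ψ i z)) + ε') • w i z)
    rw [B.ext_apply (h34 hz)]
    exact h5
  · intro y hy
    show κ0 - δ * gp p (φ y) + ε ≤ κ0 - δ * gp p (φ y + B.ext i P y) + ε'
    rw [hy, add_zero]
    linarith

omit [MeasurableSpace H] [BorelSpace H] [MeasurableSpace Y] [BorelSpace Y] in
theorem adm_nn (hw : B.Met w) (hb : B.IsT b) {φ : Y → ℝ} (hφ : B.Sm φ) {P : H → ℝ} (hP : ContDiff ℝ ∞ P) (i : B.I)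
    (hs : tsupport P ⊆ qb e (11 / 4)) {ε ε' : ℝ} (hε : ε ≤ ε')
    (h1 : ∀ z ∈ qb e 3, Nn (b i z + B.dd φ i z + ddc P z + ε' • w i z))
    (h2 : B.NnT (b + B.dd φ + ε • w)) : B.NnT (b + B.dd (fun y => φ y + B.ext i P y) + ε' • w) :=
  B.W14a_nn hw hb hφ hP i hs (fun _ => ε) (fun _ => ε') h1 h2 fun _ _ => hε

end BM

end HDG
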