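import Pool.Agent.HDW.W2a
import Pool.Agent.HDG.LA2

/-!
# HDW/W2: mixed discriminants: identities

The coefficients `mj`, `mc` of the pencils are the coefficients of the polynomials of `dt_poly` and `cf_poly`; Euler identity,
linearity, the extreme coefficients (the pencils `a + s x` and `x + t a` are reflections of each other), homogeneity, derivatives and
continuity.
-/

set_option autoImplicit false

noncomputable section

open scoped ContDiff

namespace HDG

open Pool.Agent.FBR

variable {H : Type*} [NormedAddCommGroup H] [NormedSpace ℂ H] [FiniteDimensional ℂ H] {n : ℕ}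
  (e : Module.Basis (Fin n) ℂ H)

private theorem W2_nat {P : Polynomial ℝ} (h : P.degree < n) : P.natDegree ≤ n :=
  Polynomial.natDegree_le_of_degree_le h.le

omit [FiniteDimensional ℂ H] in
private theorem W2_z (a x : Bil H) : a + (0 : ℝ) • x = a := by
  refine ContinuousLinearMap.ext fun u => ContinuousLinearMap.ext fun v => ?_
  have h : (a + (0 : ℝ) • x) u v = a u v + 0 * x u v := rfl
  rw [h, zero_mul, add_zero]

omit [FiniteDimensional ℂ H] in
private theorem W2_inv (a x : Bil H) {s : ℝ} (hs : s ≠ 0) : a + s • x = s • (x + s⁻¹ • a) := by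
  refine ContinuousLinearMap.ext fun u => ContinuousLinearMap.ext fun v => ?_
  have h : (a + s • x) u v = a u v + s * x u v := rfl
  have h' : (s • (x + s⁻¹ • a)) u v = s * (x u v + s⁻¹ * a u v) := rfl
  rw [h, h', mul_add, ← mul_assoc, mul_inv_cancel₀ hs, one_mul, add_comm]

omit [FiniteDimensional ℂ H] in
private theorem W2_k (a x y : Bil H) (k t : ℝ) : a + k • x + t • (k • y) = a + k • (x + t • y) := by
  refine ContinuousLinearMap.ext fun u => ContinuousLinearMap.ext fun v => ?_
  have h : (a + k • x + t • (k • y)) u v = a u v + k * x u v + t * (k * y u v) := rfl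
  have h' : (a + k • (x + t • y)) u v = a u v + k * (x u v + t * y u v) := rfl
  rw [h, h']
  ring

omit [FiniteDimensional ℂ H] in
private theorem W2_sm (x : Bil H) (s c : ℝ) : s • (c • x) = (s * c) • x := by
  refine ContinuousLinearMap.ext fun u => ContinuousLinearMap.ext fun v => ?_
  have h : (s • (c • x)) u v = s * (c * x u v) := rfl
  have h' : ((s * c) • x) u v = (s * c) * x u v := rfl
  rw [h, h', mul_assoc]

omit [FiniteDimensional ℂ H] in
private theorem W2_self (a : Bil H) : cf e a a = n * dt e a := by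
  unfold cf dt
  rw [Matrix.adjugate_mul, Matrix.trace_smul, Matrix.trace_one, Fintype.card_fin, smul_eq_mul, mul_comm,
    ← Complex.ofReal_natCast, Complex.re_ofReal_mul]

omit [FiniteDimensional ℂ H] in
private theorem W2_dt (j : ℕ) (a x : Bil H) {P : Polynomial ℝ} (h1 : P.natDegree ≤ n)
    (h2 : ∀ s : ℝ, dt e (a + s • x) = P.eval s) : mj e j a x = P.coeff j :=
  lj_poly j h1 fun k _ => h2 k

omit [FiniteDimensional ℂ H] in
private theorem W2_cf (j : ℕ) (a x y : Bil H) {P : Polynomial ℝ} (h1 : P.natDegree ≤ n)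
    (h2 : ∀ s : ℝ, cf e (a + s • x) y = P.eval s) : mc e j a x y = P.coeff j :=
  lj_poly j h1 fun k _ => h2 k

theorem mj_euler (j : ℕ) (a x : Bil H) : ((n : ℝ) - j) * mj e j a x = mc e j a x a := by
  obtain ⟨P, h1, h2, h3⟩ := dt_poly e a x
  have h4 : ∀ s : ℝ, cf e (a + s • x) a =
      (Polynomial.C (n : ℝ) * P - Polynomial.X * P.derivative).eval s := by
    intro s
    have h5 := W2_self e (a + s • x)
    rw [cf_add, cf_smul, h3, h2] at h5
    rw [Polynomial.eval_sub, Polynomial.eval_mul, Polynomial.eval_mul, Polynomial.eval_C, Polynomial.eval_X]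
    linarith
  have h6 : (Polynomial.C (n : ℝ) * P - Polynomial.X * P.derivative).natDegree ≤ n := by
    refine (Polynomial.natDegree_sub_le _ _).trans (max_le ?_ ?_)
    · exact (Polynomial.natDegree_C_mul_le _ _).trans h1
    · rw [Polynomial.natDegree_le_iff_coeff_eq_zero]
      intro N hN
      cases N with
      | zero => omega
      | succ N =>
        rw [Polynomial.coeff_X_mul, Polynomial.coeff_derivative,
          Polynomial.coeff_eq_zero_of_natDegree_lt (lt_of_le_of_lt h1 hN), zero_mul]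
  rw [W2_cf e j a x a h6 h4, W2_dt e j a x h1 h2, Polynomial.coeff_sub, Polynomial.coeff_C_mul]
  cases j with
  | zero => simp
  | succ j =>
    rw [Polynomial.coeff_X_mul, Polynomial.coeff_derivative]
    push_cast
    ring

theorem mc_self (j : ℕ) (a x : Bil H) : mc e j a x x = (j + 1) * mj e (j + 1) a x := by
  obtain ⟨P, h1, h2, h3⟩ := dt_poly e a x
  have h4 : P.derivative.natDegree ≤ n := (Polynomial.natDegree_derivative_le P).trans (by omega)
  rw [W2_cf e j a x x h4 h3, W2_dt e (j + 1) a x h1 h2, Polynomial.coeff_derivative]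
  ring

theorem mc_add (j : ℕ) (a x y y' : Bil H) : mc e j a x (y + y') = mc e j a x y + mc e j a x y' := by
  unfold mc
  rw [← lj_add]
  exact lj_congr n j fun k _ => cf_add e _ _ _

theorem mc_smul (j : ℕ) (a x : Bil H) (c : ℝ) (y : Bil H) : mc e j a x (c • y) = c * mc e j a x y := by
  unfold mc
  rw [← lj_smul]
  exact lj_congr n j fun k _ => cf_smul e _ _ _

theorem mj_one (a x : Bil H) : mj e 1 a x = cf e a x := by
  obtain ⟨P, h1, h2, h3⟩ := dt_poly e a x
  have h4 := h3 0
  rw [W2_z, ← Polynomial.coeff_zero_eq_eval_zero, Polynomial.coeff_derivative] at h4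
  rw [W2_dt e 1 a x h1 h2, h4]
  simp

/-- the pencils `a + s x` and `x + t a` -/
private theorem W2_rev (a x : Bil H) {P Q : Polynomial ℝ} (h2 : ∀ s : ℝ, dt e (a + s • x) = P.eval s)
    (h3 : Q.natDegree ≤ n) (h4 : ∀ s : ℝ, dt e (x + s • a) = Q.eval s) : P = Polynomial.reflect n Q := by
  have h5 : ∀ s ∈ Set.Ioi (0 : ℝ), P.eval s = (Polynomial.reflect n Q).eval s := by
    intro s hs
    have hs0 : s ≠ 0 := ne_of_gt hs
    have h6 : a + s • x = s • (x + s⁻¹ • a) := W2_inv a x hs0
    have h7 : (Polynomial.reflect n Q).eval s = s ^ n * Q.eval s⁻¹ := by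
      have : Invertible (s⁻¹ : ℝ) := invertibleOfNonzero (inv_ne_zero hs0)
      have h8 := Polynomial.eval₂_reflect_mul_pow (RingHom.id ℝ) (s⁻¹ : ℝ) n Q h3
      rw [invOf_eq_inv, inv_inv] at h8
      have h9 : (Polynomial.reflect n Q).eval s * (s⁻¹) ^ n = Q.eval s⁻¹ := h8
      rw [← h9, mul_comm ((Polynomial.reflect n Q).eval s), ← mul_assoc, ← mul_pow, mul_inv_cancel₀ hs0, one_pow,
        one_mul]
    rw [← h2 s, h7, ← h4 s⁻¹, h6, dt_zero_smul]
  exact Polynomial.eq_of_infinite_eval_eq _ _ ((Set.Ioi_infinite (0 : ℝ)).mono h5)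

theorem mj_top (a x : Bil H) : mj e n a x = dt e x := by
  obtain ⟨P, h1, h2, -⟩ := dt_poly e a x
  obtain ⟨Q, h3, h4, -⟩ := dt_poly e x a
  have h5 := h4 0
  rw [W2_z, ← Polynomial.coeff_zero_eq_eval_zero] at h5
  rw [W2_dt e n a x h1 h2, W2_rev e a x h2 h3 h4, Polynomial.coeff_reflect, Polynomial.revAt_le le_rfl, Nat.sub_self, h5]

theorem mj_pred (hn : 1 ≤ n) (a x : Bil H) : mj e (n - 1) a x = cf e x a := by
  obtain ⟨P, h1, h2, -⟩ := dt_poly e a x
  obtain ⟨Q, h3, h4, h6⟩ := dt_poly e x a
  have h5 := h6 0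
  rw [W2_z, ← Polynomial.coeff_zero_eq_eval_zero, Polynomial.coeff_derivative] at h5
  rw [W2_dt e (n - 1) a x h1 h2, W2_rev e a x h2 h3 h4, Polynomial.coeff_reflect, Polynomial.revAt_le (by omega), h5]
  have h7 : n - (n - 1) = 0 + 1 := by omega
  rw [h7]
  simp

theorem mj_smul (j : ℕ) (a x : Bil H) (c : ℝ) : mj e j a (c • x) = c ^ j * mj e j a x := by
  obtain ⟨P, h1, h2, -⟩ := dt_poly e a x
  have h3 : ∀ s : ℝ, dt e (a + s • (c • x)) = (P.comp (Polynomial.C c * Polynomial.X)).eval s := by
    intro s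
    rw [W2_sm, h2, Polynomial.eval_comp, Polynomial.eval_mul, Polynomial.eval_C, Polynomial.eval_X, mul_comm]
  have h4 : (P.comp (Polynomial.C c * Polynomial.X)).natDegree ≤ n := by
    refine Polynomial.natDegree_comp_le.trans ?_
    have h5 : (Polynomial.C c * Polynomial.X).natDegree ≤ 1 := (Polynomial.natDegree_C_mul_le c Polynomial.X).trans Polynomial.natDegree_X_le
    calc P.natDegree * (Polynomial.C c * Polynomial.X).natDegree ≤ n * 1 := Nat.mul_le_mul h1 h5
      _ = n := mul_one n
  rw [W2_dt e j a (c • x) h4 h3, W2_dt e j a x h1 h2, Polynomial.comp_C_mul_X_coeff, mul_comm]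

/-- the derivative of `mj` in the first argument -/
theorem mj_deriv (j : ℕ) (a x y : Bil H) (t : ℝ) : HasDerivAt (fun t : ℝ => mj e j (a + t • y) x) (mc e j (a + t • y) x y) t := by
  unfold mj mc lj
  refine HasDerivAt.fun_sum fun k _ => HasDerivAt.const_mul _ ?_
  have h1 := hasDerivAt_dt e (a + (k : ℝ) • x) y t
  have h2 : ∀ t : ℝ, a + (k : ℝ) • x + t • y = a + t • y + (k : ℝ) • x := fun t => by abel
  rw [h2 t] at h1
  have h3 : (fun t : ℝ => dt e (a + (k : ℝ) • x + t • y)) = fun t => dt e (a + t • y + (k : ℝ) • x) :=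
    funext fun t => by rw [h2 t]
  rw [h3] at h1
  exact h1

/-- the derivative of `mj` in the second argument -/
theorem mj_deriv' (j : ℕ) (a x y : Bil H) (t : ℝ) :
    HasDerivAt (fun t : ℝ => mj e (j + 1) a (x + t • y)) (mc e j a (x + t • y) y) t := by
  obtain ⟨P, h1, h2⟩ := cf_poly e a (x + t • y) y
  have h3 : (Polynomial.X * P).natDegree ≤ n := by
    by_cases h0 : P = 0
    · rw [h0, mul_zero, Polynomial.natDegree_zero]
      exact Nat.zero_le _
    · rw [Polynomial.natDegree_X_mul h0]
      have h4 : P.natDegree < n := by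
        rw [Polynomial.degree_eq_natDegree h0] at h1
        exact_mod_cast h1
      omega
  have h5 : mc e j a (x + t • y) y = lj n (j + 1) fun s => s * cf e (a + s • (x + t • y)) y := by
    rw [W2_cf e j a _ y (W2_nat h1) h2, lj_poly (j + 1) h3 fun k _ => by
      rw [h2, Polynomial.eval_mul, Polynomial.eval_X], Polynomial.coeff_X_mul]
  rw [h5]
  unfold mj lj
  refine HasDerivAt.fun_sum fun k _ => HasDerivAt.const_mul _ ?_
  have h6 := hasDerivAt_dt e (a + (k : ℝ) • x) ((k : ℝ) • y) t
  have h7 : ∀ t : ℝ, a + (k : ℝ) • x + t • ((k : ℝ) • y) = a + (k : ℝ) • (x + t • y) := fun t => W2_k a x y k t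
  rw [h7 t, cf_smul] at h6
  have h8 : (fun t : ℝ => dt e (a + (k : ℝ) • x + t • ((k : ℝ) • y))) = fun t => dt e (a + (k : ℝ) • (x + t • y)) :=
    funext fun t => by rw [h7 t]
  rw [h8] at h6
  exact h6

omit [FiniteDimensional ℂ H] in
private theorem W2_cas (c : ℝ) : Continuous fun p : Bil H × Bil H => p.1 + c • p.2 :=
  (ContDiff.add contDiff_fst (contDiff_snd.const_smul c) :
    ContDiff ℝ 0 fun p : Bil H × Bil H => p.1 + c • p.2).continuous

theorem mj_continuous (j : ℕ) : Continuous fun p : Bil H × Bil H => mj e j p.1 p.2 := by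
  unfold mj lj
  refine continuous_finsetSum _ fun k _ => continuous_const.mul ?_
  exact (dt_smooth e).continuous.comp (W2_cas (k : ℝ))

omit [FiniteDimensional ℂ H] in
private theorem W2_cas3 (c : ℝ) : Continuous fun p : Bil H × Bil H × Bil H => (p.1 + c • p.2.1, p.2.2) := by
  have h0 : Continuous fun p : Bil H × Bil H × Bil H => (p.1, p.2.1) :=
    continuous_fst.prodMk (continuous_fst.comp continuous_snd)
  have h2 : Continuous fun p : Bil H × Bil H × Bil H => p.1 + c • p.2.1 := (W2_cas c).comp h0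
  exact h2.prodMk (continuous_snd.comp continuous_snd)

private theorem W2_cc (c : ℝ) : Continuous fun p : Bil H × Bil H × Bil H => cf e (p.1 + c • p.2.1) p.2.2 := by
  have h2 : Continuous fun q : Bil H × Bil H => cf e q.1 q.2 := (cf_smooth e).continuous
  have h3 := h2.comp (W2_cas3 (H := H) c)
  exact h3

theorem mc_continuous (j : ℕ) : Continuous fun p : Bil H × Bil H × Bil H => mc e j p.1 p.2.1 p.2.2 := by
  unfold mc lj
  refine continuous_finsetSum _ fun k _ => ?_
  have h1 := W2_cc e (k : ℝ)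
  exact continuous_const.mul h1

end HDG
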