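import Pool.Agent.HDW.W1
import Pool.Agent.HDG.LA3

/-!
# HDW/W2a: mixed discriminants as coefficients (definitions), polynomials

`mj e j a x` is the coefficient of `s ^ j` in `dt (a + s x)` (up to a binomial coefficient the mixed discriminant
`a ^ (n-j) x ^ j`), `mc e j a x y` the coefficient of `s ^ j` in `cf (a + s x) y`, the derivative of `mj e j` at `a` in the direction `y`.

`dt_poly` and `cf_poly`: the determinant and the entries of the adjugate of a pencil of complex matrices are the values of complex polynomials of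
degree at most `n` and at most `n - 1`; the real parts of their coefficients are the coefficients of a real polynomial. The derivative clause of `dt_poly` is the
formula `hasDerivAt_dt` and the uniqueness of derivatives.
-/

set_option autoImplicit false

noncomputable section

open scoped ContDiff

namespace HDG

open Pool.Agent.FBR

variable {H : Type*} [NormedAddCommGroup H] [NormedSpace ℂ H] [FiniteDimensional ℂ H] {n : ℕ}
  (e : Module.Basis (Fin n) ℂ H)

/-- the coefficient of `s ^ j` in `dt (a + s x)` -/
def mj (j : ℕ) (a x : Bil H) : ℝ := lj n j fun s => dt e (a + s • x)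

/-- the coefficient of `s ^ j` in `cf (a + s x) y` -/
def mc (j : ℕ) (a x y : Bil H) : ℝ := lj n j fun s => cf e (a + s • x) y

/-- the real part of a complex polynomial on the real line is a real polynomial -/
private theorem W2a_re (Q : Polynomial ℂ) : ∃ P : Polynomial ℝ, (∀ k, Q.coeff k = 0 → P.coeff k = 0) ∧
    ∀ s : ℝ, (Q.eval (s : ℂ)).re = P.eval s := by
  refine ⟨∑ i ∈ Q.support, Polynomial.monomial i (Q.coeff i).re, ?_, ?_⟩
  · intro k hk
    rw [Polynomial.finsetSum_coeff]
    refine Finset.sum_eq_zero fun i _ => ?_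
    rw [Polynomial.coeff_monomial]
    split_ifs with h
    · rw [h, hk]; rfl
    · rfl
  · intro s
    rw [Polynomial.eval_eq_sum, Polynomial.sum, Complex.re_sum, Polynomial.eval_finsetSum]
    refine Finset.sum_congr rfl fun i _ => ?_
    rw [Polynomial.eval_monomial, ← Complex.ofReal_pow, mul_comm, Complex.re_ofReal_mul, mul_comm]

/-- the pencil `B + X A` of matrices -/
private def pen {m : ℕ} (A B : Matrix (Fin m) (Fin m) ℂ) : Matrix (Fin m) (Fin m) (Polynomial ℂ) :=
  (Polynomial.X : Polynomial ℂ) • A.map Polynomial.C + B.map Polynomial.C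

private theorem W2a_map {m : ℕ} (A B : Matrix (Fin m) (Fin m) ℂ) (s : ℂ) :
    (Polynomial.evalRingHom s).mapMatrix (pen A B) = B + s • A := by
  ext i j
  have h : ((Polynomial.evalRingHom s).mapMatrix (pen A B)) i j =
      (Polynomial.X * Polynomial.C (A i j) + Polynomial.C (B i j)).eval s := rfl
  rw [h, Polynomial.eval_add, Polynomial.eval_mul, Polynomial.eval_X, Polynomial.eval_C, Polynomial.eval_C, add_comm]
  rfl

private theorem W2a_Mt (a x : Bil H) (s : ℝ) : Mt e (a + s • x) = Mt e a + (s : ℂ) • Mt e x := by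
  rw [Mt_add, Mt_smul]

private theorem W2a_det {m : ℕ} (A B : Matrix (Fin m) (Fin m) ℂ) (s : ℂ) :
    (B + s • A).det = (pen A B).det.eval s := by
  rw [← W2a_map A B s, ← RingHom.map_det]
  rfl

private theorem W2a_adj {m : ℕ} (A B : Matrix (Fin m) (Fin m) ℂ) (s : ℂ) (i j : Fin m) :
    (B + s • A).adjugate i j = ((pen A B).adjugate i j).eval s := by
  rw [← W2a_map A B s, ← RingHom.map_adjugate]
  rfl

private theorem W2a_sub {m : ℕ} (A B : Matrix (Fin (m + 1)) (Fin (m + 1)) ℂ) (i j : Fin (m + 1)) :
    ((pen A B).adjugate i j).natDegree ≤ m := by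
  rw [Matrix.adjugate_fin_succ_eq_det_submatrix]
  have h1 : (pen A B).submatrix j.succAbove i.succAbove = pen (A.submatrix j.succAbove i.succAbove) (B.submatrix j.succAbove i.succAbove) := by
    ext k l
    simp [pen]
  rw [h1]
  have h2 := Polynomial.natDegree_det_X_add_C_le (A.submatrix j.succAbove i.succAbove) (B.submatrix j.succAbove i.succAbove)
  rw [Fintype.card_fin] at h2
  have h3 : ((-1 : Polynomial ℂ) ^ ((j + i : ℕ))).natDegree = 0 := by
    rcases neg_one_pow_eq_or (Polynomial ℂ) ((j + i : ℕ)) with h | h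
    · rw [h]; exact Polynomial.natDegree_one
    · rw [h, Polynomial.natDegree_neg]; exact Polynomial.natDegree_one
  refine (Polynomial.natDegree_mul_le).trans ?_
  rw [h3, zero_add]
  exact h2

theorem dt_poly (a x : Bil H) : ∃ P : Polynomial ℝ, P.natDegree ≤ n ∧ (∀ s : ℝ, dt e (a + s • x) = P.eval s) ∧
    ∀ s : ℝ, cf e (a + s • x) x = P.derivative.eval s := by
  obtain ⟨P, h1, h2⟩ := W2a_re (pen (Mt e x) (Mt e a)).det
  have h3 : ∀ s : ℝ, dt e (a + s • x) = P.eval s := by
    intro s
    rw [← h2 s, ← W2a_det, ← W2a_Mt]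
    rfl
  refine ⟨P, ?_, h3, ?_⟩
  · rw [Polynomial.natDegree_le_iff_coeff_eq_zero]
    intro N hN
    refine h1 N (Polynomial.coeff_eq_zero_of_natDegree_lt (lt_of_le_of_lt ?_ hN))
    have h4 := Polynomial.natDegree_det_X_add_C_le (Mt e x) (Mt e a)
    rw [Fintype.card_fin] at h4
    exact h4
  · intro s
    have h4 := hasDerivAt_dt e a x s
    have h5 : (fun t : ℝ => dt e (a + t • x)) = fun t => P.eval t := funext h3
    rw [h5] at h4
    exact h4.unique (P.hasDerivAt s)

theorem cf_poly (a x y : Bil H) : ∃ P : Polynomial ℝ, P.degree < n ∧ ∀ s : ℝ, cf e (a + s • x) y = P.eval s := by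
  cases n with
  | zero =>
    refine ⟨0, by simp, fun s => ?_⟩
    rw [Polynomial.eval_zero]
    unfold cf
    rw [Matrix.trace_fin_zero]
    rfl
  | succ m =>
    obtain ⟨P, h1, h2⟩ := W2a_re (∑ i, ∑ j, (pen (Mt e x) (Mt e a)).adjugate i j * Polynomial.C (Mt e y j i))
    refine ⟨P, ?_, fun s => ?_⟩
    · have h3 : P.natDegree ≤ m := by
        rw [Polynomial.natDegree_le_iff_coeff_eq_zero]
        intro N hN
        refine h1 N ?_
        rw [Polynomial.finsetSum_coeff]
        refine Finset.sum_eq_zero fun i _ => ?_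
        rw [Polynomial.finsetSum_coeff]
        refine Finset.sum_eq_zero fun j _ => ?_
        rw [Polynomial.coeff_mul_C, Polynomial.coeff_eq_zero_of_natDegree_lt (lt_of_le_of_lt (W2a_sub _ _ i j) hN), zero_mul]
      refine lt_of_le_of_lt (Polynomial.degree_le_of_natDegree_le h3) ?_
      exact_mod_cast Nat.lt_succ_self m
    · rw [← h2 s, Polynomial.eval_finsetSum]
      unfold cf
      refine congrArg Complex.re ?_
      have h4 : ((Mt e (a + s • x)).adjugate * Mt e y).trace = ∑ i, ∑ j, (Mt e (a + s • x)).adjugate i j * Mt e y j i := rfl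
      rw [h4]
      refine Finset.sum_congr rfl fun i _ => ?_
      rw [Polynomial.eval_finsetSum, W2a_Mt]
      refine Finset.sum_congr rfl fun j _ => ?_
      rw [Polynomial.eval_mul, Polynomial.eval_C, W2a_adj]

end HDG
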