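import Pool.Agent.HDW.W2
import Pool.Agent.HDG.LA2

/-!
# HDW/W3: positivity of mixed discriminants

For `a, x, y ≥ 0` all coefficients of `s ↦ cf (a + s x) y` are `≥ 0`. If `x` is positive definite then `Mt e x = W Wᴴ` and
`Mt e a = W D Wᴴ` with `D` diagonal and nonnegative (`w3_sim`), so that `cf (a + s x) y = ∑ i, Z i i * ∏ j ≠ i, (d j + s)` with the
positive semidefinite matrix `Z = adj W * Mt e y * (adj W)ᴴ` (`w3_tr`). For `x ≥ 0` use `x + ε w0` and `ε → 0` (`mc_continuous`).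
-/

set_option autoImplicit false
set_option maxSynthPendingDepth 3

noncomputable section

namespace HDG

open Pool.Agent.FBR

variable {G : Type*} [NormedAddCommGroup G] [NormedSpace ℝ G]

private theorem w3_cont (x w : Bil G) : Continuous fun c : ℝ => x + c • w := by fun_prop

private theorem w3_zero (x w : Bil G) : x + (0 : ℝ) • w = x := by rw [zero_smul, add_zero]

private theorem w3_lim {f : Bil G → ℝ} (hf : Continuous f) (x w : Bil G) (h : ∀ c : ℝ, 0 < c → 0 ≤ f (x + c • w)) :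
    0 ≤ f x := by
  have h1 : Continuous fun c : ℝ => f (x + c • w) := hf.comp (w3_cont x w)
  have h2 : Filter.Tendsto (fun c : ℝ => f (x + c • w)) (nhdsWithin 0 (Set.Ioi 0)) (nhds (f (x + (0 : ℝ) • w))) :=
    (h1.tendsto 0).mono_left nhdsWithin_le_nhds
  rw [w3_zero x w] at h2
  refine ge_of_tendsto h2 ?_
  filter_upwards [self_mem_nhdsWithin] with c hc
  exact h c hc

end HDG

open scoped ContDiff ComplexOrder

namespace HDG

open Pool.Agent.FBR

variable {H : Type*} [NormedAddCommGroup H] [NormedSpace ℂ H] [FiniteDimensional ℂ H] {n : ℕ}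
  (e : Module.Basis (Fin n) ℂ H)

open Matrix in
private theorem w3_spec {A : Matrix (Fin n) (Fin n) ℂ} (hA : A.PosSemidef) :
    ∃ (U : Matrix (Fin n) (Fin n) ℂ) (l : Fin n → ℝ), U * Uᴴ = 1 ∧ Uᴴ * U = 1 ∧ (∀ i, 0 ≤ l i) ∧
      A = U * diagonal (fun i => ((l i : ℝ) : ℂ)) * Uᴴ := by
  refine ⟨(hA.isHermitian.eigenvectorUnitary : Matrix (Fin n) (Fin n) ℂ), hA.isHermitian.eigenvalues, ?_, ?_, ?_, ?_⟩
  · exact Unitary.coe_mul_star_self hA.isHermitian.eigenvectorUnitary
  · exact Unitary.coe_star_mul_self hA.isHermitian.eigenvectorUnitary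
  · exact fun i => hA.eigenvalues_nonneg i
  · have h := hA.isHermitian.spectral_theorem
    rw [Unitary.conjStarAlgAut_apply] at h
    exact h

open Matrix in
/-- simultaneous diagonalisation -/
private theorem w3_sim {A X : Matrix (Fin n) (Fin n) ℂ} (hA : A.PosSemidef) (hX : X.PosSemidef) {c : ℝ} (hc : 0 < c) :
    ∃ (W : Matrix (Fin n) (Fin n) ℂ) (d : Fin n → ℝ), (∀ i, 0 ≤ d i) ∧
      A = W * diagonal (fun i => ((d i : ℝ) : ℂ)) * Wᴴ ∧ X + (c : ℂ) • (1 : Matrix (Fin n) (Fin n) ℂ) = W * Wᴴ := by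
  obtain ⟨U, l, hU, hU', hl, hXe⟩ := w3_spec hX
  have hp : ∀ i, 0 < l i + c := fun i => by linarith [hl i]
  have hXc : X + (c : ℂ) • (1 : Matrix (Fin n) (Fin n) ℂ) = U * diagonal (fun i => (((l i + c : ℝ)) : ℂ)) * Uᴴ := by
    have h2 : (diagonal (fun i => (((l i + c : ℝ)) : ℂ)) : Matrix (Fin n) (Fin n) ℂ) =
        diagonal (fun i => ((l i : ℝ) : ℂ)) + ((c : ℝ) : ℂ) • (1 : Matrix (Fin n) (Fin n) ℂ) := by
      rw [← diagonal_one, ← diagonal_smul, diagonal_add]
      congr 1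
      funext i
      simp
    rw [h2, Matrix.mul_add, Matrix.add_mul, ← hXe]
    congr 1
    rw [Matrix.mul_smul, Matrix.smul_mul, Matrix.mul_one, hU]
  obtain ⟨R, hR⟩ : ∃ R : Matrix (Fin n) (Fin n) ℂ, R = U * diagonal (fun i => ((Real.sqrt (l i + c) : ℝ) : ℂ)) := ⟨_, rfl⟩
  obtain ⟨Q, hQ⟩ : ∃ Q : Matrix (Fin n) (Fin n) ℂ, Q = diagonal (fun i => (((Real.sqrt (l i + c))⁻¹ : ℝ) : ℂ)) * Uᴴ :=
    ⟨_, rfl⟩
  have hdd : (diagonal (fun i => ((Real.sqrt (l i + c) : ℝ) : ℂ)) *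
      diagonal (fun i => (((Real.sqrt (l i + c))⁻¹ : ℝ) : ℂ)) : Matrix (Fin n) (Fin n) ℂ) = 1 := by
    rw [diagonal_mul_diagonal, ← diagonal_one]
    congr 1
    funext i
    rw [← Complex.ofReal_mul, mul_inv_cancel₀ (Real.sqrt_pos.2 (hp i)).ne', Complex.ofReal_one]
  have hRQ : R * Q = 1 := by
    rw [hR, hQ]
    calc U * diagonal (fun i => ((Real.sqrt (l i + c) : ℝ) : ℂ)) *
          (diagonal (fun i => (((Real.sqrt (l i + c))⁻¹ : ℝ) : ℂ)) * Uᴴ) =
          U * (diagonal (fun i => ((Real.sqrt (l i + c) : ℝ) : ℂ)) *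
          diagonal (fun i => (((Real.sqrt (l i + c))⁻¹ : ℝ) : ℂ))) * Uᴴ := by
          simp only [Matrix.mul_assoc]
      _ = 1 := by rw [hdd, Matrix.mul_one, hU]
  have hRR : R * Rᴴ = X + (c : ℂ) • (1 : Matrix (Fin n) (Fin n) ℂ) := by
    rw [hR, conjTranspose_mul, diagonal_conjTranspose, hXc]
    have h1 : star (fun i => ((Real.sqrt (l i + c) : ℝ) : ℂ)) = fun i => ((Real.sqrt (l i + c) : ℝ) : ℂ) := by
      funext i
      exact Complex.conj_ofReal _
    rw [h1]
    have h2 : (diagonal (fun i => ((Real.sqrt (l i + c) : ℝ) : ℂ)) *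
        diagonal (fun i => ((Real.sqrt (l i + c) : ℝ) : ℂ)) : Matrix (Fin n) (Fin n) ℂ) =
        diagonal (fun i => (((l i + c : ℝ)) : ℂ)) := by
      rw [diagonal_mul_diagonal]
      congr 1
      funext i
      rw [← Complex.ofReal_mul, Real.mul_self_sqrt (hp i).le]
    rw [← h2]
    simp only [Matrix.mul_assoc]
  have hB : (Q * A * Qᴴ).PosSemidef := hA.mul_mul_conjTranspose_same Q
  obtain ⟨S, d, hS, -, hd, hBe⟩ := w3_spec hB
  refine ⟨R * S, d, hd, ?_, ?_⟩
  · have h1 : R * S * diagonal (fun i => ((d i : ℝ) : ℂ)) * (R * S)ᴴ =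
        R * (S * diagonal (fun i => ((d i : ℝ) : ℂ)) * Sᴴ) * Rᴴ := by
      rw [conjTranspose_mul]
      simp only [Matrix.mul_assoc]
    have h2 : R * (Q * A * Qᴴ) * Rᴴ = (R * Q) * A * (R * Q)ᴴ := by
      rw [conjTranspose_mul]
      simp only [Matrix.mul_assoc]
    rw [h1, ← hBe, h2, hRQ, conjTranspose_one, Matrix.one_mul, Matrix.mul_one]
  · have h1 : R * S * (R * S)ᴴ = R * (S * Sᴴ) * Rᴴ := by
      rw [conjTranspose_mul]
      simp only [Matrix.mul_assoc]
    rw [h1, hS, Matrix.mul_one, hRR]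

open Matrix in
/-- the trace formula -/
private theorem w3_tr (W Y : Matrix (Fin n) (Fin n) ℂ) (v : Fin n → ℝ) :
    ((W * diagonal (fun i => ((v i : ℝ) : ℂ)) * Wᴴ).adjugate * Y).trace.re =
      ∑ i, ((W.adjugate * Y * W.adjugateᴴ) i i).re * ∏ j ∈ Finset.univ.erase i, v j := by
  have h1 : ((W * diagonal (fun i => ((v i : ℝ) : ℂ)) * Wᴴ).adjugate * Y).trace =
      ((diagonal (fun i => ((v i : ℝ) : ℂ))).adjugate * (W.adjugate * Y * W.adjugateᴴ)).trace := by
    rw [adjugate_mul_distrib, adjugate_mul_distrib, adjugate_conjTranspose, Matrix.mul_assoc, trace_mul_comm]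
    simp only [Matrix.mul_assoc]
  rw [h1, adjugate_diagonal, trace, Complex.re_sum]
  refine Finset.sum_congr rfl fun i _ => ?_
  rw [diag_apply, diagonal_mul, ← Complex.ofReal_prod, Complex.re_ofReal_mul, mul_comm]

private theorem w3_prod {ι : Type*} (s : Finset ι) (f : ι → Polynomial ℝ) (h : ∀ i ∈ s, ∀ k, 0 ≤ (f i).coeff k) :
    ∀ k, 0 ≤ (∏ i ∈ s, f i).coeff k := by
  refine Finset.prod_induction f (fun q : Polynomial ℝ => ∀ k, 0 ≤ q.coeff k) ?_ ?_ h
  · intro p q hp hq k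
    rw [Polynomial.coeff_mul]
    exact Finset.sum_nonneg fun i _ => mul_nonneg (hp _) (hq _)
  · intro k
    rw [Polynomial.coeff_one]
    split_ifs
    · exact zero_le_one
    · exact le_refl _

open Polynomial in
/-- the polynomial -/
private theorem w3_pol (z d : Fin n → ℝ) (hz : ∀ i, 0 ≤ z i) (hd : ∀ i, 0 ≤ d i) :
    ∃ P : Polynomial ℝ, P.natDegree ≤ n ∧ (∀ s : ℝ, P.eval s = ∑ i, z i * ∏ j ∈ Finset.univ.erase i, (d j + s)) ∧
      ∀ k, 0 ≤ P.coeff k := by
  refine ⟨∑ i, C (z i) * ∏ j ∈ Finset.univ.erase i, (X + C (d j)), ?_, ?_, ?_⟩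
  · refine Polynomial.natDegree_sum_le_of_forall_le _ _ fun i _ => ?_
    refine (Polynomial.natDegree_C_mul_le _ _).trans ?_
    refine (Polynomial.natDegree_prod_le _ _).trans ?_
    have h1 : ∑ j ∈ Finset.univ.erase i, (X + C (d j)).natDegree ≤ ∑ _j ∈ (Finset.univ.erase i : Finset (Fin n)), 1 :=
      Finset.sum_le_sum fun j _ => (Polynomial.natDegree_X_add_C (d j)).le
    refine h1.trans ?_
    rw [Finset.sum_const, smul_eq_mul, mul_one]
    exact (Finset.card_le_univ _).trans (by rw [Fintype.card_fin])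
  · intro s
    rw [Polynomial.eval_finsetSum]
    refine Finset.sum_congr rfl fun i _ => ?_
    rw [Polynomial.eval_mul, Polynomial.eval_C, Polynomial.eval_prod]
    congr 1
    refine Finset.prod_congr rfl fun j _ => ?_
    rw [Polynomial.eval_add, Polynomial.eval_X, Polynomial.eval_C, add_comm]
  · intro k
    rw [Polynomial.finsetSum_coeff]
    refine Finset.sum_nonneg fun i _ => ?_
    rw [Polynomial.coeff_C_mul]
    refine mul_nonneg (hz i) (w3_prod _ _ (fun j _ k => ?_) k)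
    rw [Polynomial.coeff_add, Polynomial.coeff_X, Polynomial.coeff_C]
    refine add_nonneg ?_ ?_
    · split_ifs
      · exact zero_le_one
      · exact le_refl _
    · split_ifs
      · exact hd j
      · exact le_refl _

open Matrix in
/-- the case of a positive definite form -/
private theorem w3_pos {a x y : Bil H} (ha : O11 a) (hx : O11 x) (hy : O11 y) (ha' : Nn a) (hx' : Nn x) (hy' : Nn y)
    (j : ℕ) {c : ℝ} (hc : 0 < c) : 0 ≤ mc e j a (x + c • w0 e) y := by
  obtain ⟨W, d, hd, hA, hX⟩ := w3_sim ((Mt_psd e ha).2 ha') ((Mt_psd e hx).2 hx') hc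
  have hZ : (W.adjugate * Mt e y * W.adjugateᴴ).PosSemidef :=
    ((Mt_psd e hy).2 hy').mul_mul_conjTranspose_same W.adjugate
  obtain ⟨P, hP, hPe, hPn⟩ := w3_pol (fun i => ((W.adjugate * Mt e y * W.adjugateᴴ) i i).re) d
    (fun i => (Complex.le_def.1 (hZ.diag_nonneg (i := i))).1) hd
  have h1 : ∀ s : ℝ, cf e (a + s • (x + c • w0 e)) y = P.eval s := by
    intro s
    have h2 : Mt e (a + s • (x + c • w0 e)) = W * diagonal (fun i => ((d i + s : ℝ) : ℂ)) * Wᴴ := by
      have h3 : (diagonal (fun i => (((d i + s : ℝ)) : ℂ)) : Matrix (Fin n) (Fin n) ℂ) =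
          diagonal (fun i => ((d i : ℝ) : ℂ)) + ((s : ℝ) : ℂ) • (1 : Matrix (Fin n) (Fin n) ℂ) := by
        rw [← diagonal_one, ← diagonal_smul, diagonal_add]
        congr 1
        funext i
        simp
      rw [Mt_add, Mt_smul, Mt_add, Mt_smul, Mt_w0, hX, h3, Matrix.mul_add, Matrix.add_mul, ← hA]
      congr 1
      rw [Matrix.mul_smul, Matrix.smul_mul, Matrix.mul_one]
    rw [hPe]
    unfold cf
    rw [h2, w3_tr]
  unfold mc
  rw [lj_poly j hP fun k _ => h1 k]
  exact hPn j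

theorem mc_nonneg {a x y : Bil H} (ha : O11 a) (hx : O11 x) (hy : O11 y) (ha' : Nn a) (hx' : Nn x) (hy' : Nn y) (j : ℕ) :
    0 ≤ mc e j a x y := by
  have h0 : Continuous fun z : Bil H => ((a, z, y) : Bil H × Bil H × Bil H) := by fun_prop
  have h1 : Continuous ((fun p : Bil H × Bil H × Bil H => mc e j p.1 p.2.1 p.2.2) ∘
      fun z : Bil H => ((a, z, y) : Bil H × Bil H × Bil H)) := (mc_continuous e j).comp h0
  exact w3_lim h1 x (w0 e) fun c hc => w3_pos e ha hx hy ha' hx' hy' j hc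

end HDG
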