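import Pool.Agent.HDG.LA1

/-!
# HDW/W5: `dd^c` of a function of a function

`dd^c (g ∘ φ) = g'(φ) dd^c φ + g''(φ) dφ ∧ d^c φ`, and the value of the last form at `(v, iv)` is
`g''(φ) (dφ(v)² + dφ(iv)²) / 2`. Both are obtained from the second derivative of `g ∘ φ` (`W5_D2`), evaluated at `(v, iv)`.
-/

set_option autoImplicit false

noncomputable section

open scoped ContDiff

namespace HDG

open Pool.Agent.FBR

variable {H : Type*} [NormedAddCommGroup H] [NormedSpace ℂ H]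

private theorem W5_D2 {φ : H → ℝ} {z : H} (hφ : ContDiff ℝ ∞ φ) {g g' g'' : ℝ → ℝ}
    (h1 : ∀ x, HasDerivAt g (g' x) x) (h2 : ∀ x, HasDerivAt g' (g'' x) x) (a b : H) :
    fderiv ℝ (fderiv ℝ (fun z => g (φ z))) z a b =
      g'' (φ z) * fderiv ℝ φ z a * fderiv ℝ φ z b + g' (φ z) * fderiv ℝ (fderiv ℝ φ) z a b := by
  have hd : ∀ x, HasFDerivAt φ (fderiv ℝ φ x) x := fun x =>
    (hφ.differentiable (by norm_num) x).hasFDerivAt
  have he : fderiv ℝ (fun z => g (φ z)) = fun x => g' (φ x) • fderiv ℝ φ x := by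
    funext x
    exact ((h1 (φ x)).comp_hasFDerivAt x (hd x)).fderiv
  have h5 : ContDiff ℝ ∞ (fderiv ℝ φ) := hφ.fderiv_right (by norm_num)
  have h6 : HasFDerivAt (fderiv ℝ φ) (fderiv ℝ (fderiv ℝ φ) z) z :=
    (h5.differentiable (by norm_num) z).hasFDerivAt
  have h7 : HasFDerivAt (fun x => g' (φ x)) (g'' (φ z) • fderiv ℝ φ z) z :=
    (h2 (φ z)).comp_hasFDerivAt z (hd z)
  have h8 : HasFDerivAt (fun x => g' (φ x) • fderiv ℝ φ x)
      (g' (φ z) • fderiv ℝ (fderiv ℝ φ) z + (g'' (φ z) • fderiv ℝ φ z).smulRight (fderiv ℝ φ z)) z := h7.smul h6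
  rw [he, h8.fderiv]
  simp only [add_apply, smul_apply, ContinuousLinearMap.smulRight_apply, smul_eq_mul]
  ring

private theorem W5_hd {h : ℝ → ℝ} (hh : ContDiff ℝ ∞ h) (x : ℝ) : HasDerivAt h (deriv h x) x :=
  (hh.differentiable (by norm_num) x).hasDerivAt

theorem ddc_comp_ge {φ : H → ℝ} (hφ : ContDiff ℝ ∞ φ) {g : ℝ → ℝ} (hg : ContDiff ℝ ∞ g) (z : H)
    (h2 : 0 ≤ deriv (deriv g) (φ z)) : Nn (ddc (fun z => g (φ z)) z - deriv g (φ z) • ddc φ z) := by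
  intro v
  have hg' : ContDiff ℝ ∞ (deriv g) := (contDiff_infty_iff_deriv.1 hg).2
  have e1 := fun a b => W5_D2 (z := z) hφ (W5_hd hg) (W5_hd hg') a b
  have h3 : (ddc (fun z => g (φ z)) z - deriv g (φ z) • ddc φ z) v (Complex.I • v) =
      ddc (fun z => g (φ z)) z v (Complex.I • v) - deriv g (φ z) * ddc φ z v (Complex.I • v) := rfl
  rw [h3, ddc_self, ddc_self, e1, e1]
  have h4 : 0 ≤ deriv (deriv g) (φ z) * (fderiv ℝ φ z v ^ 2 + fderiv ℝ φ z (Complex.I • v) ^ 2) :=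
    mul_nonneg h2 (by positivity)
  linarith

end HDG
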