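import Pool.Agent.HDW.W4
import Pool.Agent.HDW.W5
import Pool.Agent.HDG.LC5
import Pool.Agent.HDG.LC6

/-!
# HDW/W6: the local recursion

`Wp g g1`: the weight `g` and its primitive `g1`, on `(-∞, 0]`.

Let `T = b + ddc φ ≥ 0` on `qb e 3`. By `mj_euler`, `(n - j) mj j T w0 = mc j T w0 b + mc j T w0 (ddc φ)`; the first term is `≤ A' (j + 1) mj (j + 1) T w0` (`form_le`, `mc_le`).
By `ddc_comp_ge`, `g(φ) ddc φ ≤ ddc (g1 ∘ φ)` (note `deriv g1 (φ z) = g (φ z)` and `deriv (deriv g1) (φ z) = deriv g (φ z) ≥ 0` as `φ z ≤ 0`), so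
`∫ c1 g(φ) mc j T w0 (ddc φ) ≤ ∫ c1 mc j T w0 (ddc (g1 ∘ φ)) = ∫ g1(φ) mc j T w0 (ddc c1)` by `S1` (LC6) for the closed fields `T + k w0`, `k ≤ n`, and linearity of `lj`,
and `ddc c1 ≤ C w0`, `ddc c1 = 0` off the support of `c1`. Divide by `n - j ≥ 1`.
`loc_trace`: `mj e (n - 1) T w0 = cf e w0 T` (`mj_pred`) and `∫ c1 cf w0 (ddc φ) = ∫ φ cf w0 (ddc c1)` (`S1` for the constant field `w0`).
-/

set_option autoImplicit false
set_option maxSynthPendingDepth 3

noncomputable section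

open scoped ContDiff

open MeasureTheory

namespace HDG

open Pool.Agent.FBR

/-- the weight `g` and its primitive `g1` on `(-∞, 0]` -/
structure Wp (g g1 : ℝ → ℝ) : Prop where
  sm : ContDiff ℝ ∞ g
  sm1 : ContDiff ℝ ∞ g1
  nn : ∀ t ≤ 0, 0 ≤ g t
  nn1 : ∀ t ≤ 0, 0 ≤ g1 t
  der : ∀ t ≤ 0, deriv g1 t = g t
  der2 : ∀ t ≤ 0, 0 ≤ deriv (deriv g1) t

variable {H : Type*} [NormedAddCommGroup H] [NormedSpace ℂ H] [FiniteDimensional ℂ H] {n : ℕ}
  (e : Module.Basis (Fin n) ℂ H) [MeasurableSpace H] [BorelSpace H] (μ : Measure H) [μ.IsAddHaarMeasure]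

omit [FiniteDimensional ℂ H] [MeasurableSpace H] [BorelSpace H] in
private lemma W6_two {φ : H → ℝ} (hφ : ContDiff ℝ ∞ φ) (z : H) : ContDiffAt ℝ 2 φ z :=
  hφ.contDiffAt.of_le (by norm_cast)

omit [FiniteDimensional ℂ H] [MeasurableSpace H] [BorelSpace H] in
private lemma W6_cddc {φ : H → ℝ} (hφ : ContDiff ℝ ∞ φ) : Continuous (ddc φ) :=
  (contDiff_iff_contDiffAt.2 fun _ => ddc_smooth hφ.contDiffAt).continuous

omit [FiniteDimensional ℂ H] [MeasurableSpace H] [BorelSpace H] in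
private lemma W6_off {χ : H → ℝ} {z : H} (hz : z ∉ tsupport χ) : ddc χ z = 0 := by
  have h : χ =ᶠ[nhds z] fun _ => (0 : ℝ) := notMem_tsupport_iff_eventuallyEq.1 hz
  rw [ddc_congr h]
  have h2 := ddc_smul (0 : ℝ) (φ := fun _ : H => (0 : ℝ)) (q := z) contDiffAt_const
  simpa using h2

omit [MeasurableSpace H] [BorelSpace H] in
private lemma W6_cs {c1 : H → ℝ} (hcs : tsupport c1 ⊆ {z | qf e z ≤ (3 / 2) ^ 2}) : HasCompactSupport c1 :=
  (isCompact_qb e (3 / 2)).of_isClosed_subset (isClosed_tsupport c1) hcs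

omit [FiniteDimensional ℂ H] [MeasurableSpace H] [BorelSpace H] in
private lemma W6_in2 {c1 : H → ℝ} (hcs : tsupport c1 ⊆ {z | qf e z ≤ (3 / 2) ^ 2}) : tsupport c1 ⊆ qb e 2 := by
  intro z hz
  have h1 : qf e z ≤ (3 / 2) ^ 2 := hcs hz
  show qf e z < 2 ^ 2
  linarith

omit [FiniteDimensional ℂ H] [MeasurableSpace H] [BorelSpace H] in
private lemma W6_23 {z : H} (hz : z ∈ qb e 2) : z ∈ qb e 3 := by
  have h1 : qf e z < 2 ^ 2 := hz
  show qf e z < 3 ^ 2
  linarith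

private lemma W6_int {g : H → ℝ} (hg : Continuous g) : IntegrableOn g (qb e 2) μ :=
  (hg.continuousOn.integrableOn_compact (isCompact_qb e 2)).mono_set fun z (hz : qf e z < 2 ^ 2) => hz.le

omit [MeasurableSpace H] [BorelSpace H] in
private lemma W6_bound {E : Type*} [NormedAddCommGroup E] {g : H → E} (hg : Continuous g) :
    ∃ M : ℝ, 0 ≤ M ∧ ∀ z ∈ qb e 2, ‖g z‖ ≤ M := by
  obtain ⟨C, hC⟩ := (isCompact_qb e 2).exists_bound_of_continuousOn hg.continuousOn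
  exact ⟨max C 0, le_max_right _ _, fun z (hz : qf e z < 2 ^ 2) => (hC z hz.le).trans (le_max_left _ _)⟩

omit [MeasurableSpace H] [BorelSpace H] in
private lemma W6_dom {Cf : ℝ} (hCf : 0 < Cf)
    (hf : ∀ (a : Bil H) (v : H), |a v (Complex.I • v)| ≤ Cf * ‖a‖ * qf e v) {a : Bil H} {D : ℝ}
    (ha : ‖a‖ ≤ D) : Nn ((Cf * D) • w0 e - a) := by
  intro v
  have h1 : ((Cf * D) • w0 e - a) v (Complex.I • v) =
      (Cf * D) * w0 e v (Complex.I • v) - a v (Complex.I • v) := rfl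
  rw [h1, w0_self]
  have h2 := (abs_le.1 (hf a v)).2
  have h3 := qf_nonneg e v
  have h4 : Cf * ‖a‖ * qf e v ≤ Cf * D * qf e v :=
    mul_le_mul_of_nonneg_right (mul_le_mul_of_nonneg_left ha hCf.le) h3
  linarith

omit [MeasurableSpace H] [BorelSpace H] in
private lemma W6_cmj {T : H → Bil H} (hT : Continuous T) (j : ℕ) :
    Continuous fun z => mj e j (T z) (w0 e) := by
  have h1 := mj_continuous e j
  have h2 : Continuous fun z => (T z, (w0 e : Bil H)) := hT.prodMk continuous_const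
  exact Continuous.comp (g := fun p : Bil H × Bil H => mj e j p.1 p.2) (f := fun z => (T z, (w0 e : Bil H))) h1 h2

omit [MeasurableSpace H] [BorelSpace H] in
private lemma W6_cmc {T S : H → Bil H} (hT : Continuous T) (hS : Continuous S) (j : ℕ) :
    Continuous fun z => mc e j (T z) (w0 e) (S z) := by
  have h1 := mc_continuous e j
  have h2 : Continuous fun z => (T z, (w0 e : Bil H), S z) := hT.prodMk (continuous_const.prodMk hS)
  exact Continuous.comp (g := fun p : Bil H × Bil H × Bil H => mc e j p.1 p.2.1 p.2.2)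
    (f := fun z => (T z, (w0 e : Bil H), S z)) h1 h2

omit [MeasurableSpace H] [BorelSpace H] in
private lemma W6_ccf {P Q : H → Bil H} (hP : Continuous P) (hQ : Continuous Q) :
    Continuous fun z => cf e (P z) (Q z) := by
  have h1 : Continuous fun p : Bil H × Bil H => cf e p.1 p.2 := (cf_smooth e).continuous
  have h2 : Continuous fun z => (P z, Q z) := hP.prodMk hQ
  exact Continuous.comp (g := fun p : Bil H × Bil H => cf e p.1 p.2) (f := fun z => (P z, Q z)) h1 h2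

omit [MeasurableSpace H] [BorelSpace H] in
private lemma W6_cf0 (a : Bil H) : cf e a 0 = 0 := by
  have h2 := cf_smul e a 0 (0 : Bil H)
  rwa [zero_smul, zero_mul] at h2

omit [MeasurableSpace H] [BorelSpace H] in
private lemma W6_mc0 (j : ℕ) (a x : Bil H) : mc e j a x 0 = 0 := by
  have h2 := mc_smul e j a x 0 (0 : Bil H)
  rwa [zero_smul, zero_mul] at h2

private lemma W6_sym (j : ℕ) {T : H → Bil H} (hT : Fld T (qb e 3)) {c ψ : H → ℝ}
    (hc : ContDiff ℝ ∞ c) (hψ : ContDiff ℝ ∞ ψ) (hcc : HasCompactSupport c) (hc3 : tsupport c ⊆ qb e 3) :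
    ∫ z, c z * mc e j (T z) (w0 e) (ddc ψ z) ∂μ = ∫ z, ψ z * mc e j (T z) (w0 e) (ddc c z) ∂μ := by
  have hcf : ∀ (k : ℕ) (S : H → Bil H), Continuous S →
      Continuous fun z => cf e (T z + (k : ℝ) • w0 e) (S z) := fun k S hS =>
    W6_ccf e (hT.sm.continuous.add continuous_const) hS
  have hc0 : ∀ z, z ∉ tsupport c → c z = 0 := fun z hz => image_eq_zero_of_notMem_tsupport hz
  simp only [mc, lj, Finset.mul_sum]
  rw [integral_finsetSum _ fun k _ => ?_, integral_finsetSum _ fun k _ => ?_]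
  · refine Finset.sum_congr rfl fun k _ => ?_
    have h1 : ∀ z, c z * ((Lagrange.basis (Finset.range (n + 1)) (fun k : ℕ => (k : ℝ)) k).coeff j *
        cf e (T z + (k : ℝ) • w0 e) (ddc ψ z)) =
        (Lagrange.basis (Finset.range (n + 1)) (fun k : ℕ => (k : ℝ)) k).coeff j *
        (c z * cf e (T z + (k : ℝ) • w0 e) (ddc ψ z)) := fun z => by ring
    have h2 : ∀ z, ψ z * ((Lagrange.basis (Finset.range (n + 1)) (fun k : ℕ => (k : ℝ)) k).coeff j *
        cf e (T z + (k : ℝ) • w0 e) (ddc c z)) =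
        (Lagrange.basis (Finset.range (n + 1)) (fun k : ℕ => (k : ℝ)) k).coeff j *
        (ψ z * cf e (T z + (k : ℝ) • w0 e) (ddc c z)) := fun z => by ring
    simp only [h1, h2]
    rw [integral_const_mul, integral_const_mul]
    have h3 := Fld.add_w0 e hT (k : ℝ)
    rw [S1 e μ h3.sm h3.oo (isOpen_qb e 3) h3.cl hc hψ hcc hc3]
  · refine Continuous.integrable_of_hasCompactSupport
      (hψ.continuous.mul (continuous_const.mul (hcf k _ (W6_cddc hc)))) ?_
    refine HasCompactSupport.intro hcc fun z hz => ?_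
    rw [W6_off hz, W6_cf0, mul_zero, mul_zero]
  · refine Continuous.integrable_of_hasCompactSupport
      (hc.continuous.mul (continuous_const.mul (hcf k _ (W6_cddc hψ)))) ?_
    refine HasCompactSupport.intro hcc fun z hz => ?_
    rw [hc0 z hz, zero_mul]

private lemma W6_alg {p m x C1 J N : ℝ} (hp : 0 ≤ p) (hm : 0 ≤ m) (hx : x ≤ C1 * (J * m)) (hC1 : 0 ≤ C1)
    (hJ : J ≤ N) : p * x ≤ (C1 * N) * (p * m) := by
  have h1 : p * x ≤ p * (C1 * (J * m)) := mul_le_mul_of_nonneg_left hx hp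
  have h2 : C1 * J ≤ C1 * N := mul_le_mul_of_nonneg_left hJ hC1
  have h3 : (C1 * J) * (p * m) ≤ (C1 * N) * (p * m) := mul_le_mul_of_nonneg_right h2 (mul_nonneg hp hm)
  calc p * x ≤ p * (C1 * (J * m)) := h1
    _ = (C1 * J) * (p * m) := by ring
    _ ≤ (C1 * N) * (p * m) := h3

theorem loc_rec (A : ℝ) {c1 : H → ℝ} (hc1 : ContDiff ℝ ∞ c1) (h0 : ∀ z, 0 ≤ c1 z)
    (hcs : tsupport c1 ⊆ {z | qf e z ≤ (3 / 2) ^ 2}) : ∃ C : ℝ, 0 ≤ C ∧
    ∀ (b : H → Bil H) (φ : H → ℝ) (g g1 : ℝ → ℝ) (j : ℕ), Fld b (qb e 3) → (∀ z ∈ qb e 3, ‖b z‖ ≤ A) →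
      ContDiff ℝ ∞ φ → (∀ z ∈ qb e 3, Nn (b z + ddc φ z)) → (∀ z ∈ qb e 3, φ z ≤ 0) → Wp g g1 → j < n →
      ∫ z, c1 z * (g (φ z) * mj e j (b z + ddc φ z) (w0 e)) ∂μ ≤
        C * ∫ z in qb e 2, (g (φ z) + g1 (φ z)) * mj e (j + 1) (b z + ddc φ z) (w0 e) ∂μ := by
  obtain ⟨Cf, hCf, hform⟩ := form_le e
  obtain ⟨D, hD, hcD⟩ := W6_bound e (W6_cddc hc1)
  obtain ⟨M, hM, hcM⟩ := W6_bound e hc1.continuous
  have hcc := W6_cs e hcs
  have hc2 := W6_in2 e hcs
  have hc3 : tsupport c1 ⊆ qb e 3 := fun z hz => W6_23 e (hc2 hz)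
  have hc0 : ∀ z, z ∉ tsupport c1 → c1 z = 0 := fun z hz => image_eq_zero_of_notMem_tsupport hz
  set A' : ℝ := Cf * |A| with hA'
  have hA'0 : 0 ≤ A' := by positivity
  set D' : ℝ := Cf * D with hD'
  have hD'0 : 0 ≤ D' := by positivity
  set C : ℝ := M * (A' * n) + D' * n with hC
  have hC0 : 0 ≤ C := by positivity
  refine ⟨C, hC0, fun b φ g g1 j hb hbA hφ hN hφ0 hg hj => ?_⟩
  -- the field
  have hT : Fld (fun z => b z + ddc φ z) (qb e 3) := by
    have h := hb.add_ddc hφ 1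
    simpa only [one_smul] using h
  set T : H → Bil H := fun z => b z + ddc φ z with hTdef
  have hTc : Continuous T := hT.sm.continuous
  have hψ : ContDiff ℝ ∞ fun z => g1 (φ z) := hg.sm1.comp hφ
  have hgφ : Continuous fun z => g (φ z) := hg.sm.continuous.comp hφ.continuous
  have hgφ1 : Continuous fun z => g1 (φ z) := hψ.continuous
  have hmj : ∀ i, Continuous fun z => mj e i (T z) (w0 e) := fun i => W6_cmj e hTc i
  have hmc : ∀ S : H → Bil H, Continuous S → Continuous fun z => mc e j (T z) (w0 e) (S z) := fun S hS =>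
    W6_cmc e hTc hS j
  have hw : O11 (w0 e : Bil H) := w0_O11 e
  have hwn : Nn (w0 e : Bil H) := fun v => by
    rw [w0_self]
    exact qf_nonneg e v
  have hmj0 : ∀ z ∈ qb e 3, ∀ i, 0 ≤ mj e i (T z) (w0 e) := fun z hz i =>
    mj_nonneg e (hT.oo z) hw (hN z hz) hwn i
  have hj1 : ((j : ℝ) + 1) ≤ n := by exact_mod_cast hj
  -- the integral is nonnegative
  have hI0 : 0 ≤ ∫ z, c1 z * (g (φ z) * mj e j (T z) (w0 e)) ∂μ := by
    refine integral_nonneg fun z => ?_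
    show 0 ≤ c1 z * (g (φ z) * mj e j (T z) (w0 e))
    by_cases hz : z ∈ tsupport c1
    · have hz3 := hc3 hz
      exact mul_nonneg (h0 z) (mul_nonneg (hg.nn _ (hφ0 z hz3)) (hmj0 z hz3 j))
    · rw [hc0 z hz, zero_mul]
  -- integrability
  have hi : ∀ {F : H → ℝ}, Continuous F → Integrable (fun z => c1 z * F z) μ := fun hF =>
    (hc1.continuous.mul hF).integrable_of_hasCompactSupport hcc.mul_right
  have hcb := hmc b hb.sm.continuous
  have hcφ := hmc (ddc φ) (W6_cddc hφ)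
  have hcψ := hmc (ddc fun z => g1 (φ z)) (W6_cddc hψ)
  have hcc1 := hmc (ddc c1) (W6_cddc hc1)
  -- (1) the splitting
  have hsplit : ((n : ℝ) - j) * ∫ z, c1 z * (g (φ z) * mj e j (T z) (w0 e)) ∂μ =
      (∫ z, c1 z * (g (φ z) * mc e j (T z) (w0 e) (b z)) ∂μ) +
      ∫ z, c1 z * (g (φ z) * mc e j (T z) (w0 e) (ddc φ z)) ∂μ := by
    have i1 : Integrable (fun z => c1 z * (g (φ z) * mc e j (T z) (w0 e) (b z))) μ := hi (hgφ.mul hcb)
    have i2 : Integrable (fun z => c1 z * (g (φ z) * mc e j (T z) (w0 e) (ddc φ z))) μ := hi (hgφ.mul hcφ)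
    rw [← integral_const_mul, ← integral_add i1 i2]
    refine integral_congr_ae (Filter.Eventually.of_forall fun z => ?_)
    show ((n : ℝ) - j) * (c1 z * (g (φ z) * mj e j (T z) (w0 e))) =
      c1 z * (g (φ z) * mc e j (T z) (w0 e) (b z)) + c1 z * (g (φ z) * mc e j (T z) (w0 e) (ddc φ z))
    have h1 := mj_euler e j (T z) (w0 e)
    have h2 := mc_add e j (T z) (w0 e) (b z) (ddc φ z)
    have h3 : mc e j (T z) (w0 e) (T z) = mc e j (T z) (w0 e) (b z) + mc e j (T z) (w0 e) (ddc φ z) := h2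
    have h4 : ((n : ℝ) - j) * mj e j (T z) (w0 e) =
        mc e j (T z) (w0 e) (b z) + mc e j (T z) (w0 e) (ddc φ z) := h1.trans h3
    linear_combination (c1 z * g (φ z)) * h4
  -- (2) the first term
  have hfirst : ∫ z, c1 z * (g (φ z) * mc e j (T z) (w0 e) (b z)) ∂μ ≤
      ∫ z in qb e 2, C * (g (φ z) * mj e (j + 1) (T z) (w0 e)) ∂μ := by
    have h1 : ∀ z, z ∉ qb e 2 → c1 z * (g (φ z) * mc e j (T z) (w0 e) (b z)) = 0 := fun z hz => by
      rw [hc0 z fun h => hz (hc2 h), zero_mul]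
    rw [← setIntegral_eq_integral_of_forall_compl_eq_zero h1]
    refine setIntegral_mono_on (W6_int e μ (hc1.continuous.mul (hgφ.mul hcb)))
      (W6_int e μ (continuous_const.mul (hgφ.mul (hmj (j + 1))))) (isOpen_qb e 2).measurableSet fun z hz => ?_
    have hz3 := W6_23 e hz
    have h2 : Nn (A' • w0 e - b z) := W6_dom e hCf hform ((hbA z hz3).trans (le_abs_self A))
    have h3 := mc_le e (hT.oo z) hw (hb.oo z) (hN z hz3) hwn h2 j
    have h4 := W6_alg (hg.nn _ (hφ0 z hz3)) (hmj0 z hz3 (j + 1)) h3 hA'0 hj1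
    have h5 : 0 ≤ g (φ z) * mj e (j + 1) (T z) (w0 e) := mul_nonneg (hg.nn _ (hφ0 z hz3)) (hmj0 z hz3 (j + 1))
    have h6 : c1 z ≤ M := (le_abs_self _).trans (hcM z hz)
    have h7 : 0 ≤ (A' * n) * (g (φ z) * mj e (j + 1) (T z) (w0 e)) := by positivity
    calc c1 z * (g (φ z) * mc e j (T z) (w0 e) (b z))
        ≤ c1 z * ((A' * n) * (g (φ z) * mj e (j + 1) (T z) (w0 e))) := mul_le_mul_of_nonneg_left h4 (h0 z)
      _ ≤ M * ((A' * n) * (g (φ z) * mj e (j + 1) (T z) (w0 e))) := mul_le_mul_of_nonneg_right h6 h7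
      _ = (M * (A' * n)) * (g (φ z) * mj e (j + 1) (T z) (w0 e)) := by ring
      _ ≤ C * (g (φ z) * mj e (j + 1) (T z) (w0 e)) := by
        refine mul_le_mul_of_nonneg_right ?_ h5
        have : 0 ≤ D' * n := by positivity
        linarith
  -- (3) the second term
  have hsecond : ∫ z, c1 z * (g (φ z) * mc e j (T z) (w0 e) (ddc φ z)) ∂μ ≤
      ∫ z in qb e 2, C * (g1 (φ z) * mj e (j + 1) (T z) (w0 e)) ∂μ := by
    have h1 : ∫ z, c1 z * (g (φ z) * mc e j (T z) (w0 e) (ddc φ z)) ∂μ ≤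
        ∫ z, c1 z * mc e j (T z) (w0 e) (ddc (fun z => g1 (φ z)) z) ∂μ := by
      refine integral_mono (hi (hgφ.mul hcφ)) (hi hcψ) fun z => ?_
      show c1 z * (g (φ z) * mc e j (T z) (w0 e) (ddc φ z)) ≤
        c1 z * mc e j (T z) (w0 e) (ddc (fun z => g1 (φ z)) z)
      by_cases hz : z ∈ tsupport c1
      · have hz3 := hc3 hz
        refine mul_le_mul_of_nonneg_left ?_ (h0 z)
        have h2 := ddc_comp_ge hφ hg.sm1 z (hg.der2 _ (hφ0 z hz3))
        rw [hg.der _ (hφ0 z hz3)] at h2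
        have h3 := mc_mono e (hT.oo z) hw (O11_smul (g (φ z)) (O11_ddc (W6_two hφ z)))
          (O11_ddc (W6_two hψ z)) (hN z hz3) hwn h2 j
        rw [mc_smul] at h3
        exact h3
      · rw [hc0 z hz, zero_mul, zero_mul]
    refine h1.trans ?_
    rw [W6_sym e μ j hT hc1 hψ hcc hc3]
    have h4 : ∀ z, z ∉ qb e 2 → g1 (φ z) * mc e j (T z) (w0 e) (ddc c1 z) = 0 := fun z hz => by
      rw [W6_off fun h => hz (hc2 h), W6_mc0, mul_zero]
    rw [← setIntegral_eq_integral_of_forall_compl_eq_zero h4]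
    refine setIntegral_mono_on (W6_int e μ (hgφ1.mul hcc1))
      (W6_int e μ (continuous_const.mul (hgφ1.mul (hmj (j + 1))))) (isOpen_qb e 2).measurableSet fun z hz => ?_
    have hz3 := W6_23 e hz
    have h2 : Nn (D' • w0 e - ddc c1 z) := W6_dom e hCf hform (hcD z hz)
    have h3 := mc_le e (hT.oo z) hw (O11_ddc (W6_two hc1 z)) (hN z hz3) hwn h2 j
    have h5 := W6_alg (hg.nn1 _ (hφ0 z hz3)) (hmj0 z hz3 (j + 1)) h3 hD'0 hj1
    have h6 : 0 ≤ g1 (φ z) * mj e (j + 1) (T z) (w0 e) := mul_nonneg (hg.nn1 _ (hφ0 z hz3)) (hmj0 z hz3 (j + 1))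
    refine h5.trans (mul_le_mul_of_nonneg_right ?_ h6)
    have : 0 ≤ M * (A' * n) := by positivity
    linarith
  -- conclusion
  have hsum : C * ∫ z in qb e 2, (g (φ z) + g1 (φ z)) * mj e (j + 1) (T z) (w0 e) ∂μ =
      (∫ z in qb e 2, C * (g (φ z) * mj e (j + 1) (T z) (w0 e)) ∂μ) +
      ∫ z in qb e 2, C * (g1 (φ z) * mj e (j + 1) (T z) (w0 e)) ∂μ := by
    have i1 : IntegrableOn (fun z => C * (g (φ z) * mj e (j + 1) (T z) (w0 e))) (qb e 2) μ :=
      W6_int e μ (continuous_const.mul (hgφ.mul (hmj (j + 1))))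
    have i2 : IntegrableOn (fun z => C * (g1 (φ z) * mj e (j + 1) (T z) (w0 e))) (qb e 2) μ :=
      W6_int e μ (continuous_const.mul (hgφ1.mul (hmj (j + 1))))
    rw [← integral_const_mul, ← integral_add i1 i2]
    refine integral_congr_ae (Filter.Eventually.of_forall fun z => ?_)
    show C * ((g (φ z) + g1 (φ z)) * mj e (j + 1) (T z) (w0 e)) =
      C * (g (φ z) * mj e (j + 1) (T z) (w0 e)) + C * (g1 (φ z) * mj e (j + 1) (T z) (w0 e))
    ring
  have hnj : (1 : ℝ) ≤ (n : ℝ) - j := by linarith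
  have hlast : ∫ z, c1 z * (g (φ z) * mj e j (T z) (w0 e)) ∂μ ≤
      ((n : ℝ) - j) * ∫ z, c1 z * (g (φ z) * mj e j (T z) (w0 e)) ∂μ := le_mul_of_one_le_left hI0 hnj
  show ∫ z, c1 z * (g (φ z) * mj e j (T z) (w0 e)) ∂μ ≤
    C * ∫ z in qb e 2, (g (φ z) + g1 (φ z)) * mj e (j + 1) (T z) (w0 e) ∂μ
  rw [hsum]
  linarith

theorem loc_trace (A : ℝ) {c1 : H → ℝ} (hc1 : ContDiff ℝ ∞ c1) (h0 : ∀ z, 0 ≤ c1 z)
    (hcs : tsupport c1 ⊆ {z | qf e z ≤ (3 / 2) ^ 2}) (hn : 1 ≤ n) : ∃ C : ℝ, 0 ≤ C ∧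
    ∀ (b : H → Bil H) (φ : H → ℝ), Fld b (qb e 3) → (∀ z ∈ qb e 3, ‖b z‖ ≤ A) →
      ContDiff ℝ ∞ φ → ∫ z, c1 z * mj e (n - 1) (b z + ddc φ z) (w0 e) ∂μ ≤ C * (1 + ∫ z in qb e 2, |φ z| ∂μ) := by
  obtain ⟨D, hD, hcD⟩ := W6_bound e (W6_cddc hc1)
  obtain ⟨M, hM, hcM⟩ := W6_bound e hc1.continuous
  obtain ⟨B, hB, hbd⟩ := bd_cf e ‖(w0 e : Bil H)‖
  have hcc := W6_cs e hcs
  have hc2 := W6_in2 e hcs
  have hc3 : tsupport c1 ⊆ qb e 3 := fun z hz => W6_23 e (hc2 hz)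
  have hc0 : ∀ z, z ∉ tsupport c1 → c1 z = 0 := fun z hz => image_eq_zero_of_notMem_tsupport hz
  have hK0 : 0 ≤ ∫ _ in qb e 2, (M * (B * |A|)) ∂μ := integral_nonneg fun _ => by positivity
  set K : ℝ := ∫ _ in qb e 2, (M * (B * |A|)) ∂μ with hK
  refine ⟨K + B * D, by positivity, fun b φ hb hbA hφ => ?_⟩
  have hi : ∀ {F : H → ℝ}, Continuous F → Integrable (fun z => c1 z * F z) μ := fun hF =>
    (hc1.continuous.mul hF).integrable_of_hasCompactSupport hcc.mul_right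
  have hwb : Continuous fun z => cf e (w0 e) (b z) := W6_ccf e continuous_const hb.sm.continuous
  have hwφ : Continuous fun z => cf e (w0 e) (ddc φ z) := W6_ccf e continuous_const (W6_cddc hφ)
  have hwc : Continuous fun z => cf e (w0 e) (ddc c1 z) := W6_ccf e continuous_const (W6_cddc hc1)
  have hsplit : ∫ z, c1 z * mj e (n - 1) (b z + ddc φ z) (w0 e) ∂μ =
      (∫ z, c1 z * cf e (w0 e) (b z) ∂μ) + ∫ z, c1 z * cf e (w0 e) (ddc φ z) ∂μ := by
    rw [← integral_add (hi hwb) (hi hwφ)]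
    refine integral_congr_ae (Filter.Eventually.of_forall fun z => ?_)
    show c1 z * mj e (n - 1) (b z + ddc φ z) (w0 e) =
      c1 z * cf e (w0 e) (b z) + c1 z * cf e (w0 e) (ddc φ z)
    rw [mj_pred e hn, cf_add]
    ring
  have hfirst : ∫ z, c1 z * cf e (w0 e) (b z) ∂μ ≤ K := by
    have h1 : ∀ z, z ∉ qb e 2 → c1 z * cf e (w0 e) (b z) = 0 := fun z hz => by
      rw [hc0 z fun h => hz (hc2 h), zero_mul]
    rw [← setIntegral_eq_integral_of_forall_compl_eq_zero h1, hK]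
    refine setIntegral_mono_on (W6_int e μ (hc1.continuous.mul hwb))
      (W6_int e μ continuous_const) (isOpen_qb e 2).measurableSet fun z hz => ?_
    have h2 := hbd (w0 e) (b z) le_rfl
    have h3 : ‖b z‖ ≤ |A| := (hbA z (W6_23 e hz)).trans (le_abs_self A)
    have h4 : cf e (w0 e) (b z) ≤ B * |A| :=
      ((le_abs_self _).trans h2).trans (mul_le_mul_of_nonneg_left h3 hB)
    have h5 : c1 z ≤ M := (le_abs_self _).trans (hcM z hz)
    have h6 : 0 ≤ B * |A| := by positivity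
    exact (mul_le_mul_of_nonneg_left h4 (h0 z)).trans (mul_le_mul_of_nonneg_right h5 h6)
  have hsecond : ∫ z, c1 z * cf e (w0 e) (ddc φ z) ∂μ ≤ (B * D) * ∫ z in qb e 2, |φ z| ∂μ := by
    have hcl : ∀ z ∈ qb e 3, ∀ u v w : H, ext2 (fun _ : H => (w0 e : Bil H)) z u v w = 0 := by
      intro z _ u v w
      unfold ext2
      rw [fderiv_const_apply]
      simp
    rw [S1 e μ (b := fun _ => w0 e) contDiff_const (fun _ => w0_O11 e) (isOpen_qb e 3) hcl hc1 hφ hcc hc3]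
    have h1 : ∀ z, z ∉ qb e 2 → φ z * cf e (w0 e) (ddc c1 z) = 0 := fun z hz => by
      rw [W6_off fun h => hz (hc2 h), W6_cf0, mul_zero]
    rw [← setIntegral_eq_integral_of_forall_compl_eq_zero h1, ← integral_const_mul]
    refine setIntegral_mono_on (W6_int e μ (hφ.continuous.mul hwc))
      (W6_int e μ (continuous_const.mul hφ.continuous.abs)) (isOpen_qb e 2).measurableSet fun z hz => ?_
    have h2 := hbd (w0 e) (ddc c1 z) le_rfl
    have h3 : |cf e (w0 e) (ddc c1 z)| ≤ B * D := h2.trans (mul_le_mul_of_nonneg_left (hcD z hz) hB)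
    calc φ z * cf e (w0 e) (ddc c1 z) ≤ |φ z * cf e (w0 e) (ddc c1 z)| := le_abs_self _
      _ = |φ z| * |cf e (w0 e) (ddc c1 z)| := abs_mul _ _
      _ ≤ |φ z| * (B * D) := mul_le_mul_of_nonneg_left h3 (abs_nonneg _)
      _ = (B * D) * |φ z| := mul_comm _ _
  have hP : 0 ≤ ∫ z in qb e 2, |φ z| ∂μ := integral_nonneg fun z => abs_nonneg _
  have hBD : 0 ≤ B * D := by positivity
  rw [hsplit]
  nlinarith [mul_nonneg hK0 hP]

end HDG
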